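import Pool.Agent.Helper193.Defs

set_option autoImplicit false

/-!
Two averages over random words (formalised with the help of seat helper480).
-/

namespace Pool.Agent.Helper193

open Finset

namespace Avg

theorem pr_cons_zero {D J : ℕ} (A : (Fin D → Bool) → ℝ) (v : Fin D → Bool)
    (w : Fin J → Fin D → Bool) :
    pr A (Fin.cons v w : Fin (J + 1) → Fin D → Bool) 0 = 1 := by
  simp [pr]

theorem pr_cons_succ {D J : ℕ} (A : (Fin D → Bool) → ℝ) (v : Fin D → Bool)
    (w : Fin J → Fin D → Bool) (k : ℕ) :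
    pr A (Fin.cons v w : Fin (J + 1) → Fin D → Bool) (k + 1) = A v * pr A w k := by
  unfold pr
  rw [Finset.prod_filter, Fin.prod_univ_succ, Finset.prod_filter]
  simp

theorem sum_cons {D J : ℕ} (f : (Fin (J + 1) → Fin D → Bool) → ℝ) :
    ∑ w : Fin (J + 1) → Fin D → Bool, f w =
      ∑ v : Fin D → Bool, ∑ w : Fin J → Fin D → Bool, f (Fin.cons v w) := by
  rw [← (Fin.consEquiv (fun _ : Fin (J + 1) => (Fin D → Bool))).sum_comp, Fintype.sum_prod_type]
  rfl

/-- hits with a starting product -/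
noncomputable def hitsP {D J : ℕ} (A : (Fin D → Bool) → ℝ) (β : ℕ → (Fin D → Bool) → ℝ)
    (P : ℝ) (w : Fin J → Fin D → Bool) (lo hi : ℝ) : ℕ :=
  by classical exact (univ.filter fun k : Fin J => ∃ i < D, lo < P * pr A w k * |β i (w k)| ∧
    P * pr A w k * |β i (w k)| ≤ hi).card

/-- tail with a starting product -/
noncomputable def tailP {D J : ℕ} (A : (Fin D → Bool) → ℝ) (β : ℕ → (Fin D → Bool) → ℝ)
    (P : ℝ) (w : Fin J → Fin D → Bool) (θ : ℝ) : ℝ :=
  ∑ k : Fin J, ∑ i ∈ range D,
    if P * pr A w k * |β i (w k)| ≤ θ then P * pr A w k * |β i (w k)| else 0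

open Classical in
theorem hitsP_cons {D J : ℕ} (A : (Fin D → Bool) → ℝ) (β : ℕ → (Fin D → Bool) → ℝ)
    (P : ℝ) (v : Fin D → Bool) (w : Fin J → Fin D → Bool) (lo hi : ℝ) :
    hitsP A β P (Fin.cons v w : Fin (J + 1) → Fin D → Bool) lo hi =
      (if ∃ i < D, lo < P * |β i v| ∧ P * |β i v| ≤ hi then 1 else 0) +
        hitsP A β (P * A v) w lo hi := by
  unfold hitsP
  rw [Fin.card_filter_univ_succ]
  simp only [Fin.val_zero, pr_cons_zero, Fin.cons_zero, Fin.val_succ, pr_cons_succ, Fin.cons_succ,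
    mul_one, ← mul_assoc]
  split_ifs <;> ring

theorem tailP_cons {D J : ℕ} (A : (Fin D → Bool) → ℝ) (β : ℕ → (Fin D → Bool) → ℝ)
    (P : ℝ) (v : Fin D → Bool) (w : Fin J → Fin D → Bool) (θ : ℝ) :
    tailP A β P (Fin.cons v w : Fin (J + 1) → Fin D → Bool) θ =
      (∑ i ∈ range D, if P * |β i v| ≤ θ then P * |β i v| else 0) +
        tailP A β (P * A v) w θ := by
  unfold tailP
  rw [Fin.sum_univ_succ]
  simp only [Fin.val_zero, pr_cons_zero, Fin.cons_zero, Fin.val_succ, pr_cons_succ, Fin.cons_succ,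
    mul_one, ← mul_assoc]

/-- total count of large splits -/
noncomputable def psi {D : ℕ} (β : ℕ → (Fin D → Bool) → ℝ) (lo P : ℝ) : ℝ :=
  ∑ v : Fin D → Bool, (((range D).filter fun i => lo < P * |β i v|).card : ℝ)

theorem psi_mono {D : ℕ} (β : ℕ → (Fin D → Bool) → ℝ) (lo : ℝ) {P Q : ℝ} (h : P ≤ Q) :
    psi β lo P ≤ psi β lo Q := by
  unfold psi
  refine Finset.sum_le_sum fun v _ => ?_
  exact_mod_cast Finset.card_le_card (fun i hi => by
    rw [Finset.mem_filter] at hi ⊢
    exact ⟨hi.1, hi.2.trans_le (mul_le_mul_of_nonneg_right h (abs_nonneg _))⟩)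

open Classical in
theorem psi_step {D : ℕ} (A : (Fin D → Bool) → ℝ) (β : ℕ → (Fin D → Bool) → ℝ)
    (a1 a2 lo hi : ℝ) (ha1 : 0 < a1) (ha2 : a2 < 1) (hA : ∀ w, a1 ≤ A w ∧ A w ≤ a2)
    (hdecay : ∀ i w, |β (i + 1) w| ≤ a1 * |β i w|) (hlo : 0 < lo) (hhi : lo ≤ a1 * hi)
    {P : ℝ} (hP : 0 < P) :
    psi β lo P - psi β lo (P * a1) ≤
      ∑ v : Fin D → Bool,
        (if ∃ i < D, lo < P * |β i v| ∧ P * |β i v| ≤ hi then (1 : ℝ) else 0) := by
  unfold psi
  rw [← Finset.sum_sub_distrib]
  refine Finset.sum_le_sum fun v _ => ?_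
  have ha11 : a1 < 1 := lt_of_le_of_lt ((hA v).1.trans (hA v).2) ha2
  -- decay over several steps
  have hdec : ∀ i j, i < j → |β j v| ≤ a1 * |β i v| := by
    intro i j hij
    induction j, hij using Nat.le_induction with
    | base => exact hdecay i v
    | succ j hj ih =>
      calc |β (j + 1) v| ≤ a1 * |β j v| := hdecay j v
        _ ≤ 1 * |β j v| := mul_le_mul_of_nonneg_right ha11.le (abs_nonneg _)
        _ = |β j v| := one_mul _
        _ ≤ _ := ih
  set S := (range D).filter fun i => lo < P * |β i v| with hS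
  set T := (range D).filter fun i => lo < P * a1 * |β i v| with hT
  have hTS : T ⊆ S := by
    intro i hi
    rw [hT, Finset.mem_filter] at hi
    rw [hS, Finset.mem_filter]
    refine ⟨hi.1, hi.2.trans_le ?_⟩
    apply mul_le_mul_of_nonneg_right _ (abs_nonneg _)
    nlinarith
  have hcard : ((S \ T).card : ℝ) = S.card - T.card := by
    rw [Finset.card_sdiff_of_subset hTS, Nat.cast_sub (Finset.card_le_card hTS)]
  rw [← hcard]
  have hle1 : (S \ T).card ≤ 1 := by
    rw [Finset.card_le_one]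
    intro i hi j hj
    rw [Finset.mem_sdiff, hS, hT, Finset.mem_filter, Finset.mem_filter] at hi hj
    by_contra hne
    rcases lt_or_gt_of_ne hne with h | h
    · have h1 := hdec i j h
      have h2 : P * a1 * |β i v| ≤ lo := by
        by_contra hcon
        exact hi.2 ⟨hi.1.1, not_le.mp hcon⟩
      have h3 : P * |β j v| ≤ P * (a1 * |β i v|) := mul_le_mul_of_nonneg_left h1 hP.le
      have h4 := hj.1.2
      nlinarith
    · have h1 := hdec j i h
      have h2 : P * a1 * |β j v| ≤ lo := by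
        by_contra hcon
        exact hj.2 ⟨hj.1.1, not_le.mp hcon⟩
      have h3 : P * |β i v| ≤ P * (a1 * |β j v|) := mul_le_mul_of_nonneg_left h1 hP.le
      have h4 := hi.1.2
      nlinarith
  split_ifs with hex
  · exact_mod_cast hle1
  · have : (S \ T) = ∅ := by
      rw [Finset.eq_empty_iff_forall_notMem]
      intro i hm
      rw [Finset.mem_sdiff, hS, hT, Finset.mem_filter, Finset.mem_filter] at hm
      apply hex
      refine ⟨i, Finset.mem_range.mp hm.1.1, hm.1.2, ?_⟩
      have h2 : P * a1 * |β i v| ≤ lo := by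
        by_contra hcon
        exact hm.2 ⟨hm.1.1, not_le.mp hcon⟩
      have h3 : a1 * (P * |β i v|) ≤ a1 * hi := by
        nlinarith
      exact le_of_mul_le_mul_left h3 ha1
    rw [this]; simp

theorem abs_beta_le {D : ℕ} (β : ℕ → (Fin D → Bool) → ℝ) (a1 e : ℝ) (ha1 : a1 ≤ 1)
    (hdecay : ∀ i w, |β (i + 1) w| ≤ a1 * |β i w|)
    (hβ0 : ∀ w, |β 0 w| ≤ e) (i : ℕ) (w : Fin D → Bool) : |β i w| ≤ e := by
  induction i with
  | zero => exact hβ0 w
  | succ i ih =>
    refine (hdecay i w).trans ?_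
    calc a1 * |β i w| ≤ 1 * |β i w| := mul_le_mul_of_nonneg_right ha1 (abs_nonneg _)
      _ = |β i w| := one_mul _
      _ ≤ e := ih

open Classical in
theorem sum_hitsP {D : ℕ} (A : (Fin D → Bool) → ℝ) (β : ℕ → (Fin D → Bool) → ℝ)
    (a1 a2 lo hi e : ℝ) (ha1 : 0 < a1) (ha2 : a2 < 1) (hA : ∀ w, a1 ≤ A w ∧ A w ≤ a2)
    (hdecay : ∀ i w, |β (i + 1) w| ≤ a1 * |β i w|) (hlo : 0 < lo) (hhi : lo ≤ a1 * hi)
    (hβ0 : ∀ w, |β 0 w| ≤ e) (J : ℕ) : ∀ (P : ℝ), 0 < P →
    P * a2 ^ J * e ≤ lo →
    ∑ w : Fin J → Fin D → Bool, (1 / 2 : ℝ) ^ (hitsP A β P w lo hi) ≤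
      Real.exp (-(psi β lo P / Fintype.card (Fin D → Bool)) / 2) *
        Fintype.card (Fin J → Fin D → Bool) := by
  have w0 : Fin D → Bool := fun _ => false
  have ha12 : a1 ≤ a2 := (hA w0).1.trans (hA w0).2
  have he : 0 ≤ e := (abs_nonneg _).trans (hβ0 w0)
  have ha20 : 0 ≤ a2 := ha1.le.trans ha12
  have hc : (0 : ℝ) < Fintype.card (Fin D → Bool) := by
    exact_mod_cast Fintype.card_pos
  induction J with
  | zero =>
    intro P hP hPe
    rw [pow_zero, mul_one] at hPe
    have hpsi : psi β lo P = 0 := by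
      unfold psi
      apply Finset.sum_eq_zero
      intro v _
      have : (range D).filter (fun i => lo < P * |β i v|) = ∅ := by
        rw [Finset.filter_eq_empty_iff]
        intro i _ hcon
        have := abs_beta_le β a1 e (by linarith) hdecay hβ0 i v
        have h2 : P * |β i v| ≤ P * e := mul_le_mul_of_nonneg_left this hP.le
        linarith
      rw [this]; simp
    rw [hpsi]
    simp [hitsP]
  | succ J ih =>
    intro P hP hPe
    rw [sum_cons]
    have hcardJ : (Fintype.card (Fin (J + 1) → Fin D → Bool) : ℝ) =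
        Fintype.card (Fin D → Bool) * Fintype.card (Fin J → Fin D → Bool) := by
      simp only [Fintype.card_fun, Fintype.card_fin, Fintype.card_bool]
      push_cast
      ring
    set c : ℝ := ((Fintype.card (Fin D → Bool) : ℕ) : ℝ) with hcdef
    set N : ℝ := ((Fintype.card (Fin J → Fin D → Bool) : ℕ) : ℝ) with hN
    have hN0 : 0 ≤ N := by positivity
    -- bound for a fixed first letter
    have hfix : ∀ v : Fin D → Bool,
        ∑ w : Fin J → Fin D → Bool,
          (1 / 2 : ℝ) ^ (hitsP A β P (Fin.cons v w : Fin (J + 1) → Fin D → Bool) lo hi) ≤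
        (1 - (if ∃ i < D, lo < P * |β i v| ∧ P * |β i v| ≤ hi then (1 : ℝ) else 0) / 2) *
          (Real.exp (-(psi β lo (P * a1) / c) / 2) * N) := by
      intro v
      have h1 : ∀ w : Fin J → Fin D → Bool,
          (1 / 2 : ℝ) ^ (hitsP A β P (Fin.cons v w : Fin (J + 1) → Fin D → Bool) lo hi) =
          (1 - (if ∃ i < D, lo < P * |β i v| ∧ P * |β i v| ≤ hi then (1 : ℝ) else 0) / 2) *
            (1 / 2 : ℝ) ^ (hitsP A β (P * A v) w lo hi) := by
        intro w
        rw [hitsP_cons, pow_add]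
        congr 1
        split_ifs <;> norm_num
      rw [Finset.sum_congr rfl (fun w _ => h1 w), ← Finset.mul_sum]
      apply mul_le_mul_of_nonneg_left
      · have hAv : 0 < A v := ha1.trans_le (hA v).1
        have h2 := ih (P * A v) (by positivity) (by
          have : P * A v * a2 ^ J * e ≤ P * a2 * a2 ^ J * e := by
            have h3 : 0 ≤ a2 ^ J * e * P := by positivity
            nlinarith [(hA v).2]
          calc _ ≤ _ := this
            _ = P * a2 ^ (J + 1) * e := by ring
            _ ≤ lo := hPe)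
        refine h2.trans ?_
        apply mul_le_mul_of_nonneg_right _ hN0
        apply Real.exp_le_exp.mpr
        have h4 : psi β lo (P * a1) ≤ psi β lo (P * A v) :=
          psi_mono β lo (mul_le_mul_of_nonneg_left (hA v).1 hP.le)
        have h5 : psi β lo (P * a1) / c ≤ psi β lo (P * A v) / c :=
          div_le_div_of_nonneg_right h4 hc.le
        linarith
      · split_ifs <;> norm_num
    refine (Finset.sum_le_sum fun v _ => hfix v).trans ?_
    rw [← Finset.sum_mul]
    have hsum : ∑ v : Fin D → Bool,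
        (1 - (if ∃ i < D, lo < P * |β i v| ∧ P * |β i v| ≤ hi then (1 : ℝ) else 0) / 2) =
        c - (∑ v : Fin D → Bool,
          (if ∃ i < D, lo < P * |β i v| ∧ P * |β i v| ≤ hi then (1 : ℝ) else 0)) / 2 := by
      rw [Finset.sum_sub_distrib, Finset.sum_div]
      simp [hcdef]
    rw [hsum]
    set H : ℝ := ∑ v : Fin D → Bool,
          (if ∃ i < D, lo < P * |β i v| ∧ P * |β i v| ≤ hi then (1 : ℝ) else 0) with hH
    have hstep : psi β lo P - psi β lo (P * a1) ≤ H :=
      psi_step A β a1 a2 lo hi ha1 ha2 hA hdecay hlo hhi hP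
    have h6 : c - H / 2 ≤ c * Real.exp (-(H / c) / 2) := by
      have := Real.add_one_le_exp (-(H / c) / 2)
      have h7 : c * (-(H / c) / 2 + 1) ≤ c * Real.exp (-(H / c) / 2) :=
        mul_le_mul_of_nonneg_left this hc.le
      have h8 : c * (-(H / c) / 2 + 1) = c - H / 2 := by field_simp; ring
      linarith
    calc (c - H / 2) * (Real.exp (-(psi β lo (P * a1) / c) / 2) * N)
        ≤ (c * Real.exp (-(H / c) / 2)) * (Real.exp (-(psi β lo (P * a1) / c) / 2) * N) :=
          mul_le_mul_of_nonneg_right h6 (by positivity)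
      _ = Real.exp (-(H / c) / 2 + -(psi β lo (P * a1) / c) / 2) * (c * N) := by
          rw [Real.exp_add]; ring
      _ ≤ Real.exp (-(psi β lo P / c) / 2) * (c * N) := by
          apply mul_le_mul_of_nonneg_right _ (by positivity)
          apply Real.exp_le_exp.mpr
          have h9 : (psi β lo P - psi β lo (P * a1)) / c ≤ H / c :=
            div_le_div_of_nonneg_right hstep hc.le
          rw [sub_div] at h9
          linarith
      _ = _ := by rw [hcardJ]

theorem sum_hits {D : ℕ} (A : (Fin D → Bool) → ℝ) (β : ℕ → (Fin D → Bool) → ℝ)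
    (a1 a2 lo hi e : ℝ) (ha1 : 0 < a1) (ha2 : a2 < 1) (hA : ∀ w, a1 ≤ A w ∧ A w ≤ a2)
    (hdecay : ∀ i w, |β (i + 1) w| ≤ a1 * |β i w|) (hlo : 0 < lo) (hhi : lo ≤ a1 * hi)
    (hβ0 : ∀ w, |β 0 w| ≤ e) (hmin : ∀ w, ∀ i < D, lo < |β i w|) (J : ℕ)
    (hJ : a2 ^ J * e ≤ lo) :
    ∑ w : Fin J → Fin D → Bool, (1 / 2 : ℝ) ^ (hits A β w lo hi) ≤
      Real.exp (-(D : ℝ) / 2) * Fintype.card (Fin J → Fin D → Bool) := by
  have hc : (0 : ℝ) < Fintype.card (Fin D → Bool) := by
    exact_mod_cast Fintype.card_pos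
  have h := sum_hitsP A β a1 a2 lo hi e ha1 ha2 hA hdecay hlo hhi hβ0 J 1 one_pos
    (by rw [one_mul]; exact hJ)
  have h1 : ∀ w : Fin J → Fin D → Bool, hitsP A β 1 w lo hi = hits A β w lo hi := by
    intro w
    simp only [hitsP, hits, one_mul]
  simp only [h1] at h
  have h2 : psi β lo 1 = D * Fintype.card (Fin D → Bool) := by
    unfold psi
    have : ∀ v : Fin D → Bool, (((range D).filter fun i => lo < 1 * |β i v|).card : ℝ) = D := by
      intro v
      rw [Finset.filter_true_of_mem]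
      · simp
      · intro i hi
        rw [one_mul]
        exact hmin v i (Finset.mem_range.mp hi)
    rw [Finset.sum_congr rfl (fun v _ => this v)]
    simp [mul_comm]
  rw [h2, mul_div_assoc, div_self hc.ne', mul_one] at h
  exact h

theorem sum_tailP {D : ℕ} (A : (Fin D → Bool) → ℝ) (β : ℕ → (Fin D → Bool) → ℝ)
    (hA : ∀ w, 0 < A w ∧ A w ≤ 1 / 4) (θ : ℝ) (hθ : 0 < θ) (J : ℕ) : ∀ (P : ℝ), 0 < P →
    ∑ w : Fin J → Fin D → Bool, tailP A β P w θ ≤
      4 / 3 * (∑ v : Fin D → Bool, ∑ i ∈ range D, min (P * |β i v|) θ) /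
        Fintype.card (Fin D → Bool) * Fintype.card (Fin J → Fin D → Bool) := by
  have hc : (0 : ℝ) < Fintype.card (Fin D → Bool) := by
    exact_mod_cast Fintype.card_pos
  induction J with
  | zero =>
    intro P hP
    have : ∀ w : Fin 0 → Fin D → Bool, tailP A β P w θ = 0 := by
      intro w; simp [tailP]
    rw [Finset.sum_congr rfl (fun w _ => this w)]
    simp only [Finset.sum_const_zero]
    have : 0 ≤ ∑ v : Fin D → Bool, ∑ i ∈ range D, min (P * |β i v|) θ := by
      refine Finset.sum_nonneg fun v _ => Finset.sum_nonneg fun i _ => le_min (by positivity) hθ.le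
    positivity
  | succ J ih =>
    intro P hP
    rw [sum_cons]
    have hcardJ : (Fintype.card (Fin (J + 1) → Fin D → Bool) : ℝ) =
        Fintype.card (Fin D → Bool) * Fintype.card (Fin J → Fin D → Bool) := by
      simp only [Fintype.card_fun, Fintype.card_fin, Fintype.card_bool]
      push_cast
      ring
    set c : ℝ := ((Fintype.card (Fin D → Bool) : ℕ) : ℝ) with hcdef
    set N : ℝ := ((Fintype.card (Fin J → Fin D → Bool) : ℕ) : ℝ) with hN
    have hN0 : 0 ≤ N := by positivity
    set M : ℝ → ℝ := fun Q => ∑ v : Fin D → Bool, ∑ i ∈ range D, min (Q * |β i v|) θ with hM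
    have hMmono : ∀ Q R, Q ≤ R → M Q ≤ M R := by
      intro Q R hQR
      refine Finset.sum_le_sum fun v _ => Finset.sum_le_sum fun i _ => ?_
      exact min_le_min_right _ (mul_le_mul_of_nonneg_right hQR (abs_nonneg _))
    have hfix : ∀ v : Fin D → Bool,
        ∑ w : Fin J → Fin D → Bool,
          tailP A β P (Fin.cons v w : Fin (J + 1) → Fin D → Bool) θ ≤
        ((∑ i ∈ range D, if P * |β i v| ≤ θ then P * |β i v| else 0) +
          4 / 3 * M (P * (1 / 4)) / c) * N := by
      intro v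
      simp only [tailP_cons, Finset.sum_add_distrib, Finset.sum_const, Finset.card_univ,
        nsmul_eq_mul]
      have h1 := ih (P * A v) (mul_pos hP (hA v).1)
      have h2 : M (P * A v) ≤ M (P * (1 / 4)) :=
        hMmono _ _ (mul_le_mul_of_nonneg_left (hA v).2 hP.le)
      have h3 : 4 / 3 * M (P * A v) / c * N ≤ 4 / 3 * M (P * (1 / 4)) / c * N := by
        apply mul_le_mul_of_nonneg_right _ hN0
        apply div_le_div_of_nonneg_right _ hc.le
        linarith
      have h4 : (Fintype.card (Fin J → Fin D → Bool) : ℝ) = N := rfl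
      rw [h4] at *
      have h5 := h1.trans h3
      rw [add_mul, mul_comm N]
      linarith
    refine (Finset.sum_le_sum fun v _ => hfix v).trans ?_
    rw [← Finset.sum_mul, Finset.sum_add_distrib, Finset.sum_const, Finset.card_univ,
      nsmul_eq_mul, hcardJ]
    have hcc : (Fintype.card (Fin D → Bool) : ℝ) = c := rfl
    rw [hcc]
    have h6 : c * (4 / 3 * M (P * (1 / 4)) / c) = 4 / 3 * M (P * (1 / 4)) := by
      field_simp
    rw [h6]
    have h7 : (∑ v : Fin D → Bool, ∑ i ∈ range D, if P * |β i v| ≤ θ then P * |β i v| else 0) +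
        4 / 3 * M (P * (1 / 4)) ≤ 4 / 3 * M P := by
      rw [hM]
      simp only [Finset.mul_sum]
      rw [← Finset.sum_add_distrib]
      refine Finset.sum_le_sum fun v _ => ?_
      rw [← Finset.sum_add_distrib]
      refine Finset.sum_le_sum fun i _ => ?_
      have ht : 0 ≤ P * |β i v| := by positivity
      have h8 : P * (1 / 4) * |β i v| = (P * |β i v|) / 4 := by ring
      rw [h8]
      set t := P * |β i v| with htdef
      split_ifs with hle
      · rw [min_eq_left hle, min_eq_left (by linarith)]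
        linarith
      · rw [min_eq_right (not_le.mp hle).le]
        have : min (t / 4) θ ≤ θ := min_le_right _ _
        linarith
    calc ((∑ v : Fin D → Bool, ∑ i ∈ range D, if P * |β i v| ≤ θ then P * |β i v| else 0) +
        4 / 3 * M (P * (1 / 4))) * N ≤ 4 / 3 * M P * N := mul_le_mul_of_nonneg_right h7 hN0
      _ = 4 / 3 * M P / c * (c * N) := by field_simp

theorem sum_tail {D : ℕ} (A : (Fin D → Bool) → ℝ) (β : ℕ → (Fin D → Bool) → ℝ)
    (hA : ∀ w, 0 < A w ∧ A w ≤ 1 / 4) (θ : ℝ) (hθ : 0 < θ) (J : ℕ) :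
    ∑ w : Fin J → Fin D → Bool, tail A β w θ ≤
      4 / 3 * D * θ * Fintype.card (Fin J → Fin D → Bool) := by
  have hc : (0 : ℝ) < Fintype.card (Fin D → Bool) := by
    exact_mod_cast Fintype.card_pos
  have h := sum_tailP A β hA θ hθ J 1 one_pos
  have h1 : ∀ w : Fin J → Fin D → Bool, tailP A β 1 w θ = tail A β w θ := by
    intro w
    simp only [tailP, tail, one_mul]
  simp only [h1] at h
  refine h.trans ?_
  apply mul_le_mul_of_nonneg_right _ (by positivity)
  rw [div_le_iff₀ hc]
  have h2 : ∑ v : Fin D → Bool, ∑ i ∈ range D, min (1 * |β i v|) θ ≤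
      ∑ v : Fin D → Bool, ∑ i ∈ range D, θ :=
    Finset.sum_le_sum fun v _ => Finset.sum_le_sum fun i _ => min_le_right _ _
  simp only [Finset.sum_const, Finset.card_range, nsmul_eq_mul, Finset.card_univ] at h2
  nlinarith

end Avg

end Pool.Agent.Helper193
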