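import Pool.Agent.Helper193.Defs

set_option autoImplicit false

namespace Pool.Agent.Helper193

open Finset

variable {D J : ℕ}

lemma pr_zero (A : (Fin D → Bool) → ℝ) (w : Fin J → Fin D → Bool) : pr A w 0 = 1 := by
  simp [pr]

lemma pr_succ (A : (Fin D → Bool) → ℝ) (w : Fin J → Fin D → Bool) (k : Fin J) :
    pr A w (k + 1) = pr A w k * A (w k) := by
  unfold pr
  have : univ.filter (fun i : Fin J => (i : ℕ) < (k : ℕ) + 1) =
      insert k (univ.filter (fun i : Fin J => (i : ℕ) < (k : ℕ))) := by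
    ext i
    simp only [mem_filter, mem_univ, true_and, mem_insert, Fin.ext_iff]
    omega
  rw [this, prod_insert (by simp)]
  ring

lemma pr_cons (A : (Fin D → Bool) → ℝ) (w0 : Fin D → Bool) (w : Fin J → Fin D → Bool) (k : ℕ) :
    pr A (Fin.cons w0 w : Fin (J + 1) → Fin D → Bool) (k + 1) = A w0 * pr A w k := by
  unfold pr
  rw [prod_filter, Fin.prod_univ_succ, prod_filter]
  simp

lemma pr_pos {A : (Fin D → Bool) → ℝ} (hA : ∀ w, 0 < A w) (w : Fin J → Fin D → Bool) (k : ℕ) :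
    0 < pr A w k := prod_pos fun i _ => hA _

lemma pt_cons (A B : (Fin D → Bool) → ℝ) (w0 : Fin D → Bool) (w : Fin J → Fin D → Bool) :
    pt A B (Fin.cons w0 w : Fin (J + 1) → Fin D → Bool) = B w0 + A w0 * pt A B w := by
  unfold pt
  rw [Fin.sum_univ_succ]
  simp only [Fin.cons_zero, Fin.cons_succ, Fin.val_zero, Fin.val_succ, pr_zero, pr_cons, one_mul]
  rw [mul_sum]
  congr 1
  apply sum_congr rfl
  intros; ring

lemma trunc_of_ge (w : Fin D → Bool) {d : ℕ} (h : D ≤ d) : trunc w d = w := by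
  funext i
  simp [trunc, lt_of_lt_of_le i.2 h]

lemma trunc_zero (w : Fin D → Bool) : trunc w 0 = fun _ => false := by
  funext i
  simp [trunc]

lemma trunc_trunc (w : Fin D → Bool) (d d' : ℕ) (h : d ≤ d') : trunc (trunc w d') d = trunc w d := by
  funext i
  simp only [trunc]
  by_cases h1 : (i : ℕ) < d
  · simp [h1, lt_of_lt_of_le h1 h]
  · simp [h1]

variable {A B : (Fin D → Bool) → ℝ} {β : ℕ → (Fin D → Bool) → ℝ} {C δ : ℝ}

lemma IsTree.le (h : IsTree A B β C δ) (hδ0 : 0 ≤ δ) (hδ : δ ≤ 1) (i m : ℕ) (w : Fin D → Bool) :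
    |β (i + m) w| ≤ |β i w| := by
  induction m with
  | zero => simp
  | succ m ih =>
    calc |β (i + (m + 1)) w| ≤ δ * |β (i + m) w| := h.decay _ _
      _ ≤ 1 * |β (i + m) w| := by gcongr
      _ ≤ |β i w| := by rw [one_mul]; exact ih

lemma IsTree.le' (h : IsTree A B β C δ) (hδ0 : 0 ≤ δ) (hδ : δ ≤ 1) {i j : ℕ} (hij : i ≤ j)
    (w : Fin D → Bool) : |β j w| ≤ |β i w| := by
  obtain ⟨m, rfl⟩ := Nat.exists_eq_add_of_le hij
  exact h.le hδ0 hδ i m w

lemma IsTree.lt_le (h : IsTree A B β C δ) (hδ0 : 0 ≤ δ) (hδ : δ ≤ 1) {i j : ℕ} (hij : i < j)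
    (w : Fin D → Bool) : |β j w| ≤ δ * |β i w| :=
  (h.le' hδ0 hδ (Nat.succ_le_of_lt hij) w).trans (h.decay i w)

lemma IsTree.B_eq_aux (h : IsTree A B β C δ) (d m : ℕ) (w : Fin D → Bool) :
    B (trunc w (d + m)) - B (trunc w d) =
      ∑ i ∈ Ico d (d + m), if bit w i then β i w else 0 := by
  induction m with
  | zero => simp
  | succ m ih =>
    rw [← add_assoc, sum_Ico_succ_top (by omega), ← ih, ← h.stepB]
    ring

lemma IsTree.B_eq (h : IsTree A B β C δ) {d : ℕ} (hd : d ≤ D) (w : Fin D → Bool) :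
    B w - B (trunc w d) = ∑ i ∈ Ico d D, if bit w i then β i w else 0 := by
  obtain ⟨m, hm⟩ := Nat.exists_eq_add_of_le hd
  have := h.B_eq_aux d m w
  rw [← hm, trunc_of_ge w le_rfl] at this
  exact this

lemma IsTree.A_le_aux (h : IsTree A B β C δ) (hC : 0 ≤ C) (hδ0 : 0 ≤ δ) (hδ : δ ≤ 1 / 2)
    (m : ℕ) (w : Fin D → Bool) : ∀ d : ℕ,
    |A (trunc w (d + m)) - A (trunc w d)| ≤ 2 * C * |β d w| := by
  induction m with
  | zero => intro d; simp; positivity
  | succ m ih =>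
    intro d
    have h1 := ih (d + 1)
    have h2 := h.stepA d w
    have h3 := h.decay d w
    have e : d + (m + 1) = d + 1 + m := by ring
    rw [e]
    have h4 : |β (d + 1) w| ≤ 1 / 2 * |β d w| := h3.trans (by gcongr)
    have h5 : 2 * C * |β (d + 1) w| ≤ 2 * C * (1 / 2 * |β d w|) := by gcongr
    calc |A (trunc w (d + 1 + m)) - A (trunc w d)|
        ≤ |A (trunc w (d + 1 + m)) - A (trunc w (d + 1))| +
          |A (trunc w (d + 1)) - A (trunc w d)| := abs_sub_le _ _ _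
      _ ≤ 2 * C * |β (d + 1) w| + C * |β d w| := add_le_add h1 h2
      _ ≤ 2 * C * |β d w| := by linarith

lemma IsTree.A_le (h : IsTree A B β C δ) (hC : 0 ≤ C) (hδ0 : 0 ≤ δ) (hδ : δ ≤ 1 / 2)
    (d : ℕ) (w : Fin D → Bool) : |A w - A (trunc w d)| ≤ 2 * C * |β d w| := by
  have := h.A_le_aux hC hδ0 hδ D w d
  rwa [trunc_of_ge w (by omega : D ≤ d + D)] at this

lemma IsTree.congr_trunc (h : IsTree A B β C δ) (i : ℕ) (w : Fin D → Bool) :
    β i (trunc w i) = β i w := h.congr _ _ _ (trunc_trunc w i i le_rfl)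

/-- telescoping -/
lemma telescope (A B : (Fin D → Bool) → ℝ) (b : ℝ) (hA : ∀ w, 0 < A w ∧ A w ≤ 1 / 4)
    (hB : ∀ w, |B w| ≤ 2 * b) : ∀ (J : ℕ) (v u : Fin J → Fin D → Bool),
    |pt A B u| ≤ 4 * b ∧ ∃ X : Fin J → ℝ, (∀ k, |X k| ≤ 4 * b) ∧
      pt A B v - pt A B u = ∑ k : Fin J, pr A v k * ((A (v k) - A (u k)) * X k + (B (v k) - B (u k))) := by
  intro J
  have hb : 0 ≤ b := by
    have := (abs_nonneg _).trans (hB (fun _ => false))
    linarith
  induction J with
  | zero =>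
    intro v u
    refine ⟨by simp [pt]; positivity, fun k => 0, fun k => by simp; positivity, by simp [pt]⟩
  | succ J ih =>
    intro v u
    obtain ⟨v0, v, rfl⟩ : ∃ (v0 : Fin D → Bool) (v' : Fin J → Fin D → Bool),
        v = Fin.cons v0 v' := ⟨v 0, Fin.tail v, (Fin.cons_self_tail v).symm⟩
    obtain ⟨u0, u, rfl⟩ : ∃ (u0 : Fin D → Bool) (u' : Fin J → Fin D → Bool),
        u = Fin.cons u0 u' := ⟨u 0, Fin.tail u, (Fin.cons_self_tail u).symm⟩
    obtain ⟨h1, X, hX, hsum⟩ := ih v u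
    refine ⟨?_, Fin.cons (pt A B u) X, ?_, ?_⟩
    · rw [pt_cons]
      have := hA u0
      calc |B u0 + A u0 * pt A B u| ≤ |B u0| + |A u0 * pt A B u| := abs_add_le _ _
        _ = |B u0| + A u0 * |pt A B u| := by rw [abs_mul, abs_of_pos this.1]
        _ ≤ 2 * b + 1 / 4 * (4 * b) := by gcongr; exacts [hB _, this.2]
        _ ≤ 4 * b := by linarith
    · intro k
      refine Fin.cases ?_ (fun k => ?_) k
      · simpa using h1
      · simpa using hX k
    · rw [pt_cons, pt_cons, Fin.sum_univ_succ]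
      simp only [Fin.cons_zero, Fin.cons_succ, Fin.val_zero, Fin.val_succ, pr_zero, pr_cons]
      have : ∑ x : Fin J, A v0 * pr A v x * ((A (v x) - A (u x)) * X x + (B (v x) - B (u x))) =
          A v0 * (pt A B v - pt A B u) := by
        rw [hsum, mul_sum]
        apply sum_congr rfl
        intros; ring
      rw [this]
      ring

end Pool.Agent.Helper193
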