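import Mathlib

set_option autoImplicit false

namespace Pool.Agent.Helper193

open Finset

/-- exact formula for the average of `cos` over all subset sums -/
theorem sum_cos_subset {ι : Type*} [Fintype ι] [DecidableEq ι] (c : ι → ℝ) (x t : ℝ) :
    ∑ e : ι → Bool, Real.cos (t * (x + ∑ k, if e k then c k else 0)) =
      2 ^ Fintype.card ι * (Real.cos (t * x + t * (∑ k, c k) / 2) * ∏ k, Real.cos (t * c k / 2)) := by
  have h1 : ∑ e : ι → Bool, Complex.exp ((t * (x + ∑ k, if e k then c k else 0) : ℝ) * Complex.I) =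
      Complex.exp ((t * x : ℝ) * Complex.I) *
        ∏ k : ι, ∑ b : Bool, (if b then Complex.exp ((t * c k : ℝ) * Complex.I) else 1) := by
    rw [Finset.prod_univ_sum, Fintype.piFinset_univ, Finset.mul_sum]
    refine Finset.sum_congr rfl fun e _ => ?_
    have h2 : ∏ k : ι, (if e k then Complex.exp ((t * c k : ℝ) * Complex.I) else 1) =
        Complex.exp ((t * ∑ k, (if e k then c k else 0) : ℝ) * Complex.I) := by
      rw [Finset.mul_sum]
      push_cast
      rw [Finset.sum_mul, Complex.exp_sum]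
      refine Finset.prod_congr rfl fun k _ => ?_
      by_cases h : e k <;> simp [h]
    rw [h2, ← Complex.exp_add]
    congr 1
    push_cast
    ring
  have h3 : ∀ k : ι, ∑ b : Bool, (if b then Complex.exp ((t * c k : ℝ) * Complex.I) else 1) =
      Complex.exp ((t * c k / 2 : ℝ) * Complex.I) * (2 * (Real.cos (t * c k / 2) : ℂ)) := by
    intro k
    rw [Fintype.sum_bool]
    simp only [if_true, Bool.false_eq_true, if_false]
    rw [Complex.ofReal_cos, Complex.two_cos, mul_add, ← Complex.exp_add, ← Complex.exp_add]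
    congr 1
    · congr 1; push_cast; ring
    · rw [eq_comm, ← Complex.exp_zero]
      congr 1; push_cast; ring
  simp_rw [h3] at h1
  rw [Finset.prod_mul_distrib, Finset.prod_mul_distrib, ← Complex.exp_sum, ← mul_assoc,
    ← Complex.exp_add] at h1
  have h4 := congrArg Complex.re h1
  rw [Complex.re_sum] at h4
  simp only [Complex.exp_ofReal_mul_I_re] at h4
  rw [h4]
  have h5 : (((t * x : ℝ) : ℂ) * Complex.I + ∑ k, ((t * c k / 2 : ℝ) : ℂ) * Complex.I) =
      ((t * x + t * (∑ k, c k) / 2 : ℝ) : ℂ) * Complex.I := by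
    rw [← Finset.sum_mul, ← add_mul]
    congr 1
    push_cast
    rw [Finset.mul_sum, Finset.sum_div]
  rw [h5]
  have h6 : (∏ _k : ι, (2:ℂ)) * ∏ k, ((Real.cos (t * c k / 2) : ℝ) : ℂ) =
      ((2 ^ Fintype.card ι * ∏ k, Real.cos (t * c k / 2) : ℝ) : ℂ) := by
    push_cast
    simp
  rw [h6, Complex.re_mul_ofReal, Complex.exp_ofReal_mul_I_re]
  ring

theorem dirichlet_sq (m : ℕ) (w : ℝ) :
    ∑ s ∈ range m, ∑ s' ∈ range m, Real.cos (((s:ℝ) - s') * w) =
      (∑ s ∈ range m, Real.cos (s * w)) ^ 2 + (∑ s ∈ range m, Real.sin (s * w)) ^ 2 := by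
  rw [sq, sq, Finset.sum_mul_sum, Finset.sum_mul_sum, ← Finset.sum_add_distrib]
  refine Finset.sum_congr rfl fun s _ => ?_
  rw [← Finset.sum_add_distrib]
  refine Finset.sum_congr rfl fun s' _ => ?_
  rw [sub_mul, Real.cos_sub]

theorem cos_bound_exp {lam z : ℝ} (hlam : 0 < lam) (h1 : lam ^ 3 / 4 < |z|) (h2 : |z| ≤ 1) :
    |Real.cos z| ≤ Real.exp (-(lam ^ 6 / 48)) := by
  have hz : z ^ 2 ≤ 1 := by rw [← sq_abs]; nlinarith [abs_nonneg z]
  have hz2 : lam ^ 6 / 16 ≤ z ^ 2 := by
    rw [← sq_abs]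
    have : (lam ^ 3 / 4) ^ 2 ≤ |z| ^ 2 := pow_le_pow_left₀ (by positivity) h1.le 2
    calc lam ^ 6 / 16 = (lam ^ 3 / 4) ^ 2 := by ring
      _ ≤ _ := this
  have h3 : 0 ≤ Real.cos z := by
    apply Real.cos_nonneg_of_neg_pi_div_two_le_of_le
    · have := (abs_le.mp h2).1
      linarith [Real.pi_gt_three]
    · have := (abs_le.mp h2).2
      linarith [Real.pi_gt_three]
  rw [abs_of_nonneg h3]
  have h4 := Real.cos_bound h2
  have h5 := (abs_le.mp h4).2
  have h6 : |z| ^ 4 ≤ z ^ 2 := by
    have : |z| ^ 4 = z ^ 2 * z ^ 2 := by rw [← sq_abs z]; ring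
    rw [this]; nlinarith [sq_nonneg z]
  have h7 : Real.cos z ≤ 1 - 43 / 96 * z ^ 2 := by nlinarith
  have h8 : 1 - lam ^ 6 / 48 ≤ Real.exp (-(lam ^ 6 / 48)) := by
    have := Real.add_one_le_exp (-(lam ^ 6 / 48))
    linarith
  nlinarith [pow_pos hlam 6]

/-- concentration of subset sums when there are many summands at every scale `θ * lam ^ j` -/
theorem concentration {ι : Type*} [Fintype ι] [DecidableEq ι] (c : ι → ℝ)
    (θ lam K q x : ℝ) (n D' : ℕ) (hθ : 0 < θ) (hlam : 0 < lam) (hlam1 : lam ≤ 1 / 16)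
    (hn : 4 ≤ n) (hq : q = lam ^ n) (hK : 1 / lam ^ 3 ≤ K)
    (hD : Real.exp (-(lam ^ 6 / 48) * D') ≤ q)
    (hmany : ∀ j : ℕ, 1 ≤ j → j ≤ n - 3 → D' ≤ (univ.filter fun k : ι =>
      lam ^ 2 * (θ * lam ^ j) / 2 < |c k| ∧ |c k| ≤ 2 * (θ * lam ^ j)).card) :
    ((univ.filter fun e : ι → Bool =>
      |x + ∑ k, (if e k then c k else 0)| ≤ (K + 2) * q * θ).card : ℝ) ≤
      20 * (K + 3) * q * 2 ^ Fintype.card ι := by
  have hq0 : 0 < q := by rw [hq]; positivity
  have hq1 : q ≤ 1 := by rw [hq]; exact pow_le_one₀ hlam.le (by linarith)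
  have hK0 : 0 < K := lt_of_lt_of_le (by positivity) hK
  set l : ℝ := (K + 2) * q * θ with hl
  have hl0 : 0 < l := by positivity
  obtain ⟨m, hm⟩ := exists_nat_ge (1 / q)
  have hm0 : (0:ℝ) < m := lt_of_lt_of_le (by positivity) hm
  have hmq : 1 / (m:ℝ) ≤ q := by
    rw [div_le_iff₀ hm0]
    rw [div_le_iff₀ hq0] at hm
    linarith
  have hmq' : 1 ≤ m * q := by rw [div_le_iff₀ hq0] at hm; exact hm
  set Z : (ι → Bool) → ℝ := fun e => x + ∑ k, (if e k then c k else 0) with hZ
  set S : Finset (ι → Bool) := univ.filter fun e => |Z e| ≤ l with hS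
  -- pointwise lower bound
  have hlow : ∀ e ∈ S, (m:ℝ) ^ 2 / 4 ≤ ∑ s ∈ range m, ∑ s' ∈ range m,
      Real.cos (((s:ℝ) - s') * (Z e / (m * l))) := by
    intro e he
    rw [dirichlet_sq]
    have he' : |Z e| ≤ l := by simpa [hS] using he
    have hc : ∀ s ∈ range m, (1:ℝ) / 2 ≤ Real.cos (s * (Z e / (m * l))) := by
      intro s hs
      have hs' : (s:ℝ) ≤ m := by exact_mod_cast (mem_range.mp hs).le
      have h1 : |(s:ℝ) * (Z e / (m * l))| ≤ 1 := by
        rw [abs_mul, abs_div, abs_of_nonneg (by positivity : (0:ℝ) ≤ s),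
          abs_of_pos (by positivity : (0:ℝ) < m * l)]
        rw [← mul_div_assoc, div_le_one (by positivity)]
        exact mul_le_mul hs' he' (abs_nonneg _) hm0.le
      have h2 := Real.one_sub_sq_div_two_le_cos (x := (s:ℝ) * (Z e / (m * l)))
      have h3 : ((s:ℝ) * (Z e / (m * l))) ^ 2 ≤ 1 := by
        rw [← sq_abs]; nlinarith [abs_nonneg ((s:ℝ) * (Z e / (m * l)))]
      linarith
    have h1 : (m:ℝ) / 2 ≤ ∑ s ∈ range m, Real.cos (s * (Z e / (m * l))) := by
      have := Finset.card_nsmul_le_sum (range m) (fun s => Real.cos (s * (Z e / (m * l)))) (1/2) hc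
      simp only [card_range, nsmul_eq_mul] at this
      linarith
    have h2 : ((m:ℝ) / 2) ^ 2 ≤ (∑ s ∈ range m, Real.cos (s * (Z e / (m * l)))) ^ 2 :=
      pow_le_pow_left₀ (by positivity) h1 2
    have h3 := sq_nonneg (∑ s ∈ range m, Real.sin (s * (Z e / (m * l))))
    nlinarith
  have hnn : ∀ e, 0 ≤ ∑ s ∈ range m, ∑ s' ∈ range m,
      Real.cos (((s:ℝ) - s') * (Z e / (m * l))) := by
    intro e
    rw [dirichlet_sq]
    positivity
  have hsum1 : (S.card : ℝ) * ((m:ℝ) ^ 2 / 4) ≤ ∑ e : ι → Bool, ∑ s ∈ range m, ∑ s' ∈ range m,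
      Real.cos (((s:ℝ) - s') * (Z e / (m * l))) := by
    calc (S.card : ℝ) * ((m:ℝ) ^ 2 / 4) = S.card • ((m:ℝ) ^ 2 / 4) := by simp
      _ ≤ ∑ e ∈ S, ∑ s ∈ range m, ∑ s' ∈ range m, Real.cos (((s:ℝ) - s') * (Z e / (m * l))) :=
          Finset.card_nsmul_le_sum _ _ _ hlow
      _ ≤ _ := Finset.sum_le_sum_of_subset_of_nonneg (Finset.subset_univ _) fun e _ _ => hnn e
  -- upper bound for each pair
  set R : ℝ := m * (K + 2) * q with hR
  have hR0 : 0 ≤ R := by positivity
  have hpair : ∀ s ∈ range m, ∀ s' ∈ range m,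
      ∑ e : ι → Bool, Real.cos (((s:ℝ) - s') * (Z e / (m * l))) ≤
        2 ^ Fintype.card ι * ((if |(s:ℝ) - s'| ≤ R then 1 else 0) + q) := by
    intro s hs s' hs'
    have h0 : ∀ e : ι → Bool, Real.cos (((s:ℝ) - s') * (Z e / (m * l))) =
        Real.cos ((((s:ℝ) - s') / (m * l)) * (x + ∑ k, if e k then c k else 0)) := by
      intro e; congr 1; rw [hZ]; ring
    simp_rw [h0]
    rw [sum_cos_subset]
    set t : ℝ := ((s:ℝ) - s') / (m * l) with ht
    apply mul_le_mul_of_nonneg_left _ (by positivity)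
    have hprod1 : ∀ T : Finset ι, |∏ k ∈ T, Real.cos (t * c k / 2)| ≤ 1 := by
      intro T
      rw [Finset.abs_prod]
      exact Finset.prod_le_one (fun _ _ => abs_nonneg _) fun k _ => Real.abs_cos_le_one _
    have hbase : Real.cos (t * x + t * (∑ k, c k) / 2) * ∏ k, Real.cos (t * c k / 2) ≤
        |∏ k, Real.cos (t * c k / 2)| := by
      refine (le_abs_self _).trans ?_
      rw [abs_mul]
      exact mul_le_of_le_one_left (abs_nonneg _) (Real.abs_cos_le_one _)
    refine hbase.trans ?_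
    by_cases hcase : |(s:ℝ) - s'| ≤ R
    · rw [if_pos hcase]
      linarith [hprod1 univ]
    · rw [if_neg hcase, zero_add]
      push Not at hcase
      have habst : |t| = |(s:ℝ) - s'| / (m * l) := by
        rw [ht, abs_div, abs_of_pos (by positivity : (0:ℝ) < m * l)]
      have htθ : 1 < |t| * θ := by
        rw [habst, div_mul_eq_mul_div, lt_div_iff₀ (by positivity), one_mul, hl]
        have : (m:ℝ) * ((K + 2) * q * θ) = R * θ := by rw [hR]; ring
        rw [this]
        exact mul_lt_mul_of_pos_right hcase hθ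
      have htl : |t| * l ≤ 1 := by
        rw [habst]
        have h1 : |(s:ℝ) - s'| ≤ m := by
          have a1 : (s:ℝ) ≤ m := by exact_mod_cast (mem_range.mp hs).le
          have a2 : (s':ℝ) ≤ m := by exact_mod_cast (mem_range.mp hs').le
          have a3 : (0:ℝ) ≤ s := by positivity
          have a4 : (0:ℝ) ≤ s' := by positivity
          rw [abs_le]; constructor <;> linarith
        rw [div_mul_eq_mul_div, div_le_one (by positivity)]
        exact mul_le_mul_of_nonneg_right h1 hl0.le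
      have hex : ∃ j : ℕ, |t| * (θ * lam ^ j) ≤ 1 := by
        refine ⟨n - 3, ?_⟩
        refine le_trans ?_ htl
        apply mul_le_mul_of_nonneg_left _ (abs_nonneg _)
        have h1 : lam ^ (n - 3) ≤ K * q := by
          have h2 : lam ^ n = lam ^ (n - 3) * lam ^ 3 := by
            rw [← pow_add]; congr 1; omega
          rw [div_le_iff₀ (by positivity)] at hK
          rw [hq, h2]
          nlinarith [pow_pos hlam (n - 3)]
        have h3 : θ * lam ^ (n - 3) ≤ θ * (K * q) := mul_le_mul_of_nonneg_left h1 hθ.le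
        nlinarith [mul_pos hq0 hθ]
      classical
      set j := Nat.find hex with hj
      have hj1 : |t| * (θ * lam ^ j) ≤ 1 := Nat.find_spec hex
      have hjpos : 1 ≤ j := by
        rw [Nat.one_le_iff_ne_zero]
        intro h0
        rw [h0] at hj1
        simp only [pow_zero, mul_one] at hj1
        linarith
      have hjn : j ≤ n - 3 := by
        apply Nat.find_min'
        refine le_trans ?_ htl
        apply mul_le_mul_of_nonneg_left _ (abs_nonneg _)
        have h1 : lam ^ (n - 3) ≤ K * q := by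
          have h2 : lam ^ n = lam ^ (n - 3) * lam ^ 3 := by
            rw [← pow_add]; congr 1; omega
          rw [div_le_iff₀ (by positivity)] at hK
          rw [hq, h2]
          nlinarith [pow_pos hlam (n - 3)]
        have h3 : θ * lam ^ (n - 3) ≤ θ * (K * q) := mul_le_mul_of_nonneg_left h1 hθ.le
        nlinarith [mul_pos hq0 hθ]
      have hj2 : 1 < |t| * (θ * lam ^ (j - 1)) := by
        have := Nat.find_min hex (m := j - 1) (by omega)
        push Not at this
        exact this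
      have hj3 : lam < |t| * (θ * lam ^ j) := by
        have h1 : lam ^ j = lam ^ (j - 1) * lam := by
          rw [← pow_succ]; congr 1; omega
        rw [h1]
        nlinarith
      set T : Finset ι := univ.filter fun k : ι =>
        lam ^ 2 * (θ * lam ^ j) / 2 < |c k| ∧ |c k| ≤ 2 * (θ * lam ^ j) with hT
      have hTc := hmany j hjpos hjn
      have htpos : 0 < |t| := by
        by_contra h
        have : |t| = 0 := le_antisymm (not_lt.mp h) (abs_nonneg _)
        rw [this] at htθ; simp at htθ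
        linarith
      have hTk : ∀ k ∈ T, |Real.cos (t * c k / 2)| ≤ Real.exp (-(lam ^ 6 / 48)) := by
        intro k hk
        obtain ⟨hk1, hk2⟩ := (Finset.mem_filter.mp hk).2
        apply cos_bound_exp hlam
        · rw [abs_div, abs_mul, abs_of_pos (by norm_num : (0:ℝ) < 2)]
          have h1 : |t| * (lam ^ 2 * (θ * lam ^ j) / 2) < |t| * |c k| :=
            mul_lt_mul_of_pos_left hk1 htpos
          have h2 : lam ^ 2 * lam < lam ^ 2 * (|t| * (θ * lam ^ j)) :=
            mul_lt_mul_of_pos_left hj3 (by positivity)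
          nlinarith
        · rw [abs_div, abs_mul, abs_of_pos (by norm_num : (0:ℝ) < 2)]
          have h1 : |t| * |c k| ≤ |t| * (2 * (θ * lam ^ j)) :=
            mul_le_mul_of_nonneg_left hk2 (abs_nonneg _)
          nlinarith
      have hexp1 : Real.exp (-(lam ^ 6 / 48)) ≤ 1 := by
        rw [Real.exp_le_one_iff]; have := pow_pos hlam 6; linarith
      calc |∏ k, Real.cos (t * c k / 2)| = ∏ k, |Real.cos (t * c k / 2)| := Finset.abs_prod _ _
        _ ≤ ∏ k ∈ T, |Real.cos (t * c k / 2)| :=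
by
            rw [← Finset.prod_sdiff (Finset.subset_univ T)]
            exact mul_le_of_le_one_left (Finset.prod_nonneg fun _ _ => abs_nonneg _)
              (Finset.prod_le_one (fun _ _ => abs_nonneg _) fun k _ => Real.abs_cos_le_one _)
        _ ≤ ∏ k ∈ T, Real.exp (-(lam ^ 6 / 48)) :=
            Finset.prod_le_prod (fun _ _ => abs_nonneg _) hTk
        _ = Real.exp (-(lam ^ 6 / 48)) ^ T.card := by rw [Finset.prod_const]
        _ ≤ Real.exp (-(lam ^ 6 / 48)) ^ D' :=
            pow_le_pow_of_le_one (Real.exp_pos _).le hexp1 hTc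
        _ = Real.exp (-(lam ^ 6 / 48) * D') := by rw [← Real.exp_nat_mul]; congr 1; ring
        _ ≤ q := hD
  -- counting
  have hcount : ∀ s ∈ range m, ∑ s' ∈ range m, (if |(s:ℝ) - s'| ≤ R then (1:ℝ) else 0) ≤ 2 * R + 1 := by
    intro s _
    rw [Finset.sum_ite, Finset.sum_const_zero, add_zero, Finset.sum_const, nsmul_eq_mul, mul_one]
    have hsub : (range m).filter (fun s' : ℕ => |(s:ℝ) - s'| ≤ R) ⊆
        Finset.Icc (s - ⌊R⌋₊) (s + ⌊R⌋₊) := by
      intro s' hs'
      have h1 := (Finset.mem_filter.mp hs').2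
      rw [abs_le] at h1
      rw [Finset.mem_Icc]
      constructor
      · have h2 : (s:ℝ) - s' ≤ R := h1.2
        by_cases h3 : s ≤ s'
        · omega
        · push Not at h3
          have h4 : ((s - s' : ℕ) : ℝ) ≤ R := by
            rw [Nat.cast_sub h3.le]; exact h2
          have h5 := Nat.le_floor h4
          omega
      · have h2 : (s':ℝ) - s ≤ R := by linarith [h1.1]
        by_cases h3 : s' ≤ s
        · omega
        · push Not at h3
          have h4 : ((s' - s : ℕ) : ℝ) ≤ R := by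
            rw [Nat.cast_sub h3.le]; exact h2
          have h5 := Nat.le_floor h4
          omega
    have h1 := Finset.card_le_card hsub
    rw [Nat.card_Icc] at h1
    have h2 : ((range m).filter (fun s' : ℕ => |(s:ℝ) - s'| ≤ R)).card ≤ 2 * ⌊R⌋₊ + 1 := by omega
    have h3 : (((range m).filter (fun s' : ℕ => |(s:ℝ) - s'| ≤ R)).card : ℝ) ≤ 2 * ⌊R⌋₊ + 1 := by
      exact_mod_cast h2
    have h4 := Nat.floor_le hR0
    linarith
  have hsum2 : ∑ e : ι → Bool, ∑ s ∈ range m, ∑ s' ∈ range m,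
      Real.cos (((s:ℝ) - s') * (Z e / (m * l))) ≤
      2 ^ Fintype.card ι * (m * (2 * R + 1) + m * (m * q)) := by
    rw [Finset.sum_comm]
    calc ∑ s ∈ range m, ∑ e : ι → Bool, ∑ s' ∈ range m, Real.cos (((s:ℝ) - s') * (Z e / (m * l)))
        = ∑ s ∈ range m, ∑ s' ∈ range m, ∑ e : ι → Bool,
          Real.cos (((s:ℝ) - s') * (Z e / (m * l))) :=
          Finset.sum_congr rfl fun s _ => Finset.sum_comm
      _ ≤ ∑ s ∈ range m, ∑ s' ∈ range m,
          2 ^ Fintype.card ι * ((if |(s:ℝ) - s'| ≤ R then 1 else 0) + q) :=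
          Finset.sum_le_sum fun s hs => Finset.sum_le_sum fun s' hs' => hpair s hs s' hs'
      _ = ∑ s ∈ range m, 2 ^ Fintype.card ι *
          ((∑ s' ∈ range m, (if |(s:ℝ) - s'| ≤ R then (1:ℝ) else 0)) + m * q) := by
          refine Finset.sum_congr rfl fun s _ => ?_
          rw [← Finset.mul_sum, Finset.sum_add_distrib, Finset.sum_const, card_range, nsmul_eq_mul]
      _ ≤ ∑ s ∈ range m, 2 ^ Fintype.card ι * ((2 * R + 1) + m * q) := by
          refine Finset.sum_le_sum fun s hs => ?_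
          apply mul_le_mul_of_nonneg_left _ (by positivity)
          have := hcount s hs
          linarith
      _ = _ := by
          rw [Finset.sum_const, card_range, nsmul_eq_mul]; ring
  have hfin : (S.card : ℝ) * ((m:ℝ) ^ 2 / 4) ≤
      (8 * (K + 3) * q * 2 ^ Fintype.card ι) * ((m:ℝ) ^ 2 / 4) := by
    refine (hsum1.trans hsum2).trans ?_
    have h1 : (m:ℝ) * (2 * R + 1) + m * (m * q) ≤ 8 * (K + 3) * q * (m ^ 2 / 4) := by
      rw [hR]
      have : (m:ℝ) * 1 ≤ m * (m * q) := mul_le_mul_of_nonneg_left hmq' hm0.le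
      nlinarith
    calc (2:ℝ) ^ Fintype.card ι * (m * (2 * R + 1) + m * (m * q)) ≤
        2 ^ Fintype.card ι * (8 * (K + 3) * q * (m ^ 2 / 4)) :=
          mul_le_mul_of_nonneg_left h1 (by positivity)
      _ = _ := by ring
  have hfin2 : (S.card : ℝ) ≤ 8 * (K + 3) * q * 2 ^ Fintype.card ι :=
    le_of_mul_le_mul_right hfin (by positivity)
  refine hfin2.trans ?_
  have : 0 ≤ (K + 3) * q * 2 ^ Fintype.card ι := by positivity
  nlinarith

end Pool.Agent.Helper193
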