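import Pool.Agent.Helper193.Basic
import Pool.Agent.Helper193.Conc

set_option autoImplicit false

namespace Pool.Agent.Helper193

open Finset

variable {D J : ℕ}

/-- the base word of a state -/
def base (d : Fin J → ℕ) (u : Fin J → Fin D → Bool) : Fin J → Fin D → Bool :=
  fun k => trunc (u k) (d k)

/-- overwrite `w` by the explored bits of `u` -/
def ov (d : Fin J → ℕ) (u w : Fin J → Fin D → Bool) : Fin J → Fin D → Bool :=
  fun k i => if (i : ℕ) < d k then u k i else w k i

lemma trunc_ov (d : Fin J → ℕ) (u w : Fin J → Fin D → Bool) (k : Fin J) :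
    trunc (ov d u w k) (d k) = trunc (u k) (d k) := by
  funext i
  simp only [trunc, ov]
  split_ifs <;> rfl

lemma ov_self (d : Fin J → ℕ) (u v : Fin J → Fin D → Bool)
    (hv : ∀ k, trunc (v k) (d k) = trunc (u k) (d k)) : ov d u v = v := by
  funext k i
  simp only [ov]
  split_ifs with h
  · have := congrFun (hv k) i
    simp only [trunc, h, if_true] at this
    exact this.symm
  · rfl

/-- the parameters of the counting argument -/
structure Params (D : ℕ) (A B : (Fin D → Bool) → ℝ) (β : ℕ → (Fin D → Bool) → ℝ)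
    (C δ e0 K q lam : ℝ) (n D' : ℕ) : Prop where
  tree : IsTree A B β C δ
  hC : 0 ≤ C
  hδ0 : 0 ≤ δ
  hδ : δ ≤ q / 2
  hA : ∀ w, 0 < A w ∧ A w ≤ 1 / 4
  hB : ∀ w, |B w| ≤ 2 * e0
  hβ : ∀ w, |β 0 w| ≤ e0
  he0 : 0 < e0
  hlam : 0 < lam
  hlam1 : lam ≤ 1 / 16
  hn : 4 ≤ n
  hq : q = lam ^ n
  hK : 1 / lam ^ 3 ≤ K
  h1 : 12 * C * e0 ≤ q
  h2 : (8 * C + 12 * C / q) * e0 * K ≤ q
  hD : Real.exp (-(lam ^ 6 / 48) * D') ≤ q

variable {A B : (Fin D → Bool) → ℝ} {β : ℕ → (Fin D → Bool) → ℝ}
  {C δ e0 K q lam : ℝ} {n D' : ℕ}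

namespace Params

lemma q_pos (P : Params D A B β C δ e0 K q lam n D') : 0 < q := by
  rw [P.hq]; exact pow_pos P.hlam _

lemma q_le (P : Params D A B β C δ e0 K q lam n D') : q ≤ lam ^ 4 := by
  rw [P.hq]
  exact pow_le_pow_of_le_one P.hlam.le (P.hlam1.trans (by norm_num)) P.hn

lemma q_le' (P : Params D A B β C δ e0 K q lam n D') : q ≤ 1 / 65536 := by
  refine P.q_le.trans ?_
  have := pow_le_pow_left₀ P.hlam.le P.hlam1 4
  linarith [this, show ((1:ℝ) / 16) ^ 4 = 1 / 65536 by norm_num]

lemma δ_le (P : Params D A B β C δ e0 K q lam n D') : δ ≤ 1 / 2 := by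
  have := P.q_le'
  have := P.hδ
  linarith

lemma β_le (P : Params D A B β C δ e0 K q lam n D') (i : ℕ) (w : Fin D → Bool) :
    |β i w| ≤ e0 :=
  (P.tree.le' P.hδ0 (P.δ_le.trans (by norm_num)) (Nat.zero_le i) w).trans (P.hβ w)

lemma K_pos (P : Params D A B β C δ e0 K q lam n D') : 0 < K := by
  refine lt_of_lt_of_le ?_ P.hK
  have := P.hlam
  positivity

end Params

/-- valid states at scale `θ` -/
structure Valid (A : (Fin D → Bool) → ℝ) (β : ℕ → (Fin D → Bool) → ℝ) (θ : ℝ)
    (d : Fin J → ℕ) (u : Fin J → Fin D → Bool) : Prop where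
  v1 : ∀ k : Fin J, pr A (base d u) k * |β (d k) (u k)| ≤ 2 * θ
  v2 : ∀ (v : Fin J → Fin D → Bool), (∀ k, trunc (v k) (d k) = trunc (u k) (d k)) →
    ∀ (k : Fin J) (i : ℕ), i < d k → θ / 2 ≤ pr A v k * |β i (v k)|

lemma pr_close (P : Params D A B β C δ e0 K q lam n D') {θ : ℝ} (hθ : 0 < θ)
    {d : Fin J → ℕ} {u : Fin J → Fin D → Bool} (V : Valid A β θ d u)
    (v : Fin J → Fin D → Bool) (hv : ∀ k, trunc (v k) (d k) = trunc (u k) (d k)) :
    ∀ k : ℕ, k ≤ J → |pr A v k - pr A (base d u) k| ≤ 6 * C * θ := by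
  intro k
  induction k with
  | zero =>
    intro _
    rw [pr_zero, pr_zero]
    simp
    have := P.hC
    positivity
  | succ k ih =>
    intro hk
    have ih := ih (by omega)
    have hv' := hv ⟨k, hk⟩
    have V1 := V.v1 ⟨k, hk⟩
    have e1 := pr_succ A v ⟨k, hk⟩
    have e2 := pr_succ A (base d u) ⟨k, hk⟩
    simp only at e1 e2 V1
    rw [e1, e2]
    set a := A (v ⟨k, hk⟩) with ha
    set b := A (base d u ⟨k, hk⟩) with hb
    set p := pr A v k
    set p' := pr A (base d u) k with hp'
    have hp'0 : 0 < p' := pr_pos (fun w => (P.hA w).1) _ _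
    have hab : |a - b| ≤ 2 * C * |β (d ⟨k, hk⟩) (u ⟨k, hk⟩)| := by
      have := P.tree.A_le P.hC P.hδ0 P.δ_le (d ⟨k, hk⟩) (v ⟨k, hk⟩)
      rw [hv'] at this
      rw [← P.tree.congr _ _ _ hv']
      exact this
    have hpab : p' * |a - b| ≤ 4 * C * θ := by
      calc p' * |a - b| ≤ p' * (2 * C * |β (d ⟨k, hk⟩) (u ⟨k, hk⟩)|) := by gcongr
        _ = 2 * C * (p' * |β (d ⟨k, hk⟩) (u ⟨k, hk⟩)|) := by ring
        _ ≤ 2 * C * (2 * θ) := by
            have := P.hC
            gcongr
        _ = 4 * C * θ := by ring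
    have hCθ : 0 ≤ C * θ := mul_nonneg P.hC hθ.le
    calc |p * a - p' * b| = |(p - p') * a + p' * (a - b)| := by ring_nf
      _ ≤ |(p - p') * a| + |p' * (a - b)| := abs_add_le _ _
      _ = |p - p'| * a + p' * |a - b| := by
          rw [abs_mul, abs_mul, abs_of_pos (P.hA (v ⟨k, hk⟩)).1, abs_of_pos hp'0]
      _ ≤ 6 * C * θ * (1 / 4) + 4 * C * θ :=
          add_le_add (mul_le_mul ih (P.hA _).2 (P.hA _).1.le (by nlinarith)) hpab
      _ ≤ 6 * C * θ := by nlinarith

/-- the set of positions explored in the window -/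
def Expl (A : (Fin D → Bool) → ℝ) (β : ℕ → (Fin D → Bool) → ℝ) (q θ : ℝ)
    (d : Fin J → ℕ) (u : Fin J → Fin D → Bool) (k : Fin J) : Prop :=
  q * θ < pr A (base d u) k * |β (d k) (u k)|

open Classical in
/-- the coefficients of the window -/
noncomputable def coef (A : (Fin D → Bool) → ℝ) (β : ℕ → (Fin D → Bool) → ℝ) (q θ : ℝ)
    (d : Fin J → ℕ) (u : Fin J → Fin D → Bool) (k : Fin J) : ℝ :=
  if Expl A β q θ d u k then pr A (base d u) k * β (d k) (u k) else 0

lemma Expl.lt (P : Params D A B β C δ e0 K q lam n D') {θ : ℝ} (hθ : 0 < θ)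
    {d : Fin J → ℕ} {u : Fin J → Fin D → Bool} {k : Fin J}
    (h : Expl A β q θ d u k) : d k < D := by
  by_contra hd
  unfold Expl at h
  rw [P.tree.zero_of_ge _ _ (not_lt.mp hd)] at h
  simp at h
  have := mul_pos P.q_pos hθ
  linarith

/-- explored positions: the products are comparable -/
lemma Expl.close (P : Params D A B β C δ e0 K q lam n D') {θ : ℝ} (hθ : 0 < θ)
    {d : Fin J → ℕ} {u : Fin J → Fin D → Bool} (V : Valid A β θ d u)
    (v : Fin J → Fin D → Bool) (hv : ∀ k, trunc (v k) (d k) = trunc (u k) (d k)) {k : Fin J}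
    (h : Expl A β q θ d u k) :
    pr A (base d u) k ≤ 2 * pr A v k ∧ pr A v k ≤ 2 * pr A (base d u) k ∧
      6 * C * θ * q ≤ 12 * C * e0 * pr A v k := by
  have h1 := pr_close P hθ V v hv k k.2.le
  unfold Expl at h
  have hp0 : 0 < pr A (base d u) k := pr_pos (fun w => (P.hA w).1) _ _
  have h2 : q * θ < pr A (base d u) k * e0 :=
    lt_of_lt_of_le h (by gcongr; exact P.β_le _ _)
  have hq := P.q_pos
  have hC := P.hC
  have he := P.he0
  have h3 : 6 * C * θ * q ≤ 6 * C * e0 * pr A (base d u) k := by nlinarith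
  have h4 : 6 * C * e0 * pr A (base d u) k ≤ q / 2 * pr A (base d u) k := by
    have := P.h1
    gcongr
    linarith
  have h5 : 6 * C * θ ≤ pr A (base d u) k / 2 := by
    have : 6 * C * θ * q ≤ pr A (base d u) k / 2 * q := by linarith
    exact le_of_mul_le_mul_right this hq
  have h6 := abs_le.mp h1
  have h7 : pr A (base d u) k ≤ 2 * pr A v k := by linarith [h6.1]
  refine ⟨h7, by linarith [h6.2], ?_⟩
  calc 6 * C * θ * q ≤ 6 * C * e0 * pr A (base d u) k := h3
    _ ≤ 6 * C * e0 * (2 * pr A v k) := by gcongr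
    _ = 12 * C * e0 * pr A v k := by ring

/-- not explored positions -/
lemma not_Expl (P : Params D A B β C δ e0 K q lam n D') {θ : ℝ} (hθ : 0 < θ)
    {d : Fin J → ℕ} {u : Fin J → Fin D → Bool} (V : Valid A β θ d u)
    (v : Fin J → Fin D → Bool) (hv : ∀ k, trunc (v k) (d k) = trunc (u k) (d k)) {k : Fin J}
    (h : ¬ Expl A β q θ d u k) : pr A v k * |β (d k) (v k)| ≤ 2 * q * θ := by
  have h1 := abs_le.mp (pr_close P hθ V v hv k k.2.le)
  unfold Expl at h
  rw [not_lt] at h
  rw [P.tree.congr _ _ _ (hv k)]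
  have h2 := P.β_le (d k) (u k)
  have h3 := P.h1
  have h4 := P.hC
  have h5 := P.he0
  have h6 := P.q_pos
  have h7 : 0 ≤ |β (d k) (u k)| := abs_nonneg _
  have h8 : 6 * C * θ * |β (d k) (u k)| ≤ 6 * C * θ * e0 := by gcongr
  have h9 : 6 * C * θ * e0 ≤ q / 2 * θ := by nlinarith
  nlinarith [mul_le_mul_of_nonneg_right h1.2 h7]

/-- the split at depth `d k` has size at most `3 θ` -/
lemma split_le (P : Params D A B β C δ e0 K q lam n D') {θ : ℝ} (hθ : 0 < θ)
    {d : Fin J → ℕ} {u : Fin J → Fin D → Bool} (V : Valid A β θ d u)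
    (v : Fin J → Fin D → Bool) (hv : ∀ k, trunc (v k) (d k) = trunc (u k) (d k)) (k : Fin J) :
    pr A v k * |β (d k) (v k)| ≤ 3 * θ := by
  have h1 := abs_le.mp (pr_close P hθ V v hv k k.2.le)
  have h := V.v1 k
  rw [P.tree.congr _ _ _ (hv k)]
  have h2 := P.β_le (d k) (u k)
  have h3 := P.h1
  have h4 := P.hC
  have h5 := P.he0
  have h6 := P.q_pos
  have h6' := P.q_le'
  have h7 : 0 ≤ |β (d k) (u k)| := abs_nonneg _
  have h8 : 6 * C * θ * |β (d k) (u k)| ≤ 6 * C * θ * e0 := by gcongr
  have h9 : 6 * C * θ * e0 ≤ q / 2 * θ := by nlinarith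
  nlinarith [mul_le_mul_of_nonneg_right h1.2 h7]

/-- deeper splits are small -/
lemma deep_le (P : Params D A B β C δ e0 K q lam n D') {θ : ℝ} (hθ : 0 < θ)
    {d : Fin J → ℕ} {u : Fin J → Fin D → Bool} (V : Valid A β θ d u)
    (v : Fin J → Fin D → Bool) (hv : ∀ k, trunc (v k) (d k) = trunc (u k) (d k)) (k : Fin J)
    {i : ℕ} (hi : d k < i) : pr A v k * |β i (v k)| ≤ 2 * q * θ := by
  have h1 := split_le P hθ V v hv k
  have hp := pr_pos (fun w => (P.hA w).1) v k
  have h2 := P.tree.lt_le P.hδ0 (P.δ_le.trans (by norm_num)) hi (v k)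
  have h3 := P.hδ
  have h6 := P.q_pos
  calc pr A v k * |β i (v k)| ≤ pr A v k * (δ * |β (d k) (v k)|) := by gcongr
    _ = δ * (pr A v k * |β (d k) (v k)|) := by ring
    _ ≤ δ * (3 * θ) := by have := P.hδ0; gcongr
    _ ≤ q / 2 * (3 * θ) := by gcongr
    _ ≤ 2 * q * θ := by nlinarith

/-- the contribution of one letter to `tail` -/
noncomputable def tailAt (A : (Fin D → Bool) → ℝ) (β : ℕ → (Fin D → Bool) → ℝ)
    (v : Fin J → Fin D → Bool) (θ : ℝ) (k : Fin J) : ℝ :=
  ∑ i ∈ range D, if pr A v k * |β i (v k)| ≤ θ then pr A v k * |β i (v k)| else 0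

lemma single_le_tailAt (hA : ∀ w, 0 < A w) (v : Fin J → Fin D → Bool) {θ : ℝ} (k : Fin J)
    {i : ℕ} (hi : i < D) (h : pr A v k * |β i (v k)| ≤ θ) :
    pr A v k * |β i (v k)| ≤ tailAt A β v θ k := by
  unfold tailAt
  have hp := pr_pos hA v k
  have := single_le_sum (f := fun i => if pr A v k * |β i (v k)| ≤ θ then
    pr A v k * |β i (v k)| else 0) (s := range D) (fun i _ => by
      split_ifs <;> positivity) (mem_range.mpr hi)
  simp only [h, if_true] at this
  exact this

lemma tailAt_nonneg (hA : ∀ w, 0 < A w) (v : Fin J → Fin D → Bool) (θ : ℝ) (k : Fin J) :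
    0 ≤ tailAt A β v θ k := by
  unfold tailAt
  have hp := pr_pos hA v k
  refine sum_nonneg fun i _ => ?_
  split_ifs <;> positivity

lemma sum_Ico_le_tailAt (hA : ∀ w, 0 < A w) (v : Fin J → Fin D → Bool) {θ : ℝ} (k : Fin J)
    (m : ℕ) (h : ∀ i, m ≤ i → pr A v k * |β i (v k)| ≤ θ) :
    |pr A v k * ∑ i ∈ Ico m D, (if bit (v k) i then β i (v k) else 0)| ≤ tailAt A β v θ k := by
  have hp := pr_pos hA v k
  rw [abs_mul, abs_of_pos hp]
  calc pr A v k * |∑ i ∈ Ico m D, (if bit (v k) i then β i (v k) else 0)|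
      ≤ pr A v k * ∑ i ∈ Ico m D, |if bit (v k) i then β i (v k) else 0| := by
        gcongr; exact abs_sum_le_sum_abs _ _
    _ = ∑ i ∈ Ico m D, pr A v k * |if bit (v k) i then β i (v k) else 0| := by rw [mul_sum]
    _ ≤ ∑ i ∈ Ico m D, (if pr A v k * |β i (v k)| ≤ θ then pr A v k * |β i (v k)| else 0) := by
        refine sum_le_sum fun i hi => ?_
        rw [if_pos (h i (mem_Ico.mp hi).1)]
        split_ifs
        · exact le_rfl
        · simp; positivity
    _ ≤ ∑ i ∈ range D, (if pr A v k * |β i (v k)| ≤ θ then pr A v k * |β i (v k)| else 0) := by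
        refine sum_le_sum_of_subset_of_nonneg ?_ ?_
        · intro i hi
          exact mem_range.mpr (mem_Ico.mp hi).2
        · intro i _ _
          split_ifs <;> positivity

lemma letter_bound (P : Params D A B β C δ e0 K q lam n D') {θ : ℝ} (hθ : 0 < θ)
    {d : Fin J → ℕ} {u : Fin J → Fin D → Bool} (V : Valid A β θ d u)
    (v : Fin J → Fin D → Bool) (hv : ∀ k, trunc (v k) (d k) = trunc (u k) (d k)) (k : Fin J) :
    |pr A v k * (B (v k) - B (base d u k)) - (if bit (v k) (d k) then coef A β q θ d u k else 0)|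
      ≤ tailAt A β v (2 * q * θ) k + 12 * C / q * e0 * tailAt A β v (4 * θ) k := by
  have hApos : ∀ w, 0 < A w := fun w => (P.hA w).1
  have hq := P.q_pos
  have hC := P.hC
  have he := P.he0
  have ht4 := tailAt_nonneg (β := β) hApos v (4 * θ) k
  have hp := pr_pos hApos v k
  by_cases hE : Expl A β q θ d u k
  · have hdk := hE.lt P hθ
    have hsplit : B (v k) - B (base d u k) = (if bit (v k) (d k) then β (d k) (v k) else 0) +
        ∑ i ∈ Ico (d k + 1) D, (if bit (v k) i then β i (v k) else 0) := by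
      rw [base, ← hv k, P.tree.B_eq hdk.le, sum_eq_sum_Ico_succ_bot hdk]
    have hcoef : coef A β q θ d u k = pr A (base d u) k * β (d k) (v k) := by
      rw [coef, if_pos hE, P.tree.congr _ _ _ (hv k)]
    rw [hsplit, hcoef, mul_add]
    have h1 := sum_Ico_le_tailAt (β := β) hApos v (θ := 2 * q * θ) k (d k + 1)
      (fun i hi => deep_le P hθ V v hv k hi)
    have h2 := single_le_tailAt (β := β) hApos v (θ := 4 * θ) k hdk
      ((split_le P hθ V v hv k).trans (by linarith))
    have h3 : |pr A v k * (if bit (v k) (d k) then β (d k) (v k) else 0) -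
        (if bit (v k) (d k) then pr A (base d u) k * β (d k) (v k) else 0)| ≤
        12 * C / q * e0 * tailAt A β v (4 * θ) k := by
      by_cases hb : bit (v k) (d k) = true
      · rw [if_pos hb, if_pos hb, ← sub_mul, abs_mul]
        have h4 := pr_close P hθ V v hv k k.2.le
        have h5 := (hE.close P hθ V v hv).2.2
        calc |pr A v k - pr A (base d u) k| * |β (d k) (v k)|
            ≤ 6 * C * θ * |β (d k) (v k)| := by gcongr
          _ ≤ (12 * C / q * e0 * pr A v k) * |β (d k) (v k)| := by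
              refine mul_le_mul_of_nonneg_right ?_ (abs_nonneg _)
              rw [div_mul_eq_mul_div, div_mul_eq_mul_div, le_div_iff₀ hq]
              exact h5
          _ = 12 * C / q * e0 * (pr A v k * |β (d k) (v k)|) := by ring
          _ ≤ 12 * C / q * e0 * tailAt A β v (4 * θ) k := by gcongr
      · rw [if_neg hb, if_neg hb]
        simp
        positivity
    calc |pr A v k * (if bit (v k) (d k) then β (d k) (v k) else 0) +
          pr A v k * ∑ i ∈ Ico (d k + 1) D, (if bit (v k) i then β i (v k) else 0) -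
          (if bit (v k) (d k) then pr A (base d u) k * β (d k) (v k) else 0)|
        = |pr A v k * ∑ i ∈ Ico (d k + 1) D, (if bit (v k) i then β i (v k) else 0) +
          (pr A v k * (if bit (v k) (d k) then β (d k) (v k) else 0) -
          (if bit (v k) (d k) then pr A (base d u) k * β (d k) (v k) else 0))| := by ring_nf
      _ ≤ _ := (abs_add_le _ _).trans (add_le_add h1 h3)
  · have hcoef : coef A β q θ d u k = 0 := by rw [coef, if_neg hE]
    rw [hcoef]
    simp only [ite_self, sub_zero]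
    have h0 : 0 ≤ 12 * C / q * e0 * tailAt A β v (4 * θ) k := by positivity
    have h1 : |pr A v k * (B (v k) - B (base d u k))| ≤ tailAt A β v (2 * q * θ) k := by
      by_cases hdk : d k ≤ D
      · rw [base, ← hv k, P.tree.B_eq hdk]
        refine sum_Ico_le_tailAt (β := β) hApos v k (d k) (fun i hi => ?_)
        calc pr A v k * |β i (v k)| ≤ pr A v k * |β (d k) (v k)| :=
              mul_le_mul_of_nonneg_left
                (P.tree.le' P.hδ0 (P.δ_le.trans (by norm_num)) hi (v k)) hp.le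
          _ ≤ 2 * q * θ := not_Expl P hθ V v hv hE
      · rw [base, ← hv k, trunc_of_ge _ (not_le.mp hdk).le]
        simp
        exact tailAt_nonneg hApos v _ k
    linarith

/-- the decomposition of the coded point -/
lemma decomp (P : Params D A B β C δ e0 K q lam n D') {θ : ℝ} (hθ : 0 < θ)
    {d : Fin J → ℕ} {u : Fin J → Fin D → Bool} (V : Valid A β θ d u)
    (v : Fin J → Fin D → Bool) (hv : ∀ k, trunc (v k) (d k) = trunc (u k) (d k))
    (ht1 : tail A β v (2 * q * θ) ≤ K * q * θ) (ht2 : tail A β v (4 * θ) ≤ K * θ) :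
    |pt A B v - (pt A B (base d u) +
      ∑ k, (if bit (v k) (d k) then coef A β q θ d u k else 0))| ≤ (K + 1) * q * θ := by
  have hApos : ∀ w, 0 < A w := fun w => (P.hA w).1
  have hq := P.q_pos
  have hC := P.hC
  have he := P.he0
  obtain ⟨-, X, hX, hsum⟩ := telescope A B e0 P.hA P.hB J v (base d u)
  have e1 : pt A B v - (pt A B (base d u) +
      ∑ k, (if bit (v k) (d k) then coef A β q θ d u k else 0)) =
      ∑ k : Fin J, (pr A v k * ((A (v k) - A (base d u k)) * X k) +
        (pr A v k * (B (v k) - B (base d u k)) -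
          (if bit (v k) (d k) then coef A β q θ d u k else 0))) := by
    rw [sum_add_distrib, sum_sub_distrib, ← sub_sub, hsum]
    simp only [mul_add, sum_add_distrib]
    ring
  rw [e1]
  have e2 : ∀ k : Fin J, |pr A v k * ((A (v k) - A (base d u k)) * X k) +
        (pr A v k * (B (v k) - B (base d u k)) -
          (if bit (v k) (d k) then coef A β q θ d u k else 0))| ≤
      tailAt A β v (2 * q * θ) k + (8 * C + 12 * C / q) * e0 * tailAt A β v (4 * θ) k := by
    intro k
    have h1 := letter_bound P hθ V v hv k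
    have h2 : |pr A v k * ((A (v k) - A (base d u k)) * X k)| ≤
        8 * C * e0 * tailAt A β v (4 * θ) k := by
      have hp := pr_pos hApos v k
      rw [abs_mul, abs_mul, abs_of_pos hp]
      have hA' := P.tree.A_le P.hC P.hδ0 P.δ_le (d k) (v k)
      rw [hv k] at hA'
      have h3 : pr A v k * |β (d k) (v k)| ≤ tailAt A β v (4 * θ) k := by
        by_cases hdk : d k < D
        · exact single_le_tailAt (β := β) hApos v (θ := 4 * θ) k hdk
            ((split_le P hθ V v hv k).trans (by linarith))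
        · rw [P.tree.zero_of_ge _ _ (not_lt.mp hdk)]
          simp
          exact tailAt_nonneg hApos v _ k
      calc pr A v k * (|A (v k) - A (base d u k)| * |X k|)
          ≤ pr A v k * ((2 * C * |β (d k) (v k)|) * (4 * e0)) := by
            gcongr
            · exact hA'
            · exact hX k
        _ = 8 * C * e0 * (pr A v k * |β (d k) (v k)|) := by ring
        _ ≤ _ := by gcongr
    calc _ ≤ _ := abs_add_le _ _
      _ ≤ _ := add_le_add h2 h1
      _ = _ := by ring
  calc _ ≤ _ := abs_sum_le_sum_abs _ _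
    _ ≤ ∑ k : Fin J, (tailAt A β v (2 * q * θ) k +
          (8 * C + 12 * C / q) * e0 * tailAt A β v (4 * θ) k) := sum_le_sum fun k _ => e2 k
    _ = tail A β v (2 * q * θ) + (8 * C + 12 * C / q) * e0 * tail A β v (4 * θ) := by
        rw [sum_add_distrib, ← mul_sum]
        rfl
    _ ≤ K * q * θ + (8 * C + 12 * C / q) * e0 * (K * θ) := by gcongr
    _ = K * q * θ + ((8 * C + 12 * C / q) * e0 * K) * θ := by ring
    _ ≤ K * q * θ + q * θ := by gcongr; exact P.h2
    _ = (K + 1) * q * θ := by ring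

/-- good words at scale `θ` -/
def Good (A : (Fin D → Bool) → ℝ) (β : ℕ → (Fin D → Bool) → ℝ) (K q lam : ℝ) (n D' : ℕ)
    (θ : ℝ) (v : Fin J → Fin D → Bool) : Prop :=
  (∀ j : ℕ, 1 ≤ j → j ≤ n - 3 →
    D' ≤ hits A β v (lam ^ 2 * (θ * lam ^ j)) (θ * lam ^ j)) ∧
  tail A β v (2 * q * θ) ≤ K * q * θ ∧ tail A β v (4 * θ) ≤ K * θ

lemma rich (P : Params D A B β C δ e0 K q lam n D') {θ : ℝ} (hθ : 0 < θ)
    {d : Fin J → ℕ} {u : Fin J → Fin D → Bool} (V : Valid A β θ d u)
    (v : Fin J → Fin D → Bool) (hv : ∀ k, trunc (v k) (d k) = trunc (u k) (d k))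
    (j : ℕ) (hj1 : 1 ≤ j) (hj2 : j ≤ n - 3)
    (hh : D' ≤ hits A β v (lam ^ 2 * (θ * lam ^ j)) (θ * lam ^ j)) :
    D' ≤ (univ.filter fun k : Fin J =>
      lam ^ 2 * (θ * lam ^ j) / 2 < |coef A β q θ d u k| ∧
        |coef A β q θ d u k| ≤ 2 * (θ * lam ^ j)).card := by
  refine hh.trans ?_
  unfold hits
  apply card_le_card
  intro k hk
  simp only [mem_filter, mem_univ, true_and] at hk ⊢
  obtain ⟨i, hiD, h1, h2⟩ := hk
  have hlam := P.hlam
  have hlam1 := P.hlam1
  have hq := P.q_pos
  have hp0 : 0 < pr A (base d u) k := pr_pos (fun w => (P.hA w).1) _ _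
  have hn := P.hn
  have hsmall : 2 * q * θ < lam ^ 2 * (θ * lam ^ j) := by
    have e1 : lam ^ (n - 1) ≤ lam ^ 2 * lam ^ j := by
      rw [← pow_add]
      exact pow_le_pow_of_le_one hlam.le (hlam1.trans (by norm_num)) (by omega)
    have e2 : q = lam * lam ^ (n - 1) := by
      rw [P.hq, ← pow_succ']
      congr 1
      omega
    have e3 : 0 < lam ^ (n - 1) := pow_pos hlam _
    calc 2 * q * θ = (2 * lam) * (lam ^ (n - 1) * θ) := by rw [e2]; ring
      _ < 1 * (lam ^ (n - 1) * θ) := by
          apply mul_lt_mul_of_pos_right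
          · linarith
          · positivity
      _ ≤ 1 * ((lam ^ 2 * lam ^ j) * θ) := by gcongr
      _ = lam ^ 2 * (θ * lam ^ j) := by ring
  have hge : ¬ i < d k := by
    intro hi
    have := V.v2 v hv k i hi
    have e1 : θ * lam ^ j ≤ θ * (1 / 16) := by
      gcongr
      calc lam ^ j ≤ lam ^ 1 := pow_le_pow_of_le_one hlam.le (hlam1.trans (by norm_num)) hj1
        _ ≤ 1 / 16 := by simpa using hlam1
    linarith
  have hle : ¬ d k < i := by
    intro hi
    have := deep_le P hθ V v hv k hi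
    linarith
  have hi : i = d k := by omega
  subst hi
  have hE : Expl A β q θ d u k := by
    by_contra hE
    have := not_Expl P hθ V v hv hE
    linarith
  have hcoef : |coef A β q θ d u k| = pr A (base d u) k * |β (d k) (v k)| := by
    rw [coef, if_pos hE, P.tree.congr _ _ _ (hv k), abs_mul, abs_of_pos hp0]
  obtain ⟨c1, c2, -⟩ := hE.close P hθ V v hv
  have hb : 0 ≤ |β (d k) (v k)| := abs_nonneg _
  rw [hcoef]
  have h3 := mul_le_mul_of_nonneg_right c1 hb
  have h4 := mul_le_mul_of_nonneg_right c2 hb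
  constructor
  · linarith
  · linarith

open Classical in
/-- next depths -/
noncomputable def dnext (A : (Fin D → Bool) → ℝ) (β : ℕ → (Fin D → Bool) → ℝ) (q θ : ℝ)
    (d : Fin J → ℕ) (u : Fin J → Fin D → Bool) : Fin J → ℕ :=
  fun k => if Expl A β q θ d u k then d k + 1 else d k

/-- next bits -/
def unext (d : Fin J → ℕ) (u : Fin J → Fin D → Bool) (e : Fin J → Bool) :
    Fin J → Fin D → Bool :=
  fun k i => if (i : ℕ) = d k then e k else u k i

lemma trunc_unext (d : Fin J → ℕ) (u : Fin J → Fin D → Bool) (e : Fin J → Bool) (k : Fin J) :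
    trunc (unext d u e k) (d k) = trunc (u k) (d k) := by
  funext i
  simp only [trunc, unext]
  split_ifs with h1 h2
  · omega
  · rfl
  · rfl

lemma le_dnext (A : (Fin D → Bool) → ℝ) (β : ℕ → (Fin D → Bool) → ℝ) (q θ : ℝ)
    (d : Fin J → ℕ) (u : Fin J → Fin D → Bool) (k : Fin J) : d k ≤ dnext A β q θ d u k := by
  unfold dnext
  split_ifs <;> omega

lemma trunc_of_dnext (q θ : ℝ) (d : Fin J → ℕ) (u : Fin J → Fin D → Bool) (e : Fin J → Bool)
    (v : Fin J → Fin D → Bool)
    (hv : ∀ k, trunc (v k) (dnext A β q θ d u k) =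
      trunc (unext d u e k) (dnext A β q θ d u k)) (k : Fin J) :
    trunc (v k) (d k) = trunc (u k) (d k) := by
  rw [← trunc_unext d u e k, ← trunc_trunc (v k) (d k) _ (le_dnext A β q θ d u k),
    ← trunc_trunc (unext d u e k) (d k) _ (le_dnext A β q θ d u k), hv k]

lemma valid_next (P : Params D A B β C δ e0 K q lam n D') {θ : ℝ} (hθ : 0 < θ)
    {d : Fin J → ℕ} {u : Fin J → Fin D → Bool} (V : Valid A β θ d u) (e : Fin J → Bool) :
    Valid A β (θ * q) (dnext A β q θ d u) (unext d u e) := by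
  have hq := P.q_pos
  have hq' := P.q_le'
  constructor
  · intro k
    set v := base (dnext A β q θ d u) (unext d u e) with hvdef
    have hv1 : ∀ k, trunc (v k) (dnext A β q θ d u k) =
        trunc (unext d u e k) (dnext A β q θ d u k) := by
      intro k
      rw [hvdef, base, trunc_trunc _ _ _ le_rfl]
    have hv := trunc_of_dnext (A := A) (β := β) q θ d u e v hv1
    rw [← P.tree.congr _ _ _ (hv1 k)]
    by_cases hE : Expl A β q θ d u k
    · have : d k < dnext A β q θ d u k := by rw [dnext, if_pos hE]; omega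
      refine (deep_le P hθ V v hv k this).trans (by linarith)
    · have : dnext A β q θ d u k = d k := by rw [dnext, if_neg hE]
      rw [this]
      exact (not_Expl P hθ V v hv hE).trans (by linarith)
  · intro v hv1 k i hi
    have hv := trunc_of_dnext (A := A) (β := β) q θ d u e v hv1
    by_cases hik : i < d k
    · refine le_trans ?_ (V.v2 v hv k i hik)
      nlinarith
    · have hE : Expl A β q θ d u k := by
        by_contra hE
        rw [dnext, if_neg hE] at hi
        exact hik hi
      have : i = d k := by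
        rw [dnext, if_pos hE] at hi
        omega
      subst this
      obtain ⟨c1, -, -⟩ := hE.close P hθ V v hv
      unfold Expl at hE
      rw [← P.tree.congr _ _ _ (hv k)] at hE
      have h3 := mul_le_mul_of_nonneg_right c1 (abs_nonneg (β (d k) (v k)))
      linarith

/-- exchanging the window bits with fresh bits -/
lemma swap_sum (A : (Fin D → Bool) → ℝ) (β : ℕ → (Fin D → Bool) → ℝ) (q θ : ℝ)
    (d : Fin J → ℕ) (u : Fin J → Fin D → Bool) (hd : ∀ k, Expl A β q θ d u k → d k < D)
    (F : (Fin J → Fin D → Bool) → ℝ) :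
    ∑ e : Fin J → Bool, ∑ w : Fin J → Fin D → Bool,
      F (ov (dnext A β q θ d u) (unext d u e) w) =
    2 ^ J * ∑ w : Fin J → Fin D → Bool, F (ov d u w) := by
  classical
  let σ : (Fin J → Bool) × (Fin J → Fin D → Bool) → (Fin J → Bool) × (Fin J → Fin D → Bool) :=
    fun p => (fun k => if Expl A β q θ d u k then bit (p.2 k) (d k) else p.1 k,
      fun k i => if Expl A β q θ d u k ∧ (i : ℕ) = d k then p.1 k else p.2 k i)
  have hσ : Function.Involutive σ := by
    rintro ⟨e, w⟩
    simp only [σ]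
    refine Prod.ext ?_ ?_
    · funext k
      simp only
      by_cases hE : Expl A β q θ d u k
      · have := hd k hE
        simp [hE, bit, this]
      · simp [hE]
    · funext k i
      simp only
      by_cases hE : Expl A β q θ d u k
      · have := hd k hE
        by_cases hi : (i : ℕ) = d k
        · simp only [hE, hi, and_self, if_true]
          simp only [bit, this, dif_pos]
          congr 1
          exact Fin.ext hi.symm
        · simp [hE, hi]
      · simp [hE]
  have key : ∀ p : (Fin J → Bool) × (Fin J → Fin D → Bool),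
      ov (dnext A β q θ d u) (unext d u p.1) p.2 = ov d u (σ p).2 := by
    rintro ⟨e, w⟩
    funext k i
    simp only [ov, σ, dnext, unext]
    by_cases hE : Expl A β q θ d u k
    · simp only [hE, if_true, true_and]
      by_cases h1 : (i : ℕ) < d k
      · have h2 : (i : ℕ) < d k + 1 := by omega
        have h3 : (i : ℕ) ≠ d k := by omega
        simp [h1, h2, h3]
      · by_cases h2 : (i : ℕ) = d k
        · simp [h2]
        · have h3 : ¬ (i : ℕ) < d k + 1 := by omega
          simp [h1, h2, h3]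
    · simp only [hE, if_false, false_and]
      by_cases h1 : (i : ℕ) < d k
      · have h3 : (i : ℕ) ≠ d k := by omega
        simp [h1, h3]
      · simp [h1]
  calc ∑ e : Fin J → Bool, ∑ w : Fin J → Fin D → Bool,
      F (ov (dnext A β q θ d u) (unext d u e) w)
      = ∑ p : (Fin J → Bool) × (Fin J → Fin D → Bool),
        F (ov (dnext A β q θ d u) (unext d u p.1) p.2) := by rw [Fintype.sum_prod_type]
    _ = ∑ p : (Fin J → Bool) × (Fin J → Fin D → Bool), F (ov d u (σ p).2) := by
        simp only [key]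
    _ = ∑ p : (Fin J → Bool) × (Fin J → Fin D → Bool), F (ov d u p.2) := by
        exact Equiv.sum_comp hσ.toPerm (fun p => F (ov d u p.2))
    _ = 2 ^ J * ∑ w : Fin J → Fin D → Bool, F (ov d u w) := by
        rw [Fintype.sum_prod_type]
        simp

end Pool.Agent.Helper193
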