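import Mathlib

set_option autoImplicit false

/-!
Basic definitions: binary trees of affine maps and words over the leaves.
-/

namespace Pool.Agent.Helper193

open Finset

/-- bits of a leaf, indexed by naturals (false beyond `D`) -/
def bit {D : ℕ} (w : Fin D → Bool) (i : ℕ) : Bool := if h : i < D then w ⟨i, h⟩ else false

/-- keep the first `d` bits, put `false` afterwards -/
def trunc {D : ℕ} (w : Fin D → Bool) (d : ℕ) : Fin D → Bool :=
  fun i => if (i : ℕ) < d then w i else false

/-- a binary tree of affine maps `x ↦ A w * x + B w`, `w` running over the leaves; `β i w` is the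
displacement of the split at depth `i` along the branch of `w` -/
structure IsTree {D : ℕ} (A B : (Fin D → Bool) → ℝ) (β : ℕ → (Fin D → Bool) → ℝ)
    (C δ : ℝ) : Prop where
  zero_of_ge : ∀ i w, D ≤ i → β i w = 0
  ne_zero : ∀ i w, i < D → β i w ≠ 0
  congr : ∀ i w w', trunc w i = trunc w' i → β i w = β i w'
  decay : ∀ i w, |β (i + 1) w| ≤ δ * |β i w|
  stepB : ∀ i w, B (trunc w (i + 1)) - B (trunc w i) = if bit w i then β i w else 0
  stepA : ∀ i w, |A (trunc w (i + 1)) - A (trunc w i)| ≤ C * |β i w|

/-- the product of the first `k` ratios along a word -/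
noncomputable def pr {D J : ℕ} (A : (Fin D → Bool) → ℝ) (w : Fin J → Fin D → Bool) (k : ℕ) : ℝ :=
  ∏ i ∈ univ.filter (fun i : Fin J => (i : ℕ) < k), A (w i)

/-- number of letters having a split at scale in `(lo, hi]` -/
noncomputable def hits {D J : ℕ} (A : (Fin D → Bool) → ℝ) (β : ℕ → (Fin D → Bool) → ℝ)
    (w : Fin J → Fin D → Bool) (lo hi : ℝ) : ℕ :=
  by classical exact (univ.filter fun k : Fin J => ∃ i < D, lo < pr A w k * |β i (w k)| ∧
    pr A w k * |β i (w k)| ≤ hi).card

/-- total size of the splits at scale at most `θ` -/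
noncomputable def tail {D J : ℕ} (A : (Fin D → Bool) → ℝ) (β : ℕ → (Fin D → Bool) → ℝ)
    (w : Fin J → Fin D → Bool) (θ : ℝ) : ℝ :=
  ∑ k : Fin J, ∑ i ∈ range D,
    if pr A w k * |β i (w k)| ≤ θ then pr A w k * |β i (w k)| else 0

/-- the point coded by a word -/
noncomputable def pt {D J : ℕ} (A B : (Fin D → Bool) → ℝ) (w : Fin J → Fin D → Bool) : ℝ :=
  ∑ k : Fin J, pr A w k * B (w k)

end Pool.Agent.Helper193
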