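import Mathlib

set_option autoImplicit false

namespace Pool.Agent.Helper193

/-- composition of the first `n` affine maps along the code `t` -/
def sepF {M : ℕ} (p q : Fin M → ℝ) (t : ℕ → Fin M) : ℕ → ℝ → ℝ
  | 0 => fun x => x
  | n + 1 => fun x => sepF p q t n (p (t n) * x + q (t n))

theorem sepF_sub {M : ℕ} (p q : Fin M → ℝ) (t : ℕ → Fin M) (n : ℕ) (x y : ℝ) :
    sepF p q t n x - sepF p q t n y = (∏ i ∈ Finset.range n, p (t i)) * (x - y) := by
  induction n generalizing x y with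
  | zero => simp [sepF]
  | succ n ih =>
    simp only [sepF]
    rw [ih, Finset.prod_range_succ]
    ring

theorem sepF_congr {M : ℕ} (p q : Fin M → ℝ) (t t' : ℕ → Fin M) (n : ℕ)
    (h : ∀ i < n, t i = t' i) (x : ℝ) : sepF p q t n x = sepF p q t' n x := by
  induction n generalizing x with
  | zero => simp [sepF]
  | succ n ih =>
    simp only [sepF]
    rw [ih (fun i hi => h i (by omega)), h n (by omega)]

theorem sepF_continuous {M : ℕ} (p q : Fin M → ℝ) (t : ℕ → Fin M) (n : ℕ) :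
    Continuous (sepF p q t n) := by
  induction n with
  | zero => exact continuous_id
  | succ n ih =>
    have : sepF p q t (n + 1) = (sepF p q t n) ∘ (fun x => p (t n) * x + q (t n)) := rfl
    rw [this]
    exact ih.comp (by fun_prop)

theorem sepF_exists {M : ℕ} (X : Set ℝ) (hX : IsCompact X) (hne : X.Nonempty)
    (p q : Fin M → ℝ) (hmaps : ∀ i, ∀ x ∈ X, p i * x + q i ∈ X) (t : ℕ → Fin M) :
    ∃ x : ℝ, ∀ n, x ∈ sepF p q t n '' X := by
  have h := IsCompact.nonempty_iInter_of_sequence_nonempty_isCompact_isClosed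
    (fun n => sepF p q t n '' X) ?_ ?_ ?_ ?_
  · obtain ⟨x, hx⟩ := h
    exact ⟨x, fun n => Set.mem_iInter.1 hx n⟩
  · intro n
    rintro _ ⟨x, hx, rfl⟩
    exact ⟨p (t n) * x + q (t n), hmaps _ x hx, rfl⟩
  · intro n
    exact hne.image _
  · exact hX.image (sepF_continuous p q t 0)
  · intro n
    exact (hX.image (sepF_continuous p q t n)).isClosed

theorem sepF_sep {M : ℕ} (X : Set ℝ) 
    (p q : Fin M → ℝ) (pmin : ℝ) (h0 : 0 < pmin)
    (hp : ∀ i, pmin ≤ p i ∧ p i < 1)
    (δ : ℝ) (hδ : 0 < δ)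
    (hsep : ∀ i j, i ≠ j → ∀ x ∈ X, ∀ y ∈ X, δ ≤ |(p i * x + q i) - (p j * y + q j)|)
    (t t' : ℕ → Fin M) (n : ℕ) (h : ∀ i < n, t i = t' i) (hn : t n ≠ t' n) (x x' : ℝ)
    (hx : ∀ n, x ∈ sepF p q t n '' X) (hx' : ∀ n, x' ∈ sepF p q t' n '' X) :
    pmin ^ n * δ ≤ |x - x'| := by
  obtain ⟨y, hy, rfl⟩ := hx (n + 1)
  obtain ⟨y', hy', rfl⟩ := hx' (n + 1)
  simp only [sepF]
  rw [← sepF_congr p q t t' n h, sepF_sub, abs_mul]
  have h1 : pmin ^ n ≤ ∏ i ∈ Finset.range n, p (t i) := by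
    calc pmin ^ n = ∏ i ∈ Finset.range n, pmin := by simp
      _ ≤ _ := Finset.prod_le_prod (fun _ _ => h0.le) (fun i _ => (hp _).1)
  have h2 : pmin ^ n ≤ |∏ i ∈ Finset.range n, p (t i)| := h1.trans (le_abs_self _)
  exact mul_le_mul h2 (hsep _ _ hn y hy y' hy') hδ.le (abs_nonneg _)

theorem dimH_ge_of_separated (X : Set ℝ) (hX : IsCompact X) (hne : X.Nonempty) (M : ℕ)
    (hM : 2 ≤ M) (p q : Fin M → ℝ) (pmin : ℝ) (h0 : 0 < pmin) (h1 : pmin < 1)
    (hp : ∀ i, pmin ≤ p i ∧ p i < 1) (hmaps : ∀ i, ∀ x ∈ X, p i * x + q i ∈ X)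
    (δ : ℝ) (hδ : 0 < δ)
    (hsep : ∀ i j, i ≠ j → ∀ x ∈ X, ∀ y ∈ X, δ ≤ |(p i * x + q i) - (p j * y + q j)|) :
    ENNReal.ofReal (Real.log M / Real.log (1 / pmin)) ≤ dimH X := by
  classical
  have hMR : (2 : ℝ) ≤ M := by exact_mod_cast hM
  choose pt hpt using sepF_exists X hX hne p q hmaps
  have hptX : ∀ t, pt t ∈ X := by
    intro t
    obtain ⟨y, hy, h⟩ := hpt t 0
    have : y = pt t := h
    rwa [← this]
  -- separation
  have hsepn : ∀ t t' : ℕ → Fin M, t ≠ t' → ∃ n, (∀ i < n, t i = t' i) ∧ 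
      pmin ^ n * δ ≤ |pt t - pt t'| := by
    intro t t' htt
    have hex : ∃ n, t n ≠ t' n := by
      by_contra hcon
      push Not at hcon
      exact htt (funext hcon)
    refine ⟨Nat.find hex, fun i hi => by
      have := Nat.find_min hex hi
      push Not at this
      exact this, ?_⟩
    exact sepF_sep X p q pmin h0 hp δ hδ hsep t t' _ (fun i hi => by
      have := Nat.find_min hex hi
      push Not at this
      exact this) (Nat.find_spec hex) _ _ (hpt t) (hpt t')
  have hinj : Function.Injective pt := by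
    intro t t' h
    by_contra hne'
    obtain ⟨n, -, hn⟩ := hsepn t t' hne'
    rw [h, sub_self, abs_zero] at hn
    have : 0 < pmin ^ n * δ := by positivity
    linarith
  let s : ℝ := Real.log M / Real.log (1 / pmin)
  have hlog1 : 0 < Real.log (1 / pmin) := Real.log_pos (by rw [lt_div_iff₀ h0]; linarith)
  have hlogM : 0 < Real.log M := Real.log_pos (by linarith)
  have hs : 0 < s := div_pos hlogM hlog1
  have hpow : pmin ^ s = (M : ℝ)⁻¹ := by
    rw [Real.rpow_def_of_pos h0]
    have : Real.log pmin * s = - Real.log M := by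
      have h3 : Real.log (1 / pmin) = - Real.log pmin := by
        rw [one_div, Real.log_inv]
      simp only [s]
      rw [h3] at hlog1 ⊢
      have : Real.log pmin ≠ 0 := by intro h; rw [h] at hlog1; simp at hlog1
      field_simp
    rw [this, Real.exp_neg, Real.exp_log (by linarith)]
  -- the map
  let h : ℝ → ℝ := fun x => if hx : ∃ t, pt t = x then Real.ofDigits hx.choose else 0
  have hh : ∀ t, h (pt t) = Real.ofDigits t := by
    intro t
    have hex : ∃ t', pt t' = pt t := ⟨t, rfl⟩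
    simp only [h, dif_pos hex]
    rw [hinj hex.choose_spec]
  have hest : ∀ t t', |h (pt t) - h (pt t')| ≤ (1 / δ) ^ s * |pt t - pt t'| ^ s := by
    intro t t'
    by_cases htt : t = t'
    · subst htt
      simp only [sub_self, abs_zero]
      positivity
    · obtain ⟨n, hn, hn'⟩ := hsepn t t' htt
      rw [hh, hh]
      calc |Real.ofDigits t - Real.ofDigits t'| ≤ ((M : ℝ) ^ n)⁻¹ :=
            Real.abs_ofDigits_sub_ofDigits_le hn
        _ = (pmin ^ n) ^ s := by
            rw [← Real.rpow_natCast pmin n, ← Real.rpow_mul h0.le, mul_comm, Real.rpow_mul h0.le,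
              hpow, Real.rpow_natCast, inv_pow]
        _ ≤ ((1 / δ) * |pt t - pt t'|) ^ s := by
            apply Real.rpow_le_rpow (by positivity) _ hs.le
            rw [one_div, ← div_eq_inv_mul, le_div_iff₀ hδ]
            exact hn'
        _ = _ := Real.mul_rpow (by positivity) (abs_nonneg _)
  set C : NNReal := Real.toNNReal ((1 / δ) ^ s) with hC
  set r : NNReal := Real.toNNReal s with hr
  have hrpos : 0 < r := Real.toNNReal_pos.2 hs
  have hrs : (r : ℝ) = s := Real.coe_toNNReal _ hs.le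
  have hCs : (C : ℝ) = (1 / δ) ^ s := Real.coe_toNNReal _ (by positivity)
  have hholder : HolderOnWith C r h (Set.range pt) := by
    rintro _ ⟨t, rfl⟩ _ ⟨t', rfl⟩
    rw [edist_dist, edist_dist, Real.dist_eq, Real.dist_eq]
    rw [ENNReal.ofReal_rpow_of_nonneg (abs_nonneg _) (by positivity)]
    rw [← ENNReal.ofReal_coe_nnreal, ← ENNReal.ofReal_mul (by positivity), hCs, hrs]
    exact ENNReal.ofReal_le_ofReal (hest t t')
  have himg : Set.Icc (0 : ℝ) 1 ⊆ h '' (Set.range pt) := by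
    intro y hy
    obtain ⟨t, -, ht⟩ := Real.ofDigits_SurjOn (b := M) (by omega) hy
    exact ⟨pt t, ⟨t, rfl⟩, by rw [hh, ht]⟩
  have hdim1 : dimH (Set.Icc (0 : ℝ) 1) = 1 := by
    have := Real.dimH_of_nonempty_interior (E := ℝ) (s := Set.Icc (0 : ℝ) 1)
      (by rw [interior_Icc]; exact ⟨1 / 2, by norm_num, by norm_num⟩)
    rw [this]
    simp
  have h2 : (1 : ENNReal) ≤ dimH (Set.range pt) / r := by
    calc (1 : ENNReal) = dimH (Set.Icc (0 : ℝ) 1) := hdim1.symm
      _ ≤ dimH (h '' (Set.range pt)) := dimH_mono himg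
      _ ≤ _ := hholder.dimH_image_le hrpos
  have h3 : (r : ENNReal) ≤ dimH (Set.range pt) := by
    rw [ENNReal.le_div_iff_mul_le (Or.inl (by exact_mod_cast hrpos.ne')) (Or.inl (by simp))] at h2
    simpa using h2
  have h4 : dimH (Set.range pt) ≤ dimH X := dimH_mono (by rintro _ ⟨t, rfl⟩; exact hptX t)
  exact h3.trans h4

end Pool.Agent.Helper193
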