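import Mathlib

set_option autoImplicit false

namespace Pool.Agent.Helper193

/-- black box, proved elsewhere -/
def CoreStatement : Prop :=
  ∀ (X : Set ℝ), IsCompact X → (0 : ℝ) ∈ X → ∀ (G : Set (ℝ × ℝ)),
    (∀ p ∈ G, ∀ x ∈ X, p.1 * x + p.2 ∈ X) →
    ∀ a C : ℝ, 0 < a → a ≤ 1 / 16 → 0 < C → (a, (0 : ℝ)) ∈ G →
    (∀ p ∈ G, ∀ ε > (0 : ℝ), ∃ p' ∈ G, 0 < |p'.2 - p.2| ∧ |p'.2 - p.2| < ε ∧
      |p'.1 - p.1| ≤ C * |p'.2 - p.2|) →
    dimH X = 1

/-- the separation relation seen from the point `y` -/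
def Rsep (c y : ℝ) (p p' : ℝ × ℝ) : Prop :=
  c * (|p'.1 - p.1| + |p'.2 - p.2|) < |(p'.1 - p.1) * y + (p'.2 - p.2)|

lemma rsep_open (c y : ℝ) (p : ℝ × ℝ) : IsOpen {p' | Rsep c y p p'} := by
  unfold Rsep
  apply isOpen_lt <;> fun_prop

lemma sep_const (y0 y1 : ℝ) (h : y0 ≠ y1) : ∃ c : ℝ, 0 < c ∧ ∀ p p' : ℝ × ℝ, p ≠ p' →
    Rsep c y0 p p' ∨ Rsep c y1 p p' := by
  have hd : 0 < |y1 - y0| := abs_pos.2 (sub_ne_zero.2 h.symm)
  set K : ℝ := 1 + (1 + |y0|) / |y1 - y0| with hK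
  have hKpos : 0 < K := by positivity
  refine ⟨1 / (3 * K), by positivity, fun p p' hpp => ?_⟩
  by_contra hcon
  push Not at hcon
  obtain ⟨h0, h1⟩ := hcon
  unfold Rsep at h0 h1
  push Not at h0 h1
  set da := p'.1 - p.1 with hda
  set db := p'.2 - p.2 with hdb
  set s := |da| + |db| with hs
  have hspos : 0 < s := by
    rcases eq_or_ne da 0 with ha | ha
    · rcases eq_or_ne db 0 with hb | hb
      · exfalso
        apply hpp
        apply Prod.ext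
        · linarith
        · linarith
      · have : 0 < |db| := abs_pos.2 hb
        have : 0 ≤ |da| := abs_nonneg _
        linarith
    · have : 0 < |da| := abs_pos.2 ha
      have : 0 ≤ |db| := abs_nonneg _
      linarith
  have e1 : |da| * |y1 - y0| ≤ 2 * (1 / (3 * K) * s) := by
    rw [← abs_mul]
    have : da * (y1 - y0) = (da * y1 + db) - (da * y0 + db) := by ring
    rw [this]
    have := abs_sub (da * y1 + db) (da * y0 + db)
    linarith
  have e2 : |db| ≤ 1 / (3 * K) * s + |da| * |y0| := by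
    have : db = (da * y0 + db) - da * y0 := by ring
    calc |db| = |(da * y0 + db) - da * y0| := by rw [← this]
      _ ≤ |da * y0 + db| + |da * y0| := abs_sub _ _
      _ ≤ _ := by rw [abs_mul]; linarith
  have e3 : |da| ≤ 2 * (1 / (3 * K) * s) / |y1 - y0| := by
    rw [le_div_iff₀ hd]; exact e1
  have hy0 : 0 ≤ |y0| := abs_nonneg _
  have e4 : s ≤ 2 * K * (1 / (3 * K) * s) := by
    have e5 : |da| * (1 + |y0|) ≤ 2 * (1 / (3 * K) * s) / |y1 - y0| * (1 + |y0|) :=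
      mul_le_mul_of_nonneg_right e3 (by positivity)
    have e6 : 2 * (1 / (3 * K) * s) / |y1 - y0| * (1 + |y0|) =
        2 * (1 / (3 * K) * s) * ((1 + |y0|) / |y1 - y0|) := by ring
    have e7 : 0 < 1 / (3 * K) * s := by positivity
    have e8 : 2 * K * (1 / (3 * K) * s) = 2 * (1 / (3 * K) * s) +
        2 * (1 / (3 * K) * s) * ((1 + |y0|) / |y1 - y0|) := by
      rw [hK]; ring
    rw [e8, ← e6]
    rw [hs] at *
    nlinarith
  have e9 : 2 * K * (1 / (3 * K) * s) = 2 / 3 * s := by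
    field_simp
  rw [e9] at e4
  linarith

/-- compositions sending `X` into itself and hitting a prescribed point -/
lemma exists_comp {Φ : Set (ℝ × ℝ)} {X : Set ℝ} {κ : ℝ}
    (hne : ∀ p ∈ Φ, p.1 ≠ 0) (hκ : ∀ p ∈ Φ, |p.1| ≤ κ)
    (hX : X = ⋃ p ∈ Φ, (fun x : ℝ => p.1 * x + p.2) '' X) (m : ℕ) :
    ∀ y ∈ X, ∃ g : ℝ × ℝ, g.1 ≠ 0 ∧ |g.1| ≤ κ ^ m ∧ (∀ x ∈ X, g.1 * x + g.2 ∈ X) ∧
      ∃ x ∈ X, g.1 * x + g.2 = y := by
  induction m with
  | zero =>
    intro y hy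
    refine ⟨(1, 0), by simp, by simp, ?_, y, hy, by simp⟩
    intro x hx
    simpa using hx
  | succ m ih =>
    intro y hy
    rw [hX] at hy
    simp only [Set.mem_iUnion, Set.mem_image] at hy
    obtain ⟨p, hp, x', hx', rfl⟩ := hy
    obtain ⟨g, h1, h2, h3, x, hx, h4⟩ := ih x' hx'
    have hmap : ∀ z ∈ X, p.1 * z + p.2 ∈ X := by
      intro z hz
      rw [hX]
      simp only [Set.mem_iUnion, Set.mem_image]
      exact ⟨p, hp, z, hz, rfl⟩
    refine ⟨(p.1 * g.1, p.1 * g.2 + p.2), mul_ne_zero (hne p hp) h1, ?_, ?_, x, hx, ?_⟩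
    · simp only
      rw [abs_mul, pow_succ, mul_comm (κ ^ m)]
      exact mul_le_mul (hκ p hp) h2 (abs_nonneg _) ((abs_nonneg _).trans (hκ p hp))
    · intro z hz
      have := hmap _ (h3 z hz)
      convert this using 1
      ring
    · rw [← h4]; ring

lemma choose_H {D : Set (ℝ × ℝ)} (hperf : Perfect D) (hDne : D.Nonempty) {c y0 y1 : ℝ}
    (hc : ∀ p p' : ℝ × ℝ, p ≠ p' → Rsep c y0 p p' ∨ Rsep c y1 p p') :
    ∃ y, (y = y0 ∨ y = y1) ∧ ∃ H ⊆ D, H.Nonempty ∧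
      ∀ p ∈ H, ∀ ε > (0 : ℝ), ∃ p' ∈ H, dist p p' < ε ∧ Rsep c y p p' := by
  set H0 : Set (ℝ × ℝ) := {p | p ∈ D ∧ ∀ ε > (0 : ℝ), ∃ p' ∈ D, dist p p' < ε ∧ Rsep c y0 p p'}
    with hH0
  by_cases hdense : D ⊆ closure H0
  · refine ⟨y0, Or.inl rfl, H0, fun p hp => hp.1, ?_, ?_⟩
    · obtain ⟨p, hp⟩ := hDne
      have := hdense hp
      exact closure_nonempty_iff.1 ⟨p, this⟩
    · intro p hp ε hε
      obtain ⟨p', hp', h1, h2⟩ := hp.2 ε hε
      have hopen : IsOpen ({q : ℝ × ℝ | dist p q < ε} ∩ {q | Rsep c y0 p q}) := by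
        apply IsOpen.inter _ (rsep_open _ _ _)
        exact isOpen_lt (by fun_prop) continuous_const
      have := mem_closure_iff.1 (hdense hp') _ hopen ⟨h1, h2⟩
      obtain ⟨q, ⟨h3, h4⟩, h5⟩ := this
      exact ⟨q, h5, h3, h4⟩
  · rw [Set.not_subset] at hdense
    obtain ⟨ps, hps, hps2⟩ := hdense
    refine ⟨y1, Or.inr rfl, D ∩ (closure H0)ᶜ, Set.inter_subset_left, ⟨ps, hps, hps2⟩, ?_⟩
    intro p hp ε hε
    have h1 : p ∉ H0 := fun h => hp.2 (subset_closure h)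
    have h2 : ∃ ε0 > (0 : ℝ), ∀ p' ∈ D, dist p p' < ε0 → ¬ Rsep c y0 p p' := by
      by_contra hcon
      push Not at hcon
      apply h1
      exact ⟨hp.1, fun ε hε => hcon ε hε⟩
    obtain ⟨ε0, hε0, h3⟩ := h2
    have hacc : AccPt p (Filter.principal D) := hperf.acc p hp.1
    have hU : (closure H0)ᶜ ∩ Metric.ball p (min ε ε0) ∈ nhds p := by
      apply Filter.inter_mem
      · exact isClosed_closure.isOpen_compl.mem_nhds hp.2
      · exact Metric.ball_mem_nhds _ (lt_min hε hε0)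
    rw [accPt_iff_nhds] at hacc
    obtain ⟨q, ⟨⟨h4, h5⟩, h6⟩, h7⟩ := hacc _ hU
    rw [Metric.mem_ball, dist_comm] at h5
    refine ⟨q, ⟨h6, h4⟩, lt_of_lt_of_le h5 (min_le_left _ _), ?_⟩
    exact (hc p q h7.symm).resolve_left (h3 q h6 (lt_of_lt_of_le h5 (min_le_right _ _)))

theorem result_of_core (core : CoreStatement) :
    ∀ (Φ : Set (ℝ × ℝ)), IsCompact Φ → ¬ Φ.Countable →
      (∀ p ∈ Φ, p.1 ≠ 0 ∧ |p.1| < 1) →
      ∀ X : Set ℝ, IsCompact X → X.Nonempty →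
        X = ⋃ p ∈ Φ, (fun x : ℝ => p.1 * x + p.2) '' X →
        (∃ x : ℝ, X = {x}) ∨ dimH X = 1 := by
  intro Φ hΦc hΦu hΦ X hXc hXne hX
  by_cases hsing : ∃ x : ℝ, X = {x}
  · exact Or.inl hsing
  right
  obtain ⟨y0, hy0⟩ := hXne
  have h1 : ∃ y1 ∈ X, y0 ≠ y1 := by
    by_contra hcon
    push Not at hcon
    apply hsing
    refine ⟨y0, Set.eq_singleton_iff_unique_mem.2 ⟨hy0, fun x hx => (hcon x hx).symm⟩⟩
  obtain ⟨y1, hy1, hy01⟩ := h1
  obtain ⟨c, hcpos, hc⟩ := sep_const y0 y1 hy01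
  obtain ⟨D, hDperf, hDne, hDΦ⟩ :=
    exists_perfect_nonempty_of_isClosed_of_not_countable hΦc.isClosed hΦu
  obtain ⟨y, hy, H, hHD, hHne, hH⟩ := choose_H hDperf hDne hc
  have hyX : y ∈ X := by
    rcases hy with rfl | rfl
    · exact hy0
    · exact hy1
  -- bound of X
  obtain ⟨R, hR⟩ : ∃ R : ℝ, ∀ x ∈ X, |x| ≤ R := by
    obtain ⟨R, hR⟩ := hXc.isBounded.exists_norm_le
    exact ⟨R, fun x hx => hR x hx⟩
  have hR0 : 0 ≤ R := (abs_nonneg _).trans (hR y0 hy0)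
  -- maximal ratio
  obtain ⟨κ, hκ0, hκ1, hκ⟩ : ∃ κ : ℝ, 0 ≤ κ ∧ κ < 1 ∧ ∀ p ∈ Φ, |p.1| ≤ κ := by
    have hΦne : Φ.Nonempty := hDne.mono hDΦ
    obtain ⟨q, hq, hmax⟩ := hΦc.exists_isMaxOn hΦne
      (f := fun p : ℝ × ℝ => |p.1|) (by fun_prop)
    exact ⟨|q.1|, abs_nonneg _, (hΦ q hq).2, fun p hp => hmax hp⟩
  obtain ⟨m, hm1, hm2⟩ : ∃ m : ℕ, 2 * R * κ ^ m ≤ c / 2 ∧ κ ^ m ≤ 1 / 4 := by
    have h2 : Filter.Tendsto (fun m : ℕ => κ ^ m) Filter.atTop (nhds 0) :=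
      tendsto_pow_atTop_nhds_zero_of_lt_one hκ0 hκ1
    have h3 : Filter.Tendsto (fun m : ℕ => 2 * R * κ ^ m) Filter.atTop (nhds 0) := by
      simpa using h2.const_mul (2 * R)
    have h4 := (h3.eventually (ge_mem_nhds (show (0 : ℝ) < c / 2 by positivity))).and
      (h2.eventually (ge_mem_nhds (show (0 : ℝ) < 1 / 4 by norm_num)))
    exact h4.exists
  obtain ⟨g, hg0, hgk, hgX, x0, hx0, hgx0⟩ :=
    exists_comp (fun p hp => (hΦ p hp).1) hκ hX m y hyX
  have hgy : ∀ x ∈ X, |g.1 * x + g.2 - y| ≤ c / 2 := by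
    intro x hx
    have e : g.1 * x + g.2 - y = g.1 * (x - x0) := by rw [← hgx0]; ring
    rw [e, abs_mul]
    have h2 : |x - x0| ≤ 2 * R := by
      have := abs_sub x x0
      have := hR x hx
      have := hR x0 hx0
      linarith
    calc |g.1| * |x - x0| ≤ κ ^ m * (2 * R) :=
          mul_le_mul hgk h2 (abs_nonneg _) (pow_nonneg hκ0 _)
      _ ≤ c / 2 := by linarith
  have hmapΦ : ∀ p ∈ Φ, ∀ x ∈ X, p.1 * x + p.2 ∈ X := by
    intro p hp z hz
    rw [hX]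
    simp only [Set.mem_iUnion, Set.mem_image]
    exact ⟨p, hp, z, hz, rfl⟩
  obtain ⟨p0, hp0⟩ := hHne
  have hHΦ : ∀ p ∈ H, p ∈ Φ := fun p hp => hDΦ (hHD hp)
  -- g' = g ∘ p0 ∘ g
  set ga : ℝ := g.1 * p0.1 * g.1 with hga
  set gb : ℝ := g.1 * (p0.1 * g.2 + p0.2) + g.2 with hgb
  have hg' : ∀ x, ga * x + gb = g.1 * (p0.1 * (g.1 * x + g.2) + p0.2) + g.2 := by
    intro x; rw [hga, hgb]; ring
  have hg'X : ∀ x ∈ X, ga * x + gb ∈ X := by
    intro x hx
    rw [hg']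
    exact hgX _ (hmapΦ p0 (hHΦ p0 hp0) _ (hgX x hx))
  have hg'y : ∀ x ∈ X, |ga * x + gb - y| ≤ c / 2 := by
    intro x hx
    rw [hg']
    exact hgy _ (hmapΦ p0 (hHΦ p0 hp0) _ (hgX x hx))
  have hga1 : |ga| ≤ 1 := by
    rw [hga, abs_mul, abs_mul]
    have e1 : |g.1| ≤ 1 := hgk.trans (hm2.trans (by norm_num))
    have e2 : |p0.1| ≤ 1 := (hΦ p0 (hHΦ p0 hp0)).2.le
    have e3 : |g.1| * |p0.1| ≤ 1 := by
      calc |g.1| * |p0.1| ≤ 1 * 1 := mul_le_mul e1 e2 (abs_nonneg _) zero_le_one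
        _ = 1 := one_mul 1
    calc |g.1| * |p0.1| * |g.1| ≤ 1 * 1 := mul_le_mul e3 e1 (abs_nonneg _) zero_le_one
      _ = 1 := one_mul 1
  set a0 : ℝ := p0.1 * ga with ha0
  set b0 : ℝ := p0.1 * gb + p0.2 with hb0
  have ha0sq : a0 = (p0.1 * g.1) ^ 2 := by rw [ha0, hga]; ring
  have ha0pos : 0 < a0 := by
    rw [ha0sq]
    have := mul_ne_zero (hΦ p0 (hHΦ p0 hp0)).1 hg0
    positivity
  have ha0le : a0 ≤ 1 / 16 := by
    rw [ha0sq, ← sq_abs, abs_mul]
    have e1 : |g.1| ≤ 1 / 4 := hgk.trans hm2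
    have e2 : |p0.1| ≤ 1 := (hΦ p0 (hHΦ p0 hp0)).2.le
    have e3 : |p0.1| * |g.1| ≤ 1 * (1 / 4) := mul_le_mul e2 e1 (abs_nonneg _) zero_le_one
    have e4 : 0 ≤ |p0.1| * |g.1| := by positivity
    nlinarith
  -- fixed point
  set z0 : ℝ := b0 / (1 - a0) with hz0
  have h1a : (1 : ℝ) - a0 ≠ 0 := by linarith
  have hfix : a0 * z0 + b0 = z0 := by
    rw [hz0]; field_simp; ring
  have hψX : ∀ p ∈ H, ∀ x ∈ X, (p.1 * ga) * x + (p.1 * gb + p.2) ∈ X := by
    intro p hp x hx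
    have := hmapΦ p (hHΦ p hp) _ (hg'X x hx)
    convert this using 1
    ring
  have hz0X : z0 ∈ X := by
    have hiter : ∀ n : ℕ, z0 + a0 ^ n * (y0 - z0) ∈ X := by
      intro n
      induction n with
      | zero => simpa using hy0
      | succ n ih =>
        have := hψX p0 hp0 _ ih
        convert this using 1
        rw [← ha0, ← hb0, pow_succ]
        linear_combination -hfix
    have hlim : Filter.Tendsto (fun n : ℕ => z0 + a0 ^ n * (y0 - z0)) Filter.atTop (nhds z0) := by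
      have h2 : Filter.Tendsto (fun n : ℕ => a0 ^ n) Filter.atTop (nhds 0) :=
        tendsto_pow_atTop_nhds_zero_of_lt_one ha0pos.le (by linarith)
      simpa using (h2.mul_const (y0 - z0)).const_add z0
    exact hXc.isClosed.mem_of_tendsto hlim (Filter.Eventually.of_forall hiter)
  -- the translated set
  have hiso : Isometry (fun x : ℝ => x - z0) := Isometry.of_dist_eq (fun x y => by simp)
  rw [← hiso.dimH_image]
  refine core ((fun x : ℝ => x - z0) '' X) (hXc.image hiso.continuous) ⟨z0, hz0X, sub_self _⟩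
    ((fun p : ℝ × ℝ => (p.1 * ga, p.1 * ga * z0 + (p.1 * gb + p.2) - z0)) '' H) ?_ a0 (2 / c)
    ha0pos ha0le (by positivity) ?_ ?_
  · rintro _ ⟨p, hp, rfl⟩ _ ⟨x, hx, rfl⟩
    refine ⟨_, hψX p hp x hx, ?_⟩
    simp only
    ring
  · refine ⟨p0, hp0, ?_⟩
    simp only [Prod.mk.injEq]
    refine ⟨rfl, ?_⟩
    linear_combination hfix
  · rintro _ ⟨p, hp, rfl⟩ ε hε
    obtain ⟨p', hp', hd, hR2⟩ := hH p hp (ε / (R + 2)) (by positivity)
    refine ⟨_, ⟨p', hp', rfl⟩, ?_⟩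
    simp only
    set t : ℝ := ga * z0 + gb with ht
    have htX : t ∈ X := hg'X z0 hz0X
    have hdiff : p'.1 * ga * z0 + (p'.1 * gb + p'.2) - z0 - (p.1 * ga * z0 + (p.1 * gb + p.2) - z0)
        = (p'.1 - p.1) * t + (p'.2 - p.2) := by rw [ht]; ring
    rw [hdiff]
    have hdiff2 : p'.1 * ga - p.1 * ga = (p'.1 - p.1) * ga := by ring
    rw [hdiff2]
    unfold Rsep at hR2
    set da := p'.1 - p.1 with hda
    set db := p'.2 - p.2 with hdb
    have e1 : |t - y| ≤ c / 2 := hg'y z0 hz0X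
    have e2 : |da * y + db| ≤ |da * t + db| + |da| * (c / 2) := by
      have : da * y + db = (da * t + db) - da * (t - y) := by ring
      rw [this]
      refine (abs_sub _ _).trans ?_
      rw [abs_mul]
      have := mul_le_mul_of_nonneg_left e1 (abs_nonneg da)
      linarith
    have hda0 : 0 ≤ |da| := abs_nonneg _
    have hdb0 : 0 ≤ |db| := abs_nonneg _
    have e3 : c / 2 * (|da| + |db|) < |da * t + db| := by nlinarith
    have hcb : 0 ≤ c / 2 * (|da| + |db|) := by positivity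
    refine ⟨by linarith, ?_, ?_⟩
    · have f1 : |da| ≤ dist p p' := by
        rw [dist_comm, Prod.dist_eq]
        exact le_max_left _ _
      have f2 : |db| ≤ dist p p' := by
        rw [dist_comm, Prod.dist_eq]
        exact le_max_right _ _
      have f3 : |da * t + db| ≤ |da| * |t| + |db| := by
        refine (abs_add_le _ _).trans ?_
        rw [abs_mul]
      have f4 : |t| ≤ R := hR t htX
      have f5 : |da| * |t| ≤ dist p p' * R := mul_le_mul f1 f4 (abs_nonneg _) dist_nonneg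
      rw [lt_div_iff₀ (by positivity)] at hd
      have hd0 : 0 ≤ dist p p' := dist_nonneg
      have f6 : dist p p' * (R + 2) = dist p p' * R + 2 * dist p p' := by ring
      rw [f6] at hd
      linarith
    · rw [abs_mul]
      have g1 : |da| * |ga| ≤ |da| := by
        calc |da| * |ga| ≤ |da| * 1 := mul_le_mul_of_nonneg_left hga1 hda0
          _ = |da| := mul_one _
      have g0 : 0 ≤ c / 2 * |db| := by positivity
      have g2 : c / 2 * |da| ≤ |da * t + db| := by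
        rw [mul_add] at e3
        linarith
      have g3 : |da| ≤ 2 / c * |da * t + db| := by
        rw [div_mul_eq_mul_div, le_div_iff₀ hcpos]
        linarith
      linarith

end Pool.Agent.Helper193
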