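import Pool.Agent.Helper193.Defs

set_option autoImplicit false

/-!
Existence of finite trees of maps (formalised with the help of seat helper127).
-/

namespace Pool.Agent.Helper193

namespace TreeEx

/-- tail of a word -/
def tl {D : ℕ} (w : Fin (D + 1) → Bool) : Fin D → Bool := fun i => w i.succ

theorem tl_trunc {D : ℕ} (w : Fin (D + 1) → Bool) (i : ℕ) :
    tl (trunc w (i + 1)) = trunc (tl w) i := by
  funext j
  simp only [tl, trunc, Fin.val_succ]
  by_cases h : (j : ℕ) < i
  · rw [if_pos h, if_pos (by omega)]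
  · rw [if_neg h, if_neg (by omega)]

theorem trunc_succ_zero {D : ℕ} (w : Fin (D + 1) → Bool) (i : ℕ) :
    (trunc w (i + 1)) 0 = w 0 := by
  simp only [trunc]
  rw [if_pos]
  simp

theorem trunc_zero {D : ℕ} (w : Fin D → Bool) : trunc w 0 = fun _ => false := by
  funext j
  simp [trunc]

theorem bit_succ {D : ℕ} (w : Fin (D + 1) → Bool) (i : ℕ) : bit w (i + 1) = bit (tl w) i := by
  simp only [bit, tl]
  by_cases h : i < D
  · rw [dif_pos h, dif_pos (by omega)]
    rfl
  · rw [dif_neg h, dif_neg (by omega)]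

theorem bit_zero {D : ℕ} (w : Fin (D + 1) → Bool) : bit w 0 = w 0 := by
  simp only [bit]
  rw [dif_pos (by omega)]
  rfl

theorem exists_tree (G : Set (ℝ × ℝ)) (C : ℝ) (hC : 0 ≤ C)
    (hG : ∀ p ∈ G, ∀ ε > (0 : ℝ), ∃ p' ∈ G, 0 < |p'.2 - p.2| ∧ |p'.2 - p.2| < ε ∧
      |p'.1 - p.1| ≤ C * |p'.2 - p.2|) (δ : ℝ) (hδ : 0 < δ) :
    ∀ (D : ℕ) (p : ℝ × ℝ), p ∈ G → ∀ e : ℝ, 0 < e →
      ∃ (A B : (Fin D → Bool) → ℝ) (β : ℕ → (Fin D → Bool) → ℝ),
        IsTree A B β C δ ∧ (∀ w, (A w, B w) ∈ G) ∧ (A (fun _ => false) = p.1) ∧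
        (B (fun _ => false) = p.2) ∧ ∀ w, |β 0 w| ≤ e := by
  intro D
  induction D with
  | zero =>
    intro p hp e he
    refine ⟨fun _ => p.1, fun _ => p.2, fun _ _ => 0, ⟨?_, ?_, ?_, ?_, ?_, ?_⟩, fun _ => hp, rfl, rfl,
      fun _ => by simpa using he.le⟩
    · intro i w _; rfl
    · intro i w hi; exact absurd hi (Nat.not_lt_zero _)
    · intro i w w' _; rfl
    · intro i w; simp
    · intro i w; simp
    · intro i w; simp
  | succ D ih =>
    intro p hp e he
    obtain ⟨p', hp', hpos, hlt, hA⟩ := hG p hp e he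
    have he' : 0 < δ * |p'.2 - p.2| := mul_pos hδ hpos
    obtain ⟨A0, B0, β0, h0, hG0, hA0, hB0, hβ0⟩ := ih p hp _ he'
    obtain ⟨A1, B1, β1, h1, hG1, hA1, hB1, hβ1⟩ := ih p' hp' _ he'
    refine ⟨fun w => if w 0 then A1 (tl w) else A0 (tl w),
      fun w => if w 0 then B1 (tl w) else B0 (tl w),
      fun i w => match i with
        | 0 => p'.2 - p.2
        | k + 1 => if w 0 then β1 k (tl w) else β0 k (tl w), ⟨?_, ?_, ?_, ?_, ?_, ?_⟩, ?_, ?_, ?_, ?_⟩
    · intro i w hi
      obtain ⟨k, rfl⟩ : ∃ k, i = k + 1 := ⟨i - 1, by omega⟩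
      change (if w 0 then β1 k (tl w) else β0 k (tl w)) = 0
      rw [h1.zero_of_ge k _ (by omega), h0.zero_of_ge k _ (by omega)]
      simp
    · intro i w hi
      rcases i with _ | k
      · exact abs_pos.1 hpos
      · change (if w 0 then β1 k (tl w) else β0 k (tl w)) ≠ 0
        by_cases hw : w 0 = true
        · rw [if_pos hw]; exact h1.ne_zero k _ (by omega)
        · rw [if_neg hw]; exact h0.ne_zero k _ (by omega)
    · intro i w w' hww
      rcases i with _ | k
      · rfl
      · have e1 : w 0 = w' 0 := by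
          rw [← trunc_succ_zero w k, hww, trunc_succ_zero]
        have e2 : trunc (tl w) k = trunc (tl w') k := by
          rw [← tl_trunc, hww, tl_trunc]
        change (if w 0 then β1 k (tl w) else β0 k (tl w)) =
          (if w' 0 then β1 k (tl w') else β0 k (tl w'))
        rw [e1, h1.congr k _ _ e2, h0.congr k _ _ e2]
    · intro i w
      rcases i with _ | k
      · change |if w 0 then β1 0 (tl w) else β0 0 (tl w)| ≤ δ * |p'.2 - p.2|
        by_cases hw : w 0 = true
        · rw [if_pos hw]; exact hβ1 _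
        · rw [if_neg hw]; exact hβ0 _
      · change |if w 0 then β1 (k + 1) (tl w) else β0 (k + 1) (tl w)| ≤
          δ * |if w 0 then β1 k (tl w) else β0 k (tl w)|
        by_cases hw : w 0 = true
        · rw [if_pos hw, if_pos hw]; exact h1.decay k _
        · rw [if_neg hw, if_neg hw]; exact h0.decay k _
    · intro i w
      rcases i with _ | k
      · change ((if (trunc w (0 + 1)) 0 then B1 (tl (trunc w (0 + 1))) else B0 (tl (trunc w (0 + 1)))) -
          (if (trunc w 0) 0 then B1 (tl (trunc w 0)) else B0 (tl (trunc w 0)))) =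
          if bit w 0 then p'.2 - p.2 else 0
        rw [trunc_succ_zero, tl_trunc, trunc_zero, trunc_zero, bit_zero]
        by_cases hw : w 0 = true
        · rw [if_pos hw, if_pos hw, if_neg (by simp)]
          rw [hB1]
          have : B0 (tl fun _ => false) = p.2 := hB0
          rw [this]
        · rw [if_neg hw, if_neg hw, if_neg (by simp)]
          have : B0 (tl fun _ => false) = p.2 := hB0
          rw [this, hB0, sub_self]
      · change ((if (trunc w (k + 1 + 1)) 0 then B1 (tl (trunc w (k + 1 + 1)))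
            else B0 (tl (trunc w (k + 1 + 1)))) -
          (if (trunc w (k + 1)) 0 then B1 (tl (trunc w (k + 1))) else B0 (tl (trunc w (k + 1))))) =
          if bit w (k + 1) then (if w 0 then β1 k (tl w) else β0 k (tl w)) else 0
        rw [trunc_succ_zero, trunc_succ_zero, tl_trunc, tl_trunc, bit_succ]
        by_cases hw : w 0 = true
        · rw [if_pos hw, if_pos hw, if_pos hw]; exact h1.stepB k _
        · rw [if_neg hw, if_neg hw, if_neg hw]; exact h0.stepB k _
    · intro i w
      rcases i with _ | k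
      · change |(if (trunc w (0 + 1)) 0 then A1 (tl (trunc w (0 + 1))) else A0 (tl (trunc w (0 + 1)))) -
          (if (trunc w 0) 0 then A1 (tl (trunc w 0)) else A0 (tl (trunc w 0)))| ≤
          C * |p'.2 - p.2|
        rw [trunc_succ_zero, tl_trunc, trunc_zero, trunc_zero]
        have e0 : A0 (tl fun _ => false) = p.1 := hA0
        by_cases hw : w 0 = true
        · rw [if_pos hw, if_neg (by simp), hA1, e0]
          exact hA
        · rw [if_neg hw, if_neg (by simp), e0, hA0, sub_self, abs_zero]
          positivity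
      · change |(if (trunc w (k + 1 + 1)) 0 then A1 (tl (trunc w (k + 1 + 1)))
            else A0 (tl (trunc w (k + 1 + 1)))) -
          (if (trunc w (k + 1)) 0 then A1 (tl (trunc w (k + 1))) else A0 (tl (trunc w (k + 1))))| ≤
          C * |if w 0 then β1 k (tl w) else β0 k (tl w)|
        rw [trunc_succ_zero, trunc_succ_zero, tl_trunc, tl_trunc]
        by_cases hw : w 0 = true
        · rw [if_pos hw, if_pos hw, if_pos hw]; exact h1.stepA k _
        · rw [if_neg hw, if_neg hw, if_neg hw]; exact h0.stepA k _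
    · intro w
      change ((if w 0 then A1 (tl w) else A0 (tl w)), (if w 0 then B1 (tl w) else B0 (tl w))) ∈ G
      by_cases hw : w 0 = true
      · rw [if_pos hw, if_pos hw]; exact hG1 _
      · rw [if_neg hw, if_neg hw]; exact hG0 _
    · exact hA0
    · exact hB0
    · intro w
      exact hlt.le

end TreeEx

end Pool.Agent.Helper193
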