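import Pool.Agent.Helper193.Sep
import Pool.Agent.Helper193.TreeEx
import Pool.Agent.Helper193.DimLower
import Pool.Agent.Helper193.Reduce

set_option autoImplicit false

namespace Pool.Agent.Helper193

open Finset Filter Topology

lemma maps_word {D : ℕ} (A B : (Fin D → Bool) → ℝ) (X : Set ℝ)
    (hX : ∀ w, ∀ x ∈ X, A w * x + B w ∈ X) : ∀ (J : ℕ) (w : Fin J → Fin D → Bool),
    ∀ x ∈ X, pr A w J * x + pt A B w ∈ X := by
  intro J
  induction J with
  | zero =>
    intro w x hx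
    simpa [pr_zero, pt] using hx
  | succ J ih =>
    intro w x hx
    obtain ⟨w0, w, rfl⟩ : ∃ (w0 : Fin D → Bool) (w' : Fin J → Fin D → Bool),
        w = Fin.cons w0 w' := ⟨w 0, Fin.tail w, (Fin.cons_self_tail w).symm⟩
    rw [pt_cons, pr_cons]
    have := hX w0 _ (ih w x hx)
    convert this using 1
    ring

lemma exists_bmin {D : ℕ} (β : ℕ → (Fin D → Bool) → ℝ) (h : ∀ i w, i < D → β i w ≠ 0) :
    ∃ b : ℝ, 0 < b ∧ ∀ w, ∀ i < D, b ≤ |β i w| := by
  have hne : (insert (1 : ℝ) (((univ : Finset (Fin D → Bool)) ×ˢ range D).image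
      fun p => |β p.2 p.1|)).Nonempty := ⟨1, mem_insert_self _ _⟩
  refine ⟨(insert (1 : ℝ) (((univ : Finset (Fin D → Bool)) ×ˢ range D).image
      fun p => |β p.2 p.1|)).min' hne, ?_, fun w i hi => ?_⟩
  swap
  · exact min'_le (insert (1 : ℝ)
      (((univ : Finset (Fin D → Bool)) ×ˢ range D).image fun p => |β p.2 p.1|)) |β i w|
      (mem_insert_of_mem (mem_image.mpr ⟨(w, i), by simpa using hi, rfl⟩))
  have := min'_mem _ hne
  rw [mem_insert, mem_image] at this
  rcases this with h1 | ⟨⟨w, i⟩, h1, h2⟩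
  · rw [h1]; exact one_pos
  · rw [← h2]
    simp only [mem_product, mem_univ, true_and, mem_range] at h1
    exact abs_pos.mpr (h i w h1)

lemma pr_ge {D J : ℕ} {A : (Fin D → Bool) → ℝ} {a1 : ℝ} (h0 : 0 ≤ a1) (hA : ∀ w, a1 ≤ A w)
    (w : Fin J → Fin D → Bool) : a1 ^ J ≤ pr A w J := by
  unfold pr
  have : univ.filter (fun i : Fin J => (i : ℕ) < J) = univ := by
    ext i; simp
  rw [this]
  calc a1 ^ J = ∏ _i : Fin J, a1 := by simp
    _ ≤ _ := prod_le_prod (fun _ _ => h0) (fun _ _ => hA _)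

lemma pr_le {D J : ℕ} {A : (Fin D → Bool) → ℝ} {a2 : ℝ} (hA : ∀ w, 0 ≤ A w ∧ A w ≤ a2)
    (w : Fin J → Fin D → Bool) : pr A w J ≤ a2 ^ J := by
  unfold pr
  have : univ.filter (fun i : Fin J => (i : ℕ) < J) = univ := by
    ext i; simp
  rw [this]
  calc _ ≤ ∏ _i : Fin J, a2 := prod_le_prod (fun _ _ => (hA _).1) (fun _ _ => (hA _).2)
    _ = a2 ^ J := by simp

/-- choice of the window size -/
lemma exists_n (a Λ η : ℝ) (ha : 0 < a) (ha1 : a ≤ 1 / 16) (hΛ : 1 ≤ Λ) (hη : 0 < η) :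
    ∃ n : ℕ, 4 ≤ n ∧ 1 / a ^ 3 ≤ Real.exp (η * n * Λ) ∧ 2 * Real.log 2 ≤ η * n * Λ ∧
      (n : ℝ) * Real.exp (-((⌈48 / a ^ 6 * (n * Λ)⌉₊ : ℕ) : ℝ)) +
        8 * (4 * ((⌈48 / a ^ 6 * (n * Λ)⌉₊ : ℕ) : ℝ)) / Real.exp (η * n * Λ) ≤ η / 4 := by
  have hlin : Tendsto (fun n : ℕ => η * n * Λ) atTop atTop := by
    have : Tendsto (fun n : ℕ => (η * Λ) * (n : ℝ)) atTop atTop :=
      tendsto_natCast_atTop_atTop.const_mul_atTop (by positivity)
    refine this.congr fun n => by ring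
  have h1 : ∀ᶠ n : ℕ in atTop, 4 ≤ n := eventually_ge_atTop 4
  have h2 : ∀ᶠ n : ℕ in atTop, 1 / a ^ 3 ≤ Real.exp (η * n * Λ) :=
    (Real.tendsto_exp_atTop.comp hlin).eventually_ge_atTop _
  have h3 : ∀ᶠ n : ℕ in atTop, 2 * Real.log 2 ≤ η * n * Λ := hlin.eventually_ge_atTop _
  have h4 : Tendsto (fun n : ℕ => (n : ℝ) * Real.exp (-(n : ℝ)) +
      32 * ((48 / a ^ 6 * (n * Λ) + 1) * Real.exp (-(η * n * Λ)))) atTop (𝓝 0) := by
    have t1 : Tendsto (fun x : ℝ => x * Real.exp (-x)) atTop (𝓝 0) := by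
      have := Real.tendsto_pow_mul_exp_neg_atTop_nhds_zero 1
      simpa using this
    have t2 : Tendsto (fun n : ℕ => (n : ℝ) * Real.exp (-(n : ℝ))) atTop (𝓝 0) :=
      t1.comp tendsto_natCast_atTop_atTop
    have t3 : Tendsto (fun n : ℕ => (η * n * Λ) * Real.exp (-(η * n * Λ))) atTop (𝓝 0) :=
      t1.comp hlin
    have t4 : Tendsto (fun n : ℕ => Real.exp (-(η * n * Λ))) atTop (𝓝 0) :=
      Real.tendsto_exp_neg_atTop_nhds_zero.comp hlin
    have t5 : Tendsto (fun n : ℕ => (n : ℝ) * Real.exp (-(n : ℝ)) +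
      32 * ((48 / a ^ 6 / η) * ((η * n * Λ) * Real.exp (-(η * n * Λ))) +
        Real.exp (-(η * n * Λ)))) atTop (𝓝 (0 + 32 * ((48 / a ^ 6 / η) * 0 + 0))) :=
      t2.add (((t3.const_mul _).add t4).const_mul _)
    simp only [mul_zero, add_zero] at t5
    refine t5.congr fun n => ?_
    field_simp
  have h5 : ∀ᶠ n : ℕ in atTop, (n : ℝ) * Real.exp (-(n : ℝ)) +
      32 * ((48 / a ^ 6 * (n * Λ) + 1) * Real.exp (-(η * n * Λ))) < η / 4 :=
    h4.eventually_lt_const (by positivity)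
  obtain ⟨n, g1, g2, g3, g5⟩ := (h1.and (h2.and (h3.and h5))).exists
  refine ⟨n, g1, g2, g3, le_trans ?_ g5.le⟩
  have hn : (0 : ℝ) ≤ n := by positivity
  have ha6 : 0 < a ^ 6 := by positivity
  have hc : (n : ℝ) ≤ 48 / a ^ 6 * (n * Λ) := by
    have : (1 : ℝ) ≤ 48 / a ^ 6 := by
      rw [le_div_iff₀ ha6]
      have : a ^ 6 ≤ 1 := pow_le_one₀ ha.le (by linarith)
      linarith
    nlinarith [mul_nonneg hn (sub_nonneg.mpr hΛ)]
  have hceil1 : 48 / a ^ 6 * (n * Λ) ≤ (⌈48 / a ^ 6 * (n * Λ)⌉₊ : ℝ) := Nat.le_ceil _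
  have hceil2 : (⌈48 / a ^ 6 * (n * Λ)⌉₊ : ℝ) ≤ 48 / a ^ 6 * (n * Λ) + 1 :=
    (Nat.ceil_lt_add_one (by positivity)).le
  rw [Real.exp_neg (η * n * Λ)]
  have hexp := Real.exp_pos (η * n * Λ)
  apply add_le_add
  · gcongr
    exact_mod_cast hc.trans hceil1
  · rw [show 8 * (4 * (⌈48 / a ^ 6 * (n * Λ)⌉₊ : ℝ)) / Real.exp (η * n * Λ) =
      32 * ((⌈48 / a ^ 6 * (n * Λ)⌉₊ : ℝ) * (Real.exp (η * n * Λ))⁻¹) by
        rw [div_eq_mul_inv]; ring]
    gcongr

lemma arith_J (η Λ c0 T : ℝ) (J : ℝ) (hη0 : 0 < η) (hη8 : η < 1 / 8) (hΛ0 : 0 < Λ)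
    (hJ0 : 0 ≤ J) (hJ2 : J * ((1 - η) * Λ) ≤ c0 + T + (1 - η) * Λ) :
    J * ((1 + η) * Λ) ≤ (1 + 3 * η) * (c0 + T) + 2 * Λ := by
  have h2 : J * ((1 + η) * Λ) ≤ (1 + 3 * η) * (J * ((1 - η) * Λ)) := by
    have h3 : (1 + η) ≤ (1 + 3 * η) * (1 - η) := by nlinarith
    calc J * ((1 + η) * Λ) ≤ J * (((1 + 3 * η) * (1 - η)) * Λ) := by gcongr
      _ = _ := by ring
  have h4 : (1 + 3 * η) * (J * ((1 - η) * Λ)) ≤
      (1 + 3 * η) * (c0 + T + (1 - η) * Λ) := by gcongr
  have h5 : (1 + 3 * η) * ((1 - η) * Λ) ≤ 2 * Λ := by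
    have : (1 + 3 * η) * (1 - η) ≤ 2 := by nlinarith
    calc (1 + 3 * η) * ((1 - η) * Λ) = ((1 + 3 * η) * (1 - η)) * Λ := by ring
      _ ≤ 2 * Λ := by gcongr
  linarith

lemma arith_final (η Λ c0 T s x : ℝ) (hη0 : 0 < η) (hη8 : η < 1 / 8) (hΛ0 : 0 < Λ)
    (hc0 : 0 ≤ c0) (hT : 0 ≤ T) (hs : s = 1 - 8 * η) (hs0 : 0 < s)
    (hx : x ≤ (1 + 3 * η) * (c0 + T) + 2 * Λ) (hN : c0 + 2 * Λ ≤ η * T) :
    s * x ≤ T * (1 - 4 * η) := by
  calc s * x ≤ s * ((1 + 3 * η) * (c0 + T) + 2 * Λ) := by gcongr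
    _ ≤ T * (1 - 4 * η) := by
        have h6 : s * (1 + 3 * η) ≤ 1 - 5 * η := by rw [hs]; nlinarith
        have h7 : s * (1 + 3 * η) ≤ 1 := by linarith
        have h8 : s * (1 + 3 * η) * T ≤ (1 - 5 * η) * T := by gcongr
        have h9 : s * (1 + 3 * η) * c0 ≤ 1 * c0 := by gcongr
        have h10 : s * (2 * Λ) ≤ 1 * (2 * Λ) := by
          have : s ≤ 1 := by linarith
          gcongr
        linarith

lemma arith_M (η N nΛ l2 lr lM : ℝ) (hη0 : 0 < η) (hη8 : η < 1 / 8) (hN : 1 ≤ N)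
    (hnΛ : 0 < nΛ) (hl2 : 0 < l2) (hnlog : 2 * l2 ≤ η * nΛ) (hlr : (1 - 2 * η) * nΛ ≤ lr)
    (h1 : (1 - η) * N * lr ≤ (N + 1) * l2 + lM) : N * nΛ * (1 - 4 * η) ≤ lM := by
  have h2 : (1 - η) * N * ((1 - 2 * η) * nΛ) ≤ (1 - η) * N * lr := by
    have h0 : 0 ≤ 1 - η := by linarith
    have : 0 ≤ (1 - η) * N := by positivity
    gcongr
  have h3 : (N + 1) * l2 ≤ N * (2 * l2) := by nlinarith
  have h4 : N * (2 * l2) ≤ N * (η * nΛ) := by gcongr
  have h5 : 0 ≤ N * nΛ * (η * η) := by positivity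
  nlinarith

/-- the core theorem, quantitative form -/
theorem core_lt (X : Set ℝ) (hX : IsCompact X) (h0 : (0 : ℝ) ∈ X) (G : Set (ℝ × ℝ))
    (hG : ∀ p ∈ G, ∀ x ∈ X, p.1 * x + p.2 ∈ X) (a C : ℝ) (ha0 : 0 < a) (ha1 : a ≤ 1 / 16)
    (hC : 0 < C) (haG : (a, (0 : ℝ)) ∈ G)
    (hsplit : ∀ p ∈ G, ∀ ε > (0 : ℝ), ∃ p' ∈ G, 0 < |p'.2 - p.2| ∧ |p'.2 - p.2| < ε ∧
      |p'.1 - p.1| ≤ C * |p'.2 - p.2|) (s : ℝ) (hs0 : 0 < s) (hs1 : s < 1) :
    ENNReal.ofReal s ≤ dimH X := by
  classical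
  -- constants
  set Λ := -Real.log a with hΛdef
  have haexp : a = Real.exp (-Λ) := by rw [hΛdef, neg_neg, Real.exp_log ha0]
  have hlog4 : Real.log 4 ≤ Λ / 2 := by
    have h1 : Real.log a ≤ Real.log (1 / 16) := Real.log_le_log ha0 ha1
    have h2 : Real.log (1 / 16 : ℝ) = -(2 * Real.log 4) := by
      rw [show (1 / 16 : ℝ) = (4 ^ 2)⁻¹ by norm_num, Real.log_inv, Real.log_pow]
      push_cast; ring
    linarith
  have hlog4' : 1 ≤ Real.log 4 := by
    rw [show (4 : ℝ) = 2 ^ 2 by norm_num, Real.log_pow]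
    push_cast
    have := Real.log_two_gt_d9
    linarith
  have hΛ1 : 1 ≤ Λ := by linarith
  have hΛ0 : 0 < Λ := by linarith
  set η := (1 - s) / 8 with hηdef
  have hη0 : 0 < η := by rw [hηdef]; linarith
  have hη8 : η < 1 / 8 := by rw [hηdef]; linarith
  have hs : s = 1 - 8 * η := by rw [hηdef]; ring
  obtain ⟨n, hn4, hnK, hnlog, hnp⟩ := exists_n a Λ η ha0 ha1 hΛ1 hη0
  set D' := ⌈48 / a ^ 6 * (n * Λ)⌉₊ with hD'
  set K := Real.exp (η * n * Λ) with hK
  set q := a ^ n with hq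
  have hq0 : 0 < q := pow_pos ha0 n
  have hqexp : q = Real.exp (-(n * Λ)) := by
    rw [hq, haexp, ← Real.exp_nat_mul]
    congr 1; ring
  have hK0 : 0 < K := Real.exp_pos _
  have hnΛ : 0 < n * Λ := by
    have : (0 : ℝ) < n := by exact_mod_cast (by omega : 0 < n)
    positivity
  -- ratio bounds
  set a1 := Real.exp (-((1 + η) * Λ)) with ha1def
  set a2 := Real.exp (-((1 - η) * Λ)) with ha2def
  have ha1lt : a1 < a := by
    rw [haexp, ha1def, Real.exp_lt_exp]; nlinarith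
  have ha2gt : a < a2 := by
    rw [haexp, ha2def, Real.exp_lt_exp]; nlinarith
  have ha1sq : a ^ 2 ≤ a1 := by
    rw [haexp, ha1def, ← Real.exp_nat_mul, Real.exp_le_exp]
    push_cast; nlinarith
  have ha2le : a2 ≤ 1 / 4 := by
    have : (1 / 4 : ℝ) = Real.exp (-Real.log 4) := by
      rw [Real.exp_neg, Real.exp_log (by norm_num)]; norm_num
    rw [this, ha2def, Real.exp_le_exp]
    nlinarith
  -- the size of the tree
  set Ms := 12 * C + (8 * C + 12 * C / q) * K + 2 * C + 1 with hMs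
  have hMs0 : 0 < Ms := by positivity
  set m1 := min q (min (a - a1) (a2 - a)) with hm1
  have hm10 : 0 < m1 := lt_min hq0 (lt_min (by linarith) (by linarith))
  set e0 := min 1 (m1 / Ms) with he0def
  have he0 : 0 < e0 := lt_min one_pos (by positivity)
  have he01 : e0 ≤ 1 := min_le_left _ _
  have hMe : Ms * e0 ≤ m1 := by
    have : e0 ≤ m1 / Ms := min_le_right _ _
    rw [le_div_iff₀ hMs0] at this
    linarith
  have hm1q : m1 ≤ q := min_le_left _ _
  have hm1a : m1 ≤ a - a1 := (min_le_right _ _).trans (min_le_left _ _)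
  have hm1b : m1 ≤ a2 - a := (min_le_right _ _).trans (min_le_right _ _)
  have hpos1 : 0 ≤ 12 * C * e0 := by positivity
  have hpos2 : 0 ≤ (8 * C + 12 * C / q) * K * e0 := by positivity
  have hpos3 : 0 ≤ 2 * C * e0 := by positivity
  have hMexp : Ms * e0 = 12 * C * e0 + (8 * C + 12 * C / q) * K * e0 + 2 * C * e0 + e0 := by
    rw [hMs]; ring
  obtain ⟨A, B, β, htree, hABG, hA0, hB0, hβ0⟩ := TreeEx.exists_tree G C hC.le hsplit (q / 2)
    (by positivity) (4 * D') (a, 0) haG e0 he0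
  simp only at hA0 hB0
  have hq1 : q ≤ 1 / 65536 := by
    have h1 : q ≤ a ^ 4 := pow_le_pow_of_le_one ha0.le (by linarith) hn4
    have h2 := pow_le_pow_left₀ ha0.le ha1 4
    have h3 : ((1:ℝ) / 16) ^ 4 = 1 / 65536 := by norm_num
    linarith
  have hδ2 : q / 2 ≤ 1 / 2 := by linarith
  have hAclose : ∀ w, |A w - a| ≤ 2 * C * e0 := by
    intro w
    have h1 := htree.A_le hC.le (by positivity) hδ2 0 w
    rw [trunc_zero, hA0] at h1
    refine h1.trans ?_
    have := hβ0 w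
    gcongr
  have hBclose : ∀ w, |B w| ≤ 2 * e0 := by
    intro w
    have htree' : IsTree B B β 1 (q / 2) :=
      ⟨htree.zero_of_ge, htree.ne_zero, htree.congr, htree.decay, htree.stepB, fun i w => by
        rw [htree.stepB]
        split_ifs
        · simp
        · simp⟩
    have h1 := htree'.A_le zero_le_one (by positivity) hδ2 0 w
    rw [trunc_zero, hB0, sub_zero] at h1
    have := hβ0 w
    linarith
  have hAge : ∀ w, a1 ≤ A w := by
    intro w
    have := abs_le.mp (hAclose w)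
    linarith [this.1]
  have hAle : ∀ w, A w ≤ a2 := by
    intro w
    have := abs_le.mp (hAclose w)
    linarith [this.2]
  have ha1pos : 0 < a1 := Real.exp_pos _
  have hApos : ∀ w, 0 < A w := fun w => lt_of_lt_of_le ha1pos (hAge w)
  have hexpD : Real.exp (-(a ^ 6 / 48) * D') ≤ q := by
    rw [hqexp, Real.exp_le_exp]
    have h1 : 48 / a ^ 6 * (n * Λ) ≤ D' := Nat.le_ceil _
    have h2 : a ^ 6 / 48 * (48 / a ^ 6 * (n * Λ)) ≤ a ^ 6 / 48 * D' := by gcongr
    have h3 : a ^ 6 / 48 * (48 / a ^ 6 * (n * Λ)) = n * Λ := by field_simp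
    linarith
  have P : Params (4 * D') A B β C (q / 2) e0 K q a n D' :=
    { tree := htree
      hC := hC.le
      hδ0 := by positivity
      hδ := le_rfl
      hA := fun w => ⟨hApos w, (hAle w).trans ha2le⟩
      hB := hBclose
      hβ := hβ0
      he0 := he0
      hlam := ha0
      hlam1 := ha1
      hn := hn4
      hq := hq
      hK := hnK
      h1 := by linarith
      h2 := by
        have : (8 * C + 12 * C / q) * e0 * K = (8 * C + 12 * C / q) * K * e0 := by ring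
        linarith
      hD := hexpD }
  obtain ⟨bmin, hbmin0, hbmin⟩ := exists_bmin β htree.ne_zero
  -- initial windows
  have htend : Tendsto (fun m : ℕ => a ^ 2 * (e0 * q ^ m * a)) atTop (𝓝 0) := by
    have h1 : Tendsto (fun m : ℕ => q ^ m) atTop (𝓝 0) :=
      tendsto_pow_atTop_nhds_zero_of_lt_one hq0.le (by linarith)
    have h2 := h1.const_mul (a ^ 2 * e0 * a)
    rw [mul_zero] at h2
    exact h2.congr (fun m => by ring)
  obtain ⟨N0, hN0⟩ := eventually_atTop.mp (htend.eventually_lt_const hbmin0)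
  -- bound of X
  obtain ⟨R, hR⟩ : ∃ R, ∀ x ∈ X, |x| ≤ R := by
    obtain ⟨R, hR⟩ := hX.isBounded.subset_closedBall 0
    exact ⟨R, fun x hx => by simpa [Real.dist_eq] using hR hx⟩
  have hR0 : 0 ≤ R := by have := hR 0 h0; simpa using this
  set c0 := Real.log (4 * (R + 1) / e0) with hc0def
  have hc0 : 0 ≤ c0 := Real.log_nonneg (by rw [one_le_div₀ he0]; linarith)
  -- the number of windows
  obtain ⟨N, hN1, hN2, hN3⟩ : ∃ N : ℕ, 1 ≤ N ∧ 4 * N0 / η ≤ N ∧
      (c0 + 2 * Λ) / (η * (n * Λ)) ≤ N := by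
    have t1 : ∀ᶠ N : ℕ in atTop, 4 * N0 / η ≤ (N : ℝ) :=
      tendsto_natCast_atTop_atTop.eventually_ge_atTop _
    have t2 : ∀ᶠ N : ℕ in atTop, (c0 + 2 * Λ) / (η * (n * Λ)) ≤ (N : ℝ) :=
      tendsto_natCast_atTop_atTop.eventually_ge_atTop _
    obtain ⟨N, h1, h2, h3⟩ := ((eventually_ge_atTop 1).and (t1.and t2)).exists
    exact ⟨N, h1, h2, h3⟩
  have hN1r : (1 : ℝ) ≤ N := by exact_mod_cast hN1
  have hN2' : 4 * (N0 : ℝ) ≤ η * N := by
    rw [div_le_iff₀ hη0] at hN2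
    linarith
  have hN3' : c0 + 2 * Λ ≤ η * (N * (n * Λ)) := by
    rw [div_le_iff₀ (by positivity)] at hN3
    linarith
  have h1η : 0 < (1 - η) * Λ := by
    have : 0 < 1 - η := by linarith
    positivity
  set J := ⌈(c0 + N * (n * Λ)) / ((1 - η) * Λ)⌉₊ with hJdef
  have hJ1 : c0 + N * (n * Λ) ≤ J * ((1 - η) * Λ) := by
    have : (c0 + N * (n * Λ)) / ((1 - η) * Λ) ≤ J := Nat.le_ceil _
    rwa [div_le_iff₀ h1η] at this
  have hJ2 : J * ((1 - η) * Λ) ≤ c0 + N * (n * Λ) + (1 - η) * Λ := by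
    have : (J : ℝ) ≤ (c0 + N * (n * Λ)) / ((1 - η) * Λ) + 1 :=
      (Nat.ceil_lt_add_one (by positivity)).le
    calc J * ((1 - η) * Λ) ≤ ((c0 + N * (n * Λ)) / ((1 - η) * Λ) + 1) * ((1 - η) * Λ) := by
          gcongr
      _ = _ := by rw [add_mul, one_mul, div_mul_cancel₀ _ h1η.ne']
  have hJpos : 0 < J := Nat.ceil_pos.mpr (by positivity)
  have hqN : q ^ N = Real.exp (-(N * (n * Λ))) := by
    rw [hqexp, ← Real.exp_nat_mul]
    congr 1; ring
  have ha2J : a2 ^ J ≤ e0 * q ^ N / (4 * (R + 1)) := by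
    have e1 : a2 ^ J = Real.exp (-(J * ((1 - η) * Λ))) := by
      rw [ha2def, ← Real.exp_nat_mul]
      congr 1; ring
    have e2 : e0 * q ^ N / (4 * (R + 1)) = Real.exp (-(c0 + N * (n * Λ))) := by
      rw [neg_add, Real.exp_add, ← hqN, hc0def, Real.exp_neg, Real.exp_log (by positivity)]
      field_simp
    rw [e1, e2, Real.exp_le_exp]
    linarith
  -- the concentration constant
  have hK4096 : 4096 ≤ K := by
    refine le_trans ?_ hnK
    rw [le_div_iff₀ (by positivity)]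
    have h2 := pow_le_pow_left₀ ha0.le ha1 3
    have h3 : ((1:ℝ) / 16) ^ 3 = 1 / 4096 := by norm_num
    linarith
  set ρ := 20 * (K + 3) * q with hρ
  have hρ0 : 0 < ρ := by positivity
  have hρle : ρ ≤ Real.exp (-((1 - 2 * η) * (n * Λ))) := by
    have e1 : Real.exp (-((1 - 2 * η) * (n * Λ))) = K * K * q := by
      rw [hK, hqexp, ← Real.exp_add, ← Real.exp_add]
      congr 1; ring
    rw [e1, hρ]
    have : 20 * (K + 3) ≤ K * K := by nlinarith
    gcongr
  have hρ1 : ρ ≤ 1 := by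
    refine hρle.trans (Real.exp_le_one_iff.mpr ?_)
    have : 0 < 1 - 2 * η := by linarith
    have : 0 < (1 - 2 * η) * (n * Λ) := by positivity
    linarith
  have hlogρ : (1 - 2 * η) * (n * Λ) ≤ Real.log ρ⁻¹ := by
    rw [Real.log_inv]
    have := Real.log_le_log hρ0 hρle
    rw [Real.log_exp] at this
    linarith
  -- bad words
  set p := (n : ℝ) * Real.exp (-(D' : ℝ)) + 8 * ((4 * D' : ℕ) : ℝ) / K with hp
  have hp0 : 0 ≤ p := by positivity
  have hpη : p ≤ η / 4 := by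
    rw [hp]
    push_cast
    exact hnp
  have hbad : ∀ m, N0 ≤ m → m < N → ((univ.filter fun w : Fin J → Fin (4 * D') → Bool =>
      ¬ Good A β K q a n D' (e0 * q ^ m) w).card : ℝ) ≤
      p * Fintype.card (Fin J → Fin (4 * D') → Bool) := by
    intro m hm1' hm2'
    have hθ : 0 < e0 * q ^ m := by positivity
    refine bad_le P rfl a2 (by linarith) (fun w => ha1sq.trans (hAge w)) hAle hθ ?_ ?_
    · intro w i hi
      exact lt_of_lt_of_le (hN0 m hm1') (hbmin w i hi)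
    · have e1 : a2 ^ J * e0 ≤ e0 * q ^ N := by
        have h4 : e0 * q ^ N / (4 * (R + 1)) ≤ e0 * q ^ N := by
          apply div_le_self (by positivity)
          linarith
        calc a2 ^ J * e0 ≤ (e0 * q ^ N) * e0 := by
              gcongr
              exact ha2J.trans h4
          _ ≤ (e0 * q ^ N) * 1 := by gcongr
          _ = _ := by ring
      refine e1.trans ?_
      have e2 : q ^ N ≤ q ^ m * q := by
        rw [← pow_succ]
        exact pow_le_pow_of_le_one hq0.le (by linarith) (by omega)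
      have e3 : q ≤ a ^ (n - 1) := by
        rw [hq]
        exact pow_le_pow_of_le_one ha0.le (by linarith) (by omega)
      have e4 : a ^ (n - 1) = a ^ 2 * a ^ (n - 3) := by
        rw [← pow_add]
        congr 1
        omega
      calc e0 * q ^ N ≤ e0 * (q ^ m * q) := by gcongr
        _ ≤ e0 * (q ^ m * (a ^ 2 * a ^ (n - 3))) := by
            rw [← e4]
            gcongr
        _ = _ := by ring
  obtain ⟨T, hTsep, hTcard⟩ := many_separated P hρ hρ1 hη0 N N0 (by omega) hbad hp0 (by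
    have : p * N ≤ η / 4 * N := by gcongr
    linarith)
  -- the number of maps
  have hMpos : 0 < (T.card : ℝ) := by
    by_contra hcon
    have : (T.card : ℝ) = 0 := le_antisymm (not_lt.mp hcon) (Nat.cast_nonneg _)
    rw [this, mul_zero] at hTcard
    exact absurd (Real.exp_pos _) (not_lt.mpr hTcard)
  have hlogM : N * (n * Λ) * (1 - 4 * η) ≤ Real.log T.card := by
    have h1 := Real.log_le_log (Real.exp_pos _) hTcard
    rw [Real.log_exp, Real.log_mul (by positivity) hMpos.ne', Real.log_pow] at h1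
    push_cast at h1
    exact arith_M η N (n * Λ) (Real.log 2) _ _ hη0 hη8 hN1r hnΛ (Real.log_pos (by norm_num))
      (by rw [← mul_assoc]; exact hnlog) hlogρ h1
  have hlogMpos : 0 < Real.log T.card := by
    refine lt_of_lt_of_le ?_ hlogM
    have : 0 < 1 - 4 * η := by linarith
    positivity
  have hM2 : 2 ≤ T.card := by
    by_contra hcon
    have : T.card = 0 ∨ T.card = 1 := by omega
    rcases this with h | h
    · rw [h, Nat.cast_zero, Real.log_zero] at hlogMpos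
      exact lt_irrefl _ hlogMpos
    · rw [h, Nat.cast_one, Real.log_one] at hlogMpos
      exact lt_irrefl _ hlogMpos
  have ha1lt1 : a1 < 1 := by linarith
  have hpow1 : a1 ^ J < 1 := pow_lt_one₀ ha1pos.le ha1lt1 (by omega)
  let e := T.equivFin
  have hdim := dimH_ge_of_separated X hX ⟨0, h0⟩ T.card hM2
    (fun i => pr A ((e.symm i : T) : Fin J → Fin (4 * D') → Bool) J)
    (fun i => pt A B ((e.symm i : T) : Fin J → Fin (4 * D') → Bool))
    (a1 ^ J) (pow_pos ha1pos J) hpow1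
    (fun i => ⟨pr_ge ha1pos.le hAge _, by
      refine lt_of_le_of_lt (pr_le (a2 := a2) (fun w => ⟨(hApos w).le, hAle w⟩) _) ?_
      exact pow_lt_one₀ (Real.exp_pos _).le (by linarith) (by omega)⟩)
    (fun i x hx => maps_word A B X (fun w x hx => hG _ (hABG w) x hx) J _ x hx)
    (e0 * q ^ N / 2) (by positivity) (by
      intro i j hij x hx y hy
      have hne : ((e.symm i : T) : Fin J → Fin (4 * D') → Bool) ≠ (e.symm j : T) := by
        intro h
        exact hij (e.symm.injective (Subtype.ext h))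
      have h1 := hTsep _ (e.symm i).2 _ (e.symm j).2 hne
      set u := ((e.symm i : T) : Fin J → Fin (4 * D') → Bool)
      set v := ((e.symm j : T) : Fin J → Fin (4 * D') → Bool)
      have hsmall : ∀ (w : Fin J → Fin (4 * D') → Bool) (z : ℝ), z ∈ X →
          |pr A w J * z| ≤ e0 * q ^ N / 4 := by
        intro w z hz
        have hp1 : 0 < pr A w J := pr_pos hApos w J
        have hp2 := pr_le (a2 := a2) (fun w => ⟨(hApos w).le, hAle w⟩) w
        rw [abs_mul, abs_of_pos hp1]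
        calc pr A w J * |z| ≤ (e0 * q ^ N / (4 * (R + 1))) * (R + 1) := by
              gcongr
              · exact hp2.trans ha2J
              · linarith [hR z hz]
          _ = e0 * q ^ N / 4 := by field_simp
      have h2 := hsmall u x hx
      have h3 := hsmall v y hy
      have h4 : pt A B u - pt A B v =
          ((pr A u J * x + pt A B u) - (pr A v J * y + pt A B v)) -
            (pr A u J * x) + (pr A v J * y) := by ring
      have h5 : |pt A B u - pt A B v| ≤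
          |(pr A u J * x + pt A B u) - (pr A v J * y + pt A B v)| +
            |pr A u J * x| + |pr A v J * y| := by
        rw [h4]
        refine (abs_add_le _ _).trans ?_
        gcongr
        exact abs_sub _ _
      linarith)
  refine le_trans (ENNReal.ofReal_le_ofReal ?_) hdim
  have hlogp : Real.log (1 / a1 ^ J) = J * ((1 + η) * Λ) := by
    rw [one_div, Real.log_inv, Real.log_pow, ha1def, Real.log_exp]
    ring
  rw [hlogp, le_div_iff₀ (by positivity)]
  refine le_trans ?_ hlogM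
  exact arith_final η Λ c0 (N * (n * Λ)) s _ hη0 hη8 hΛ0 hc0 (by positivity) hs hs0
    (arith_J η Λ c0 (N * (n * Λ)) J hη0 hη8 hΛ0 (by positivity) hJ2) hN3'

theorem core : CoreStatement := by
  intro X hX h0 G hG a C ha0 ha1 hC haG hsplit
  apply le_antisymm
  · exact (dimH_mono (Set.subset_univ X)).trans Real.dimH_univ.le
  · refine le_of_forall_lt fun c hc => ?_
    obtain ⟨c', hc1, hc2⟩ := exists_between hc
    have hne : c' ≠ ⊤ := (hc2.trans ENNReal.one_lt_top).ne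
    have hpos : 0 < c'.toReal := ENNReal.toReal_pos (ne_bot_of_gt hc1) hne
    have hlt : c'.toReal < 1 := by
      rw [← ENNReal.toReal_one]
      exact (ENNReal.toReal_lt_toReal hne ENNReal.one_ne_top).mpr hc2
    have := core_lt X hX h0 G hG a C ha0 ha1 hC haG hsplit c'.toReal hpos hlt
    rw [ENNReal.ofReal_toReal hne] at this
    exact hc1.trans_le this

end Pool.Agent.Helper193
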