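import Pool.Agent.Helper193.Main
import Pool.Agent.Helper193.Avg

set_option autoImplicit false

namespace Pool.Agent.Helper193

open Finset

variable {D J : ℕ}
variable {A B : (Fin D → Bool) → ℝ} {β : ℕ → (Fin D → Bool) → ℝ}
  {C δ e0 K q lam : ℝ} {n D' : ℕ}

lemma pr_le_one (hA : ∀ w, 0 < A w ∧ A w ≤ 1) (v : Fin J → Fin D → Bool) (k : ℕ) :
    pr A v k ≤ 1 := prod_le_one (fun _ _ => (hA _).1.le) (fun _ _ => (hA _).2)

lemma valid_init (P : Params D A B β C δ e0 K q lam n D') (u : Fin J → Fin D → Bool) :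
    Valid A β e0 (fun _ => 0) u := by
  constructor
  · intro k
    have h1 := pr_le_one (A := A) (fun w => ⟨(P.hA w).1, (P.hA w).2.trans (by norm_num)⟩)
      (base (fun _ => 0) u) k
    have h2 := P.β_le 0 (u k)
    have := P.he0
    calc pr A (base (fun _ => 0) u) k * |β 0 (u k)| ≤ 1 * e0 := by
          gcongr
      _ ≤ 2 * e0 := by linarith
  · intro v _ k i hi
    exact absurd hi (by omega)

lemma ov_zero (u w : Fin J → Fin D → Bool) : ov (fun _ => 0) u w = w := by
  funext k i
  simp [ov]

/-- the counting theorem from the initial state -/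
theorem count_init (P : Params D A B β C δ e0 K q lam n D') {ρ r y : ℝ}
    (hρ : ρ = 20 * (K + 3) * q) (N : ℕ) (hr : r ≤ e0 * q ^ N) :
    ∑ w : Fin J → Fin D → Bool, FF A B β K q lam n D' ρ r y N e0 w ≤
        2 ^ N * Fintype.card (Fin J → Fin D → Bool) := by
  have := count P (r := r) (y := y) hρ N e0 P.he0 (fun _ : Fin J => 0) (fun _ _ => false)
    (valid_init P _) hr
  simpa only [ov_zero] using this

open Classical in
/-- few words are not good at a given scale -/
theorem bad_le (P : Params D A B β C δ e0 K q lam n D') (hD4 : D = 4 * D')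
    (a2 : ℝ) (ha2 : a2 < 1)
    (hA1 : ∀ w, lam ^ 2 ≤ A w) (hA2 : ∀ w, A w ≤ a2) {θ : ℝ} (hθ : 0 < θ)
    (hmin : ∀ w, ∀ i < D, lam ^ 2 * (θ * lam) < |β i w|)
    (hJ : a2 ^ J * e0 ≤ lam ^ 2 * (θ * lam ^ (n - 3))) :
    ((univ.filter fun w : Fin J → Fin D → Bool => ¬ Good A β K q lam n D' θ w).card : ℝ) ≤
      (n * Real.exp (-(D' : ℝ)) + 8 * D / K) * Fintype.card (Fin J → Fin D → Bool) := by
  have hlam := P.hlam
  have hlam1 := P.hlam1
  have hq := P.q_pos
  have hK := P.K_pos
  have hApos : ∀ w, 0 < A w := fun w => (P.hA w).1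
  set card := (Fintype.card (Fin J → Fin D → Bool) : ℝ) with hcard
  have hcard0 : 0 ≤ card := by positivity
  -- few words with few hits
  have H1 : ∀ j ∈ Icc 1 (n - 3), ((univ.filter fun w : Fin J → Fin D → Bool =>
      hits A β w (lam ^ 2 * (θ * lam ^ j)) (θ * lam ^ j) < D').card : ℝ) ≤
      Real.exp (-(D' : ℝ)) * card := by
    intro j hj
    rw [mem_Icc] at hj
    have hlj : lam ^ j ≤ lam := by
      calc lam ^ j ≤ lam ^ 1 := pow_le_pow_of_le_one hlam.le (hlam1.trans (by norm_num)) hj.1
        _ = lam := pow_one _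
    have hdec : ∀ i w, |β (i + 1) w| ≤ lam ^ 2 * |β i w| := by
      intro i w
      refine (P.tree.decay i w).trans ?_
      gcongr
      have h1 := P.hδ
      have h2 : q ≤ lam ^ 2 := by
        rw [P.hq]
        exact pow_le_pow_of_le_one hlam.le (hlam1.trans (by norm_num)) (by have := P.hn; omega)
      linarith
    have hs := Avg.sum_hits A β (lam ^ 2) a2 (lam ^ 2 * (θ * lam ^ j)) (θ * lam ^ j) e0
      (by positivity) ha2 (fun w => ⟨hA1 w, hA2 w⟩) hdec (by positivity) le_rfl P.hβ
      (fun w i hi => by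
        refine lt_of_le_of_lt ?_ (hmin w i hi)
        gcongr) J (by
        refine hJ.trans ?_
        have : lam ^ (n - 3) ≤ lam ^ j :=
          pow_le_pow_of_le_one hlam.le (hlam1.trans (by norm_num)) hj.2
        gcongr)
    have h2 : ((univ.filter fun w : Fin J → Fin D → Bool =>
      hits A β w (lam ^ 2 * (θ * lam ^ j)) (θ * lam ^ j) < D').card : ℝ) * (1 / 2) ^ D' ≤
      ∑ w : Fin J → Fin D → Bool,
        (1 / 2 : ℝ) ^ (hits A β w (lam ^ 2 * (θ * lam ^ j)) (θ * lam ^ j)) := by
      rw [← nsmul_eq_mul, ← sum_const]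
      calc ∑ _w ∈ univ.filter (fun w : Fin J → Fin D → Bool =>
            hits A β w (lam ^ 2 * (θ * lam ^ j)) (θ * lam ^ j) < D'), (1 / 2 : ℝ) ^ D'
          ≤ ∑ w ∈ univ.filter (fun w : Fin J → Fin D → Bool =>
            hits A β w (lam ^ 2 * (θ * lam ^ j)) (θ * lam ^ j) < D'),
            (1 / 2 : ℝ) ^ (hits A β w (lam ^ 2 * (θ * lam ^ j)) (θ * lam ^ j)) := by
            refine sum_le_sum fun w hw => ?_
            rw [mem_filter] at hw
            exact pow_le_pow_of_le_one (by norm_num) (by norm_num) hw.2.le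
        _ ≤ _ := sum_le_univ_sum_of_nonneg (fun w => by positivity)
    have h3 : Real.exp (-(D : ℝ) / 2) ≤ Real.exp (-(D' : ℝ)) * (1 / 2) ^ D' := by
      have e1 : (1 / 2 : ℝ) ^ D' = Real.exp (-(D' : ℝ) * Real.log 2) := by
        rw [one_div, inv_pow, ← Real.exp_log (show (0 : ℝ) < 2 by norm_num), ← Real.exp_nat_mul,
          ← Real.exp_neg, Real.log_exp]
        congr 1
        ring
      rw [e1, ← Real.exp_add, Real.exp_le_exp, hD4]
      push_cast
      have : Real.log 2 ≤ 1 := by have := Real.log_two_lt_d9; linarith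
      have hD'0 : (0 : ℝ) ≤ D' := by positivity
      nlinarith
    have h4 : ((univ.filter fun w : Fin J → Fin D → Bool =>
      hits A β w (lam ^ 2 * (θ * lam ^ j)) (θ * lam ^ j) < D').card : ℝ) * (1 / 2) ^ D' ≤
      (Real.exp (-(D' : ℝ)) * card) * (1 / 2) ^ D' := by
      calc _ ≤ _ := h2
        _ ≤ Real.exp (-(D : ℝ) / 2) * card := hs
        _ ≤ (Real.exp (-(D' : ℝ)) * (1 / 2) ^ D') * card := by gcongr
        _ = _ := by ring
    exact le_of_mul_le_mul_right h4 (by positivity)
  -- few words with large tails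
  have H2 : ∀ t s : ℝ, 0 < t → 0 < s → ((univ.filter fun w : Fin J → Fin D → Bool =>
      s < tail A β w t).card : ℝ) ≤ 4 / 3 * D * t / s * card := by
    intro t s ht hs
    have hT := Avg.sum_tail A β P.hA t ht J
    have h2 : ((univ.filter fun w : Fin J → Fin D → Bool => s < tail A β w t).card : ℝ) * s ≤
        ∑ w : Fin J → Fin D → Bool, tail A β w t := by
      rw [← nsmul_eq_mul, ← sum_const]
      calc ∑ _w ∈ univ.filter (fun w : Fin J → Fin D → Bool => s < tail A β w t), s
          ≤ ∑ w ∈ univ.filter (fun w : Fin J → Fin D → Bool => s < tail A β w t),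
            tail A β w t := by
            refine sum_le_sum fun w hw => ?_
            rw [mem_filter] at hw
            exact hw.2.le
        _ ≤ _ := sum_le_univ_sum_of_nonneg (fun w => by
            unfold tail
            refine sum_nonneg fun k _ => sum_nonneg fun i _ => ?_
            have := pr_pos hApos w k
            split_ifs <;> positivity)
    have h3 : ((univ.filter fun w : Fin J → Fin D → Bool => s < tail A β w t).card : ℝ) * s ≤
        (4 / 3 * D * t / s * card) * s := by
      calc _ ≤ _ := h2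
        _ ≤ _ := hT
        _ = _ := by rw [hcard]; field_simp
    exact le_of_mul_le_mul_right h3 hs
  have H3 := H2 (2 * q * θ) (K * q * θ) (by positivity) (by positivity)
  have H4 := H2 (4 * θ) (K * θ) (by positivity) (by positivity)
  have hsub : (univ.filter fun w : Fin J → Fin D → Bool => ¬ Good A β K q lam n D' θ w) ⊆
      ((Icc 1 (n - 3)).biUnion fun j => univ.filter fun w : Fin J → Fin D → Bool =>
        hits A β w (lam ^ 2 * (θ * lam ^ j)) (θ * lam ^ j) < D') ∪
      ((univ.filter fun w : Fin J → Fin D → Bool => K * q * θ < tail A β w (2 * q * θ)) ∪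
       (univ.filter fun w : Fin J → Fin D → Bool => K * θ < tail A β w (4 * θ))) := by
    intro w hw
    rw [mem_filter] at hw
    by_contra hcon
    apply hw.2
    simp only [mem_union, mem_biUnion, mem_filter, mem_univ, true_and, not_or, not_exists,
      not_and, not_lt, mem_Icc, and_imp] at hcon
    exact ⟨fun j h1 h2 => hcon.1 j h1 h2, hcon.2.1, hcon.2.2⟩
  have hc1 := card_le_card hsub
  have hc2 := card_union_le ((Icc 1 (n - 3)).biUnion fun j =>
    univ.filter fun w : Fin J → Fin D → Bool =>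
        hits A β w (lam ^ 2 * (θ * lam ^ j)) (θ * lam ^ j) < D')
      ((univ.filter fun w : Fin J → Fin D → Bool => K * q * θ < tail A β w (2 * q * θ)) ∪
       (univ.filter fun w : Fin J → Fin D → Bool => K * θ < tail A β w (4 * θ)))
  have hc3 := card_union_le
      (univ.filter fun w : Fin J → Fin D → Bool => K * q * θ < tail A β w (2 * q * θ))
       (univ.filter fun w : Fin J → Fin D → Bool => K * θ < tail A β w (4 * θ))
  have hc4 := card_biUnion_le (s := Icc 1 (n - 3)) (t := fun j =>
    univ.filter fun w : Fin J → Fin D → Bool =>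
        hits A β w (lam ^ 2 * (θ * lam ^ j)) (θ * lam ^ j) < D')
  have hc5 : ((∑ j ∈ Icc 1 (n - 3), (univ.filter fun w : Fin J → Fin D → Bool =>
        hits A β w (lam ^ 2 * (θ * lam ^ j)) (θ * lam ^ j) < D').card : ℕ) : ℝ) ≤
      n * (Real.exp (-(D' : ℝ)) * card) := by
    push_cast
    calc _ ≤ ∑ _j ∈ Icc 1 (n - 3), Real.exp (-(D' : ℝ)) * card := sum_le_sum H1
      _ = ((n - 3 : ℕ) : ℝ) * (Real.exp (-(D' : ℝ)) * card) := by
          rw [sum_const, Nat.card_Icc, nsmul_eq_mul]
          simp
      _ ≤ _ := by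
          gcongr
          omega
  have e3 : 4 / 3 * (D : ℝ) * (2 * q * θ) / (K * q * θ) = 8 / 3 * D / K := by
    field_simp
    ring
  have e4 : 4 / 3 * (D : ℝ) * (4 * θ) / (K * θ) = 16 / 3 * D / K := by
    field_simp
    ring
  rw [e3] at H3
  rw [e4] at H4
  have hall : ((univ.filter fun w : Fin J → Fin D → Bool =>
      ¬ Good A β K q lam n D' θ w).card : ℝ) ≤
      n * (Real.exp (-(D' : ℝ)) * card) + (8 / 3 * D / K * card + 16 / 3 * D / K * card) := by
    have : ((univ.filter fun w : Fin J → Fin D → Bool =>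
      ¬ Good A β K q lam n D' θ w).card : ℝ) ≤
      ((∑ j ∈ Icc 1 (n - 3), (univ.filter fun w : Fin J → Fin D → Bool =>
        hits A β w (lam ^ 2 * (θ * lam ^ j)) (θ * lam ^ j) < D').card : ℕ) : ℝ) +
      (((univ.filter fun w : Fin J → Fin D → Bool =>
        K * q * θ < tail A β w (2 * q * θ)).card : ℝ) +
       ((univ.filter fun w : Fin J → Fin D → Bool => K * θ < tail A β w (4 * θ)).card : ℝ)) := by
      exact_mod_cast hc1.trans (hc2.trans (add_le_add hc4 hc3))
    linarith
  calc _ ≤ _ := hall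
    _ = (n * Real.exp (-(D' : ℝ)) + 8 * D / K) * card := by ring

open Classical in
/-- greedy separation -/
lemma exists_separated {Ω : Type*} [Fintype Ω] (S : Finset Ω) (x : Ω → ℝ) (r m : ℝ)
    (hr : 0 ≤ r)
    (hm : ∀ y : ℝ, ((S.filter fun w => |x w - y| ≤ r).card : ℝ) ≤ m) :
    ∃ T ⊆ S, (∀ w ∈ T, ∀ w' ∈ T, w ≠ w' → r < |x w - x w'|) ∧ (S.card : ℝ) ≤ T.card * m := by
  obtain ⟨T, hT, hmax⟩ := Finset.exists_max_image
    (S.powerset.filter fun T => ∀ w ∈ T, ∀ w' ∈ T, w ≠ w' → r < |x w - x w'|) Finset.card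
    ⟨∅, by simp⟩
  rw [mem_filter, mem_powerset] at hT
  refine ⟨T, hT.1, hT.2, ?_⟩
  have hcov : S ⊆ T.biUnion fun t => S.filter fun w => |x w - x t| ≤ r := by
    intro w hw
    rw [mem_biUnion]
    by_contra hcon
    push Not at hcon
    have hfar : ∀ t ∈ T, r < |x w - x t| := by
      intro t ht
      have := hcon t ht
      rw [mem_filter, not_and, not_le] at this
      exact this hw
    by_cases hwT : w ∈ T
    · have h0 := hfar w hwT
      rw [sub_self, abs_zero] at h0
      exact absurd h0 (not_lt.mpr hr)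
    · have hins : insert w T ∈ S.powerset.filter
          fun T => ∀ w ∈ T, ∀ w' ∈ T, w ≠ w' → r < |x w - x w'| := by
        rw [mem_filter, mem_powerset]
        refine ⟨insert_subset hw hT.1, ?_⟩
        intro a ha b hb hab
        rw [mem_insert] at ha hb
        rcases ha with rfl | ha <;> rcases hb with rfl | hb
        · exact absurd rfl hab
        · exact hfar b hb
        · rw [abs_sub_comm]; exact hfar a ha
        · exact hT.2 a ha b hb hab
      have := hmax _ hins
      rw [card_insert_of_notMem hwT] at this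
      omega
  calc (S.card : ℝ) ≤ ((T.biUnion fun t => S.filter fun w => |x w - x t| ≤ r).card : ℝ) := by
        exact_mod_cast card_le_card hcov
    _ ≤ ((∑ t ∈ T, (S.filter fun w => |x w - x t| ≤ r).card : ℕ) : ℝ) := by
        exact_mod_cast card_biUnion_le
    _ = ∑ t ∈ T, ((S.filter fun w => |x w - x t| ≤ r).card : ℝ) := by push_cast; rfl
    _ ≤ ∑ _t ∈ T, m := sum_le_sum fun t _ => hm _
    _ = T.card * m := by rw [sum_const, nsmul_eq_mul]

end Pool.Agent.Helper193
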