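import Pool.Agent.Helper193.Count

set_option autoImplicit false

namespace Pool.Agent.Helper193

open Finset

variable {D J : ℕ}
variable {A B : (Fin D → Bool) → ℝ} {β : ℕ → (Fin D → Bool) → ℝ}
  {C δ e0 K q lam : ℝ} {n D' : ℕ}

open Classical in
/-- weighted indicator -/
noncomputable def FF (A B : (Fin D → Bool) → ℝ) (β : ℕ → (Fin D → Bool) → ℝ)
    (K q lam : ℝ) (n D' : ℕ) (ρ r y : ℝ) (N : ℕ) (θ : ℝ) (v : Fin J → Fin D → Bool) : ℝ :=
  if |pt A B v - y| ≤ r then
    ∏ m ∈ range N, (if Good A β K q lam n D' (θ * q ^ m) v then ρ⁻¹ else 1) else 0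

lemma FF_nonneg {ρ r y : ℝ} (hρ : 0 < ρ) (N : ℕ) (θ : ℝ) (v : Fin J → Fin D → Bool) :
    0 ≤ FF A B β K q lam n D' ρ r y N θ v := by
  unfold FF
  split_ifs
  · refine prod_nonneg fun m _ => ?_
    split_ifs
    · positivity
    · exact zero_le_one
  · exact le_rfl

open Classical in
lemma FF_succ {ρ r y : ℝ} (N : ℕ) (θ : ℝ) (v : Fin J → Fin D → Bool) :
    FF A B β K q lam n D' ρ r y (N + 1) θ v =
      (if Good A β K q lam n D' θ v then ρ⁻¹ else 1) *
        FF A B β K q lam n D' ρ r y N (θ * q) v := by
  unfold FF
  rw [prod_range_succ']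
  simp only [pow_zero, mul_one]
  have : ∀ m : ℕ, θ * q ^ (m + 1) = θ * q * q ^ m := fun m => by ring
  simp only [this]
  split_ifs <;> ring

theorem count (P : Params D A B β C δ e0 K q lam n D') {ρ r y : ℝ}
    (hρ : ρ = 20 * (K + 3) * q) :
    ∀ (N : ℕ) (θ : ℝ), 0 < θ → ∀ (d : Fin J → ℕ) (u : Fin J → Fin D → Bool),
      Valid A β θ d u → r ≤ θ * q ^ N →
      ∑ w : Fin J → Fin D → Bool, FF A B β K q lam n D' ρ r y N θ (ov d u w) ≤
        2 ^ N * Fintype.card (Fin J → Fin D → Bool) := by
  classical
  have hq := P.q_pos
  have hq' := P.q_le'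
  have hK := P.K_pos
  have hρ0 : 0 < ρ := by rw [hρ]; positivity
  intro N
  induction N with
  | zero =>
    intro θ hθ d u V hr
    calc ∑ w : Fin J → Fin D → Bool, FF A B β K q lam n D' ρ r y 0 θ (ov d u w)
        ≤ ∑ w : Fin J → Fin D → Bool, (1 : ℝ) := by
          refine sum_le_sum fun w _ => ?_
          unfold FF
          split_ifs <;> simp
      _ = 2 ^ 0 * Fintype.card (Fin J → Fin D → Bool) := by simp
  | succ N ih =>
    intro θ hθ d u V hr
    set x0 := pt A B (base d u) with hx0
    set c := coef A β q θ d u with hc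
    set card := (Fintype.card (Fin J → Fin D → Bool) : ℝ) with hcard
    have hswap := swap_sum A β q θ d u (fun k h => h.lt P hθ)
      (FF A B β K q lam n D' ρ r y (N + 1) θ)
    have hinner : ∀ e : Fin J → Bool, ∑ w : Fin J → Fin D → Bool,
        FF A B β K q lam n D' ρ r y N (θ * q) (ov (dnext A β q θ d u) (unext d u e) w) ≤
        2 ^ N * card := by
      intro e
      refine ih (θ * q) (by positivity) _ _ (valid_next P hθ V e) ?_
      calc r ≤ θ * q ^ (N + 1) := hr
        _ = θ * q * q ^ N := by ring
    have hrq : r ≤ q * θ := by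
      calc r ≤ θ * q ^ (N + 1) := hr
        _ ≤ θ * q := by
            gcongr
            calc q ^ (N + 1) ≤ q ^ 1 :=
                  pow_le_pow_of_le_one hq.le (by linarith) (by omega)
              _ = q := pow_one q
        _ = q * θ := by ring
    have htrunc : ∀ (e : Fin J → Bool) (w : Fin J → Fin D → Bool) (k : Fin J),
        trunc (ov (dnext A β q θ d u) (unext d u e) w k) (d k) = trunc (u k) (d k) := by
      intro e w k
      exact trunc_of_dnext (A := A) (β := β) q θ d u e _ (fun k => trunc_ov _ _ _ k) k
    have hcardE : (Fintype.card (Fin J → Bool) : ℝ) = 2 ^ J := by simp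
    -- either the state is rich or no word is good
    by_cases hrich : ∀ j : ℕ, 1 ≤ j → j ≤ n - 3 → D' ≤ (univ.filter fun k : Fin J =>
      lam ^ 2 * (θ * lam ^ j) / 2 < |c k| ∧ |c k| ≤ 2 * (θ * lam ^ j)).card
    · have hconc := concentration c θ lam K q (x0 - y) n D' hθ P.hlam P.hlam1 P.hn P.hq P.hK
        P.hD hrich
      have hpoint : ∀ (e : Fin J → Bool) (w : Fin J → Fin D → Bool),
          FF A B β K q lam n D' ρ r y (N + 1) θ (ov (dnext A β q θ d u) (unext d u e) w) ≤
          (1 + ρ⁻¹ * (if |(x0 - y) + ∑ k, (if e k then c k else 0)| ≤ (K + 2) * q * θ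
            then 1 else 0)) *
          FF A B β K q lam n D' ρ r y N (θ * q) (ov (dnext A β q θ d u) (unext d u e) w) := by
        intro e w
        set v := ov (dnext A β q θ d u) (unext d u e) w with hv
        have hF := FF_nonneg (A := A) (B := B) (β := β) (K := K) (q := q) (lam := lam) (n := n)
          (D' := D') (r := r) (y := y) hρ0 N (θ * q) v
        rw [FF_succ]
        by_cases hF0 : FF A B β K q lam n D' ρ r y N (θ * q) v = 0
        · rw [hF0]; simp
        have hvy : |pt A B v - y| ≤ r := by
          by_contra h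
          exact hF0 (by unfold FF; rw [if_neg h])
        refine mul_le_mul_of_nonneg_right ?_ hF
        by_cases hG : Good A β K q lam n D' θ v
        · rw [if_pos hG]
          obtain ⟨-, g2, g3⟩ := hG
          have hdec := decomp P hθ V v (htrunc e w) g2 g3
          have hsum : ∑ k, (if bit (v k) (d k) then coef A β q θ d u k else 0) =
              ∑ k, (if e k then c k else 0) := by
            refine sum_congr rfl fun k _ => ?_
            by_cases hE : Expl A β q θ d u k
            · have hdk := hE.lt P hθ
              have : bit (v k) (d k) = e k := by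
                have h1 : (d k) < dnext A β q θ d u k := by rw [dnext, if_pos hE]; omega
                simp only [bit, hdk, dif_pos, hv, ov, unext]
                simp [h1]
              rw [this]
            · have : c k = 0 := by rw [hc, coef, if_neg hE]
              rw [← hc, this]
              simp
          rw [hsum] at hdec
          have hle : |(x0 - y) + ∑ k, (if e k then c k else 0)| ≤ (K + 2) * q * θ := by
            have e1 : (x0 - y) + ∑ k, (if e k then c k else 0) =
                (pt A B v - y) - (pt A B v - (x0 + ∑ k, (if e k then c k else 0))) := by ring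
            rw [e1]
            calc _ ≤ |pt A B v - y| + |pt A B v - (x0 + ∑ k, (if e k then c k else 0))| :=
                  abs_sub _ _
              _ ≤ q * θ + (K + 1) * q * θ := add_le_add (hvy.trans hrq) hdec
              _ = (K + 2) * q * θ := by ring
          rw [if_pos hle]
          linarith
        · rw [if_neg hG]
          have : 0 ≤ ρ⁻¹ * (if |(x0 - y) + ∑ k, (if e k then c k else 0)| ≤ (K + 2) * q * θ
            then (1 : ℝ) else 0) := by
            split_ifs <;> positivity
          linarith
      have hsumE : ∑ e : Fin J → Bool, (1 + ρ⁻¹ *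
          (if |(x0 - y) + ∑ k, (if e k then c k else 0)| ≤ (K + 2) * q * θ
            then (1 : ℝ) else 0)) ≤ 2 * 2 ^ J := by
        rw [sum_add_distrib, ← mul_sum]
        have e1 : ∑ e : Fin J → Bool,
          (if |(x0 - y) + ∑ k, (if e k then c k else 0)| ≤ (K + 2) * q * θ
            then (1 : ℝ) else 0) = ((univ.filter fun e : Fin J → Bool =>
              |(x0 - y) + ∑ k, (if e k then c k else 0)| ≤ (K + 2) * q * θ).card : ℝ) := by
          rw [sum_boole]
        rw [e1]
        have e2 : ∑ _e : Fin J → Bool, (1 : ℝ) = 2 ^ J := by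
          simp
        rw [e2]
        rw [← hρ, Fintype.card_fin] at hconc
        have : ρ⁻¹ * ((univ.filter fun e : Fin J → Bool =>
              |(x0 - y) + ∑ k, (if e k then c k else 0)| ≤ (K + 2) * q * θ).card : ℝ) ≤
              ρ⁻¹ * (ρ * 2 ^ J) := by gcongr
        rw [← mul_assoc, inv_mul_cancel₀ hρ0.ne', one_mul] at this
        linarith
      have hfin : 2 ^ J * ∑ w : Fin J → Fin D → Bool,
          FF A B β K q lam n D' ρ r y (N + 1) θ (ov d u w) ≤
          2 ^ J * (2 ^ (N + 1) * card) := by
        rw [← hswap]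
        calc _ ≤ ∑ e : Fin J → Bool, ∑ w : Fin J → Fin D → Bool, (1 + ρ⁻¹ *
              (if |(x0 - y) + ∑ k, (if e k then c k else 0)| ≤ (K + 2) * q * θ
                then (1 : ℝ) else 0)) *
              FF A B β K q lam n D' ρ r y N (θ * q)
                (ov (dnext A β q θ d u) (unext d u e) w) :=
              sum_le_sum fun e _ => sum_le_sum fun w _ => hpoint e w
          _ = ∑ e : Fin J → Bool, (1 + ρ⁻¹ *
              (if |(x0 - y) + ∑ k, (if e k then c k else 0)| ≤ (K + 2) * q * θ
                then (1 : ℝ) else 0)) * ∑ w : Fin J → Fin D → Bool,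
              FF A B β K q lam n D' ρ r y N (θ * q)
                (ov (dnext A β q θ d u) (unext d u e) w) := by
              simp only [mul_sum]
          _ ≤ ∑ e : Fin J → Bool, (1 + ρ⁻¹ *
              (if |(x0 - y) + ∑ k, (if e k then c k else 0)| ≤ (K + 2) * q * θ
                then (1 : ℝ) else 0)) * (2 ^ N * card) := by
              refine sum_le_sum fun e _ => mul_le_mul_of_nonneg_left (hinner e) ?_
              split_ifs <;> positivity
          _ = (∑ e : Fin J → Bool, (1 + ρ⁻¹ *
              (if |(x0 - y) + ∑ k, (if e k then c k else 0)| ≤ (K + 2) * q * θ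
                then (1 : ℝ) else 0))) * (2 ^ N * card) := by rw [sum_mul]
          _ ≤ (2 * 2 ^ J) * (2 ^ N * card) := by gcongr
          _ = 2 ^ J * (2 ^ (N + 1) * card) := by ring
      exact le_of_mul_le_mul_left hfin (by positivity)
    · -- no good words in the cell
      have hnot : ∀ (e : Fin J → Bool) (w : Fin J → Fin D → Bool),
          FF A B β K q lam n D' ρ r y (N + 1) θ (ov (dnext A β q θ d u) (unext d u e) w) =
          FF A B β K q lam n D' ρ r y N (θ * q) (ov (dnext A β q θ d u) (unext d u e) w) := by
        intro e w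
        rw [FF_succ]
        have : ¬ Good A β K q lam n D' θ (ov (dnext A β q θ d u) (unext d u e) w) := by
          rintro ⟨g1, -, -⟩
          exact hrich fun j hj1 hj2 => rich P hθ V _ (htrunc e w) j hj1 hj2 (g1 j hj1 hj2)
        rw [if_neg this, one_mul]
      have hfin : 2 ^ J * ∑ w : Fin J → Fin D → Bool,
          FF A B β K q lam n D' ρ r y (N + 1) θ (ov d u w) ≤
          2 ^ J * (2 ^ (N + 1) * card) := by
        rw [← hswap]
        simp only [hnot]
        calc _ ≤ ∑ e : Fin J → Bool, 2 ^ N * card := sum_le_sum fun e _ => hinner e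
          _ = 2 ^ J * (2 ^ N * card) := by simp
          _ ≤ 2 ^ J * (2 ^ (N + 1) * card) := by
              gcongr
              · norm_num
              · omega
      exact le_of_mul_le_mul_left hfin (by positivity)

end Pool.Agent.Helper193
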