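import Pool.Agent.Helper193.Good

set_option autoImplicit false

namespace Pool.Agent.Helper193

open Finset

variable {D J : ℕ}
variable {A B : (Fin D → Bool) → ℝ} {β : ℕ → (Fin D → Bool) → ℝ}
  {C δ e0 K q lam : ℝ} {n D' : ℕ}

open Classical in
theorem many_separated (P : Params D A B β C δ e0 K q lam n D') {ρ ε p : ℝ}
    (hρ : ρ = 20 * (K + 3) * q) (hρ1 : ρ ≤ 1) (hε : 0 < ε) (N N0 : ℕ) (hN : 0 < N)
    (hp : ∀ m, N0 ≤ m → m < N → ((univ.filter fun w : Fin J → Fin D → Bool =>
      ¬ Good A β K q lam n D' (e0 * q ^ m) w).card : ℝ) ≤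
      p * Fintype.card (Fin J → Fin D → Bool)) (hp0 : 0 ≤ p)
    (hNN : N0 + p * N ≤ ε * N / 2) :
    ∃ T : Finset (Fin J → Fin D → Bool),
      (∀ w ∈ T, ∀ w' ∈ T, w ≠ w' → e0 * q ^ N < |pt A B w - pt A B w'|) ∧
      Real.exp ((1 - ε) * N * Real.log ρ⁻¹) ≤ 2 ^ (N + 1) * T.card := by
  have hq := P.q_pos
  have hK := P.K_pos
  have he0 := P.he0
  have hρ0 : 0 < ρ := by rw [hρ]; positivity
  set L := Real.log ρ⁻¹ with hL
  have hL0 : 0 ≤ L := Real.log_nonneg ((one_le_inv₀ hρ0).mpr hρ1)
  set card := (Fintype.card (Fin J → Fin D → Bool) : ℝ) with hcard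
  have hcard0 : 0 < card := by
    rw [hcard]
    exact_mod_cast Fintype.card_pos
  have hNr : (0 : ℝ) < N := by exact_mod_cast hN
  -- numbers of good and bad windows
  let g : (Fin J → Fin D → Bool) → ℕ := fun w =>
    ((range N).filter fun m => Good A β K q lam n D' (e0 * q ^ m) w).card
  let b : (Fin J → Fin D → Bool) → ℕ := fun w =>
    ((range N).filter fun m => ¬ Good A β K q lam n D' (e0 * q ^ m) w).card
  have hgb : ∀ w, g w + b w = N := by
    intro w
    simp only [g, b]
    rw [card_filter_add_card_filter_not, card_range]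
  set S : Finset (Fin J → Fin D → Bool) := univ.filter fun w => (1 - ε) * N ≤ g w with hS
  have hbsum : ∑ w : Fin J → Fin D → Bool, (b w : ℝ) ≤ (N0 + p * N) * card := by
    have e1 : ∑ w : Fin J → Fin D → Bool, (b w : ℝ) =
        ∑ m ∈ range N, ((univ.filter fun w : Fin J → Fin D → Bool =>
          ¬ Good A β K q lam n D' (e0 * q ^ m) w).card : ℝ) := by
      simp only [b, card_filter]
      push_cast
      rw [sum_comm]
    rw [e1]
    calc ∑ m ∈ range N, ((univ.filter fun w : Fin J → Fin D → Bool =>
          ¬ Good A β K q lam n D' (e0 * q ^ m) w).card : ℝ)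
        ≤ ∑ m ∈ range N, ((if m < N0 then card else 0) + p * card) := by
          refine sum_le_sum fun m hm => ?_
          rw [mem_range] at hm
          split_ifs with h
          · have : ((univ.filter fun w : Fin J → Fin D → Bool =>
              ¬ Good A β K q lam n D' (e0 * q ^ m) w).card : ℝ) ≤ card := by
              rw [hcard]
              exact_mod_cast card_le_univ _
            have : 0 ≤ p * card := by positivity
            linarith
          · rw [zero_add]
            exact hp m (not_lt.mp h) hm
      _ = ((range N).filter fun m => m < N0).card * card + N * (p * card) := by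
          rw [sum_add_distrib, ← sum_filter, sum_const, sum_const, nsmul_eq_mul, nsmul_eq_mul,
            card_range]
      _ ≤ N0 * card + N * (p * card) := by
          gcongr
          calc ((range N).filter fun m => m < N0).card ≤ (range N0).card := by
                apply card_le_card
                intro m hm
                rw [mem_filter] at hm
                exact mem_range.mpr hm.2
            _ = N0 := card_range _
      _ = _ := by ring
  have hScompl : ((univ.filter fun w : Fin J → Fin D → Bool => ¬ ((1 - ε) * N ≤ g w)).card : ℝ)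
      ≤ card / 2 := by
    have h1 : ((univ.filter fun w : Fin J → Fin D → Bool =>
        ¬ ((1 - ε) * N ≤ g w)).card : ℝ) * (ε * N) ≤
        ∑ w : Fin J → Fin D → Bool, (b w : ℝ) := by
      rw [← nsmul_eq_mul, ← sum_const]
      calc ∑ _w ∈ univ.filter (fun w : Fin J → Fin D → Bool => ¬ ((1 - ε) * N ≤ g w)), ε * N
          ≤ ∑ w ∈ univ.filter (fun w : Fin J → Fin D → Bool => ¬ ((1 - ε) * N ≤ g w)),
            (b w : ℝ) := by
            refine sum_le_sum fun w hw => ?_
            rw [mem_filter, not_le] at hw
            have h2 : (g w : ℝ) + b w = N := by exact_mod_cast hgb w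
            linarith [hw.2]
        _ ≤ _ := sum_le_univ_sum_of_nonneg (fun w => by positivity)
    have h2 : ((univ.filter fun w : Fin J → Fin D → Bool =>
        ¬ ((1 - ε) * N ≤ g w)).card : ℝ) * (ε * N) ≤ (card / 2) * (ε * N) := by
      calc _ ≤ _ := h1
        _ ≤ _ := hbsum
        _ ≤ (ε * N / 2) * card := by gcongr
        _ = _ := by ring
    exact le_of_mul_le_mul_right h2 (by positivity)
  have hScard : card / 2 ≤ S.card := by
    have h1 : (S.card : ℝ) + ((univ.filter fun w : Fin J → Fin D → Bool =>
        ¬ ((1 - ε) * N ≤ g w)).card : ℝ) = card := by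
      rw [hcard, hS]
      exact_mod_cast card_filter_add_card_filter_not _
    linarith
  -- the count near a point
  have hm : ∀ y : ℝ, ((S.filter fun w => |pt A B w - y| ≤ e0 * q ^ N).card : ℝ) ≤
      2 ^ N * card * Real.exp (-((1 - ε) * N * L)) := by
    intro y
    have hc := count_init (J := J) P (y := y) hρ N (le_refl (e0 * q ^ N))
    have h1 : ((S.filter fun w => |pt A B w - y| ≤ e0 * q ^ N).card : ℝ) *
        Real.exp ((1 - ε) * N * L) ≤ ∑ w : Fin J → Fin D → Bool,
        FF A B β K q lam n D' ρ (e0 * q ^ N) y N e0 w := by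
      rw [← nsmul_eq_mul, ← sum_const]
      calc ∑ _w ∈ S.filter (fun w => |pt A B w - y| ≤ e0 * q ^ N),
            Real.exp ((1 - ε) * N * L)
          ≤ ∑ w ∈ S.filter (fun w => |pt A B w - y| ≤ e0 * q ^ N),
            FF A B β K q lam n D' ρ (e0 * q ^ N) y N e0 w := by
            refine sum_le_sum fun w hw => ?_
            rw [mem_filter, hS, mem_filter] at hw
            unfold FF
            rw [if_pos hw.2]
            have e1 : ∏ m ∈ range N, (if Good A β K q lam n D' (e0 * q ^ m) w then ρ⁻¹
                else 1) = Real.exp (g w * L) := by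
              rw [prod_ite, prod_const, prod_const_one, mul_one, Real.exp_nat_mul, hL,
                Real.exp_log (inv_pos.mpr hρ0)]
            rw [e1, Real.exp_le_exp]
            exact mul_le_mul_of_nonneg_right hw.1.2 hL0
        _ ≤ _ := sum_le_univ_sum_of_nonneg (fun w => FF_nonneg hρ0 _ _ _)
    have h2 := h1.trans hc
    rw [Real.exp_neg]
    rw [← div_eq_mul_inv, le_div_iff₀ (Real.exp_pos _)]
    exact h2
  obtain ⟨T, hTS, hTsep, hTcard⟩ := exists_separated S (pt A B) (e0 * q ^ N) _
    (by positivity) hm
  refine ⟨T, hTsep, ?_⟩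
  have h3 : card / 2 ≤ T.card * (2 ^ N * card * Real.exp (-((1 - ε) * N * L))) :=
    hScard.trans hTcard
  have h4 : 1 ≤ 2 ^ (N + 1) * (T.card : ℝ) * Real.exp (-((1 - ε) * N * L)) := by
    have : card * 1 ≤ card * (2 ^ (N + 1) * (T.card : ℝ) * Real.exp (-((1 - ε) * N * L))) := by
      have e : card * (2 ^ (N + 1) * (T.card : ℝ) * Real.exp (-((1 - ε) * N * L))) =
        2 * (T.card * (2 ^ N * card * Real.exp (-((1 - ε) * N * L)))) := by ring
      rw [e]
      linarith
    exact le_of_mul_le_mul_left this hcard0
  rw [Real.exp_neg, ← div_eq_mul_inv, le_div_iff₀ (Real.exp_pos _), one_mul] at h4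
  exact h4

end Pool.Agent.Helper193
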